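import Mathlib

open Filter Topology PeriodPair Set

noncomputable section

namespace Pool.Agent.H.MP_88847a_mp

lemma hd_congr {f g : ℂ → ℂ} {a b x : ℂ} (h : HasDerivAt f a x) (h1 : ∀ z, g z = f z)
    (h2 : b = a) : HasDerivAt g b x := by
  rw [show g = f from funext h1, h2]; exact h

variable (L : PeriodPair)

/-- zeta with the `0` term removed -/
def zeta0 (z : ℂ) : ℂ :=
  ∑' l : L.lattice, if (l : ℂ) = 0 then 0 else (1 / (z - l) + 1 / l + z / l ^ 2)

def zeta (z : ℂ) : ℂ := 1 / z + zeta0 L z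

def fac (l z : ℂ) : ℂ := (1 - z / l) * Complex.exp (z / l + (z / l) ^ 2 / 2)

def s0 (z : ℂ) : ℂ := ∏' l : L.lattice, fac l z

def sig (z : ℂ) : ℂ := z * s0 L z

lemma zeta_bound (r : ℝ) (hr : 0 < r) (s : ℂ) (hs : ‖s‖ < r) (l : ℂ) (h : 2 * r ≤ ‖l‖) :
    ‖1 / (s - l) + 1 / l + s / l ^ 2‖ ≤ 2 * r ^ 2 * ‖l‖ ^ (-3 : ℝ) := by
  have h1 : s ≠ l := by rintro rfl; linarith
  have h2 : 0 < ‖l‖ := by linarith
  have h3 : l ≠ 0 := by simpa using h2
  have h4 : s - l ≠ 0 := sub_ne_zero.mpr h1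
  have h5 : ‖l‖ / 2 ≤ ‖s - l‖ := by
    rw [norm_sub_rev]
    exact .trans (by linarith) (norm_sub_norm_le l s)
  calc
    _ = ‖s ^ 2 / (l ^ 2 * (s - l))‖ := by
      congr 1; field_simp; ring
    _ = ‖s‖ ^ 2 / (‖l‖ ^ 2 * ‖s - l‖) := by simp
    _ ≤ r ^ 2 / (‖l‖ ^ 2 * (‖l‖ / 2)) := by gcongr
    _ = 2 * r ^ 2 / ‖l‖ ^ 3 := by field
    _ = _ := by
      rw [Real.rpow_neg h2.le, div_eq_mul_inv]; norm_cast

lemma hasSum_zeta0 :
    HasSumLocallyUniformly
      (fun (l : L.lattice) (z : ℂ) ↦ if (l : ℂ) = 0 then 0 else (1 / (z - l) + 1 / l + z / l ^ 2))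
      (zeta0 L) := by
  refine L.hasSumLocallyUniformly_aux (u := fun r l => 2 * r ^ 2 * ‖l‖ ^ (-3 : ℝ)) _
    (fun _ _ ↦ (ZLattice.summable_norm_rpow _ _ (by simp; norm_num)).mul_left _) fun r hr ↦
    Filter.eventually_atTop.mpr ⟨2 * r, ?_⟩
  rintro _ h s hs l rfl
  split_ifs
  · simpa using! show 0 ≤ 2 * r ^ 2 * (‖↑l‖ ^ 3)⁻¹ by positivity
  · exact zeta_bound r hr s hs l h

lemma term_hasDerivAt (l : L.lattice) (x : ℂ) (hx : x ∈ ((L.lattice : Set ℂ) \ {0})ᶜ) :
    HasDerivAt (fun z : ℂ => if (l : ℂ) = 0 then (0 : ℂ) else (1 / (z - l) + 1 / l + z / l ^ 2))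
      (-(if (l : ℂ) = 0 then (0 : ℂ) else (1 / (x - l) ^ 2 - 1 / l ^ 2))) x := by
  split_ifs with h
  · simpa using hasDerivAt_const x (0 : ℂ)
  · have hxl : x - l ≠ 0 := by
      intro e
      obtain rfl := sub_eq_zero.mp e
      exact hx ⟨l.2, h⟩
    have h1 : HasDerivAt (fun z : ℂ => (z - l)⁻¹) (-1 / (x - l) ^ 2) x :=
      ((hasDerivAt_id x).sub_const _).inv hxl
    have h2 : HasDerivAt (fun z : ℂ => z / (l : ℂ) ^ 2) (1 / (l : ℂ) ^ 2) x :=
      (hasDerivAt_id x).div_const _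
    exact hd_congr ((h1.add_const (1 / (l : ℂ))).add h2) (fun z => by simp) (by ring)

lemma differentiableOn_zeta0 : DifferentiableOn ℂ (zeta0 L) ((L.lattice : Set ℂ) \ {0})ᶜ := by
  refine (hasSum_zeta0 L).hasSumLocallyUniformlyOn.differentiableOn
    (.of_forall fun s ↦ .fun_sum fun i _ x hx ↦ ?_) L.isOpen_compl_lattice_sdiff
  exact (term_hasDerivAt L i x hx).differentiableAt.differentiableWithinAt

lemma deriv_zeta0 : Set.EqOn (deriv (zeta0 L)) (fun z => - L.weierstrassPExcept 0 z)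
    ((L.lattice : Set ℂ) \ {0})ᶜ := by
  refine ((hasSum_zeta0 L).tendstoLocallyUniformlyOn.deriv
    (.of_forall fun s ↦ ?_) L.isOpen_compl_lattice_sdiff).unique ?_
  · exact .fun_sum fun i _ x hx ↦ (term_hasDerivAt L i x hx).differentiableAt.differentiableWithinAt
  · have := (L.hasSumLocallyUniformly_weierstrassPExcept 0).tendstoLocallyUniformlyOn
      (s := ((L.lattice : Set ℂ) \ {0})ᶜ)
    have h2 := this.neg
    refine h2.congr ?_
    intro s x hx
    simp only [Function.comp_apply, Pi.neg_apply]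
    rw [deriv_fun_sum (fun i _ => (term_hasDerivAt L i x hx).differentiableAt),
      ← Finset.sum_neg_distrib]
    exact Finset.sum_congr rfl fun i _ => ((term_hasDerivAt L i x hx).deriv).symm

lemma hasDerivAt_zeta0 {x : ℂ} (hx : x ∈ ((L.lattice : Set ℂ) \ {0})ᶜ) :
    HasDerivAt (zeta0 L) (- L.weierstrassPExcept 0 x) x := by
  have := ((differentiableOn_zeta0 L).differentiableAt
    (L.isOpen_compl_lattice_sdiff.mem_nhds hx)).hasDerivAt
  rwa [deriv_zeta0 L hx] at this

lemma analyticAt_zeta0 : AnalyticAt ℂ (zeta0 L) 0 :=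
  (differentiableOn_zeta0 L).analyticAt (L.compl_lattice_sdiff_singleton_mem_nhds 0)

lemma wp_eq (z : ℂ) : ℘[L] z = 1 / z ^ 2 + L.weierstrassPExcept 0 z := by
  have := L.weierstrassPExcept_add 0 z
  simp only [ZeroMemClass.coe_zero, sub_zero] at this
  rw [← this]; simp [add_comm]

lemma ne_zero_of_notMem {z : ℂ} (hz : z ∉ L.lattice) : z ≠ 0 := by
  rintro rfl; exact hz (zero_mem _)

lemma hasDerivAt_zeta {z : ℂ} (hz : z ∉ L.lattice) : HasDerivAt (zeta L) (- ℘[L] z) z := by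
  have h0 := ne_zero_of_notMem L hz
  have h1 := hasDerivAt_zeta0 L (x := z) (fun h => hz h.1)
  have h2 : HasDerivAt (fun z : ℂ => z⁻¹) (-(z ^ 2)⁻¹) z := hasDerivAt_inv h0
  exact hd_congr (h2.add h1) (fun w => by simp [zeta]) (by rw [wp_eq]; ring)

lemma zeta0_neg (z : ℂ) : zeta0 L (-z) = - zeta0 L z := by
  simp only [zeta0]
  rw [← (Equiv.neg L.lattice).tsum_eq, ← tsum_neg]
  congr with l
  simp only [Equiv.neg_apply, NegMemClass.coe_neg, neg_eq_zero]
  split_ifs
  · simp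
  · rw [show -z - -(l : ℂ) = -(z - l) by ring]
    simp only [div_neg, neg_div, even_two, Even.neg_pow]
    ring

lemma zeta_neg (z : ℂ) : zeta L (-z) = - zeta L z := by
  simp only [zeta, zeta0_neg, div_neg]; ring

lemma zeta0_zero : zeta0 L 0 = 0 := by
  simpa [CharZero.eq_neg_self_iff] using zeta0_neg L 0

lemma zeta_zero : zeta L 0 = 0 := by simp [zeta, zeta0_zero]

lemma fac_bound (w : ℂ) (hw : ‖w‖ ≤ 1 / 2) :
    ‖(1 - w) * Complex.exp (w + w ^ 2 / 2) - 1‖ ≤ 2 * ‖w‖ ^ 3 := by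
  have hw1 : ‖-w‖ < 1 := by rw [norm_neg]; linarith
  have h1 := Complex.norm_log_sub_logTaylor_le 2 hw1
  have h2 : Complex.logTaylor (2 + 1) (-w) = -w - w ^ 2 / 2 := by
    simp [Complex.logTaylor_succ, Complex.logTaylor_zero]; ring
  rw [h2, norm_neg] at h1
  have hne : 1 + -w ≠ 0 := by
    intro e
    have : w = 1 := by linear_combination -e
    rw [this] at hw; norm_num at hw
  set x := Complex.log (1 + -w) - (-w - w ^ 2 / 2) with hx
  have h3 : (1 - w) * Complex.exp (w + w ^ 2 / 2) = Complex.exp x := by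
    rw [hx, show Complex.log (1 + -w) - (-w - w ^ 2 / 2) = Complex.log (1 + -w) + (w + w ^ 2 / 2)
      by ring, Complex.exp_add (Complex.log _), Complex.exp_log hne]
    ring
  have h4 : ‖x‖ ≤ ‖w‖ ^ 3 := by
    refine h1.trans ?_
    have : (1 - ‖w‖)⁻¹ ≤ 2 := by
      rw [inv_le_comm₀ (by linarith) (by norm_num)]; linarith
    have h0 : 0 ≤ ‖w‖ ^ 3 := by positivity
    push_cast
    nlinarith
  have h5 : ‖w‖ ^ 3 ≤ 1 := pow_le_one₀ (norm_nonneg _) (by linarith)
  rw [h3]
  exact (Complex.norm_exp_sub_one_le (h4.trans h5)).trans (by linarith)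

lemma fac_ev (r : ℝ) (hr : 0 < r) : ∀ᶠ l : L.lattice in cofinite, ∀ x ∈ Metric.ball (0 : ℂ) r,
    ‖fac l x - 1‖ ≤ 2 * r ^ 3 * ‖l‖ ^ (-3 : ℝ) := by
  refine (isCompact_iff_finite.mp (isCompact_closedBall (0 : L.lattice) (2 * r))).subset ?_
  intro l hl
  simp only [Metric.mem_closedBall, dist_zero_right]
  by_contra hc
  push Not at hc
  apply hl
  intro x hx
  have hx' : ‖x‖ < r := by simpa using hx
  have hc' : 2 * r < ‖(l : ℂ)‖ := hc
  have h2 : 0 < ‖(l : ℂ)‖ := by linarith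
  have h3 : ‖x / l‖ ≤ 1 / 2 := by
    rw [norm_div, div_le_iff₀ h2]; linarith
  refine (fac_bound _ h3).trans ?_
  change _ ≤ 2 * r ^ 3 * ‖(l : ℂ)‖ ^ (-3 : ℝ)
  rw [norm_div, div_pow, Real.rpow_neg h2.le, show (3 : ℝ) = (3 : ℕ) by norm_num,
    Real.rpow_natCast, mul_assoc, ← div_eq_mul_inv]
  gcongr

lemma summable_u (c : ℝ) : Summable fun l : L.lattice => c * ‖l‖ ^ (-3 : ℝ) :=
  (ZLattice.summable_norm_rpow _ _ (by simp; norm_num)).mul_left _

lemma fac_diff (l : ℂ) : Differentiable ℂ (fac l) := by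
  unfold fac; fun_prop

lemma hasProd_ball (r : ℝ) (hr : 0 < r) :
    HasProdLocallyUniformlyOn (fun (l : L.lattice) x => fac l x) (s0 L) (Metric.ball 0 r) := by
  have := Summable.hasProdLocallyUniformlyOn_one_add (f := fun (l : L.lattice) x => fac l x - 1)
    Metric.isOpen_ball (summable_u L (2 * r ^ 3)) (fac_ev L r hr)
    (fun l => ((fac_diff l).continuous.sub continuous_const).continuousOn)
  simp only [add_sub_cancel] at this
  exact this

lemma s0_diff : Differentiable ℂ (s0 L) := by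
  intro x
  have h := (hasProd_ball L (‖x‖ + 1) (by positivity)).differentiableOn
    (.of_forall fun s => by
      have : ∀ i ∈ s, Differentiable ℂ (fac (i : ℂ)) := fun i _ => fac_diff _
      exact (Differentiable.fun_finsetProd this).differentiableOn) Metric.isOpen_ball
  exact h.differentiableAt (Metric.isOpen_ball.mem_nhds (by simp))

lemma fac_ne {l x : ℂ} (h : l = 0 ∨ x ≠ l) : fac l x ≠ 0 := by
  unfold fac
  refine mul_ne_zero ?_ (Complex.exp_ne_zero _)
  rcases eq_or_ne l 0 with rfl | hl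
  · simp
  · have hx := h.resolve_left hl
    intro e
    apply hx
    field_simp at e
    linear_combination -e

lemma s0_ne {x : ℂ} (hx : x ∈ ((L.lattice : Set ℂ) \ {0})ᶜ) : s0 L x ≠ 0 := by
  have h1 : ∀ l : L.lattice, 1 + (fac l x - 1) ≠ 0 := by
    intro l
    rw [add_sub_cancel]
    refine fac_ne ?_
    by_contra hc
    push Not at hc
    exact hx ⟨hc.2 ▸ l.2, hc.2 ▸ hc.1⟩
  have h2 : Summable fun l : L.lattice => ‖fac l x - 1‖ := by
    refine Summable.of_norm_bounded_eventually (summable_u L (2 * (‖x‖ + 1) ^ 3)) ?_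
    filter_upwards [fac_ev L (‖x‖ + 1) (by positivity)] with l hl
    simpa using hl x (by simp)
  have := tprod_one_add_ne_zero_of_summable h1 h2
  simpa [s0] using this

lemma logDeriv_fac (l : L.lattice) {x : ℂ} (hx : x ∈ ((L.lattice : Set ℂ) \ {0})ᶜ) :
    logDeriv (fac l) x = if (l : ℂ) = 0 then 0 else (1 / (x - l) + 1 / l + x / l ^ 2) := by
  split_ifs with h
  · have : fac (l : ℂ) = fun _ => 1 := by ext z; simp [fac, h]
    rw [this]; simp [logDeriv_apply]
  · have hxl : x - l ≠ 0 := by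
      intro e
      obtain rfl := sub_eq_zero.mp e
      exact hx ⟨l.2, h⟩
    have h1 : HasDerivAt (fun z : ℂ => z / (l : ℂ)) (1 / l) x := (hasDerivAt_id x).div_const _
    have h2 := (h1.const_sub 1).mul ((h1.add ((h1.pow 2).div_const 2)).cexp)
    have h3 : deriv (fac l) x = _ := h2.deriv
    rw [logDeriv_apply, h3, fac]
    have he := Complex.exp_ne_zero (x / l + (x / l) ^ 2 / 2)
    have hlx : (l : ℂ) - x ≠ 0 := fun e => hxl (by linear_combination -e)
    have h4 : 1 - x / l ≠ 0 := by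
      intro e; apply hlx; field_simp at e; linear_combination e
    simp only [Pi.add_apply, Pi.pow_apply]
    rw [div_eq_iff (mul_ne_zero h4 he)]
    norm_num
    field_simp
    ring

lemma logDeriv_s0 {x : ℂ} (hx : x ∈ ((L.lattice : Set ℂ) \ {0})ᶜ) :
    logDeriv (s0 L) x = zeta0 L x := by
  have := logDeriv_tprod_eq_tsum (s := Metric.ball (0 : ℂ) (‖x‖ + 1)) Metric.isOpen_ball
    (x := x) (by simp) (f := fun (l : L.lattice) => fac l)
    (fun l => fac_ne (by
      by_contra hc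
      push Not at hc
      exact hx ⟨hc.2 ▸ l.2, hc.2 ▸ hc.1⟩))
    (fun l => (fac_diff _).differentiableOn)
    (by simp_rw [logDeriv_fac L _ hx]; exact (hasSum_zeta0 L).hasSum.summable)
    ⟨_, hasProd_ball L _ (by positivity)⟩ (s0_ne L hx)
  simp_rw [logDeriv_fac L _ hx] at this
  exact this

lemma sig_diff : Differentiable ℂ (sig L) := differentiable_id.mul (s0_diff L)

lemma sig_ne {z : ℂ} (hz : z ∉ L.lattice) : sig L z ≠ 0 :=
  mul_ne_zero (ne_zero_of_notMem L hz) (s0_ne L fun h => hz h.1)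

lemma s0_zero : s0 L 0 = 1 := by simp [s0, fac]

lemma sig_zero : sig L 0 = 0 := by simp [sig]

lemma s0_neg (z : ℂ) : s0 L (-z) = s0 L z := by
  simp only [s0]
  rw [← (Equiv.neg L.lattice).tprod_eq]
  congr with l
  simp [fac, neg_div, div_neg]

lemma sig_neg (z : ℂ) : sig L (-z) = - sig L z := by simp [sig, s0_neg]

lemma hasDerivAt_sig {z : ℂ} (hz : z ∉ L.lattice) :
    HasDerivAt (sig L) (zeta L z * sig L z) z := by
  have h0 := ne_zero_of_notMem L hz
  have hx : z ∈ ((L.lattice : Set ℂ) \ {0})ᶜ := fun h => hz h.1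
  have h1 := (hasDerivAt_id z).mul (s0_diff L z).hasDerivAt
  have h2 := logDeriv_s0 L hx
  rw [logDeriv_apply, div_eq_iff (s0_ne L hx)] at h2
  refine hd_congr h1 (fun _ => rfl) ?_
  rw [h2, zeta, sig]
  simp only [id]
  field_simp

lemma hasDerivAt_sig_zero : HasDerivAt (sig L) 1 0 := by
  have h1 := (hasDerivAt_id (0 : ℂ)).mul (s0_diff L 0).hasDerivAt
  exact hd_congr h1 (fun _ => rfl) (by simp [s0_zero])

lemma countable_lattice : (L.lattice : Set ℂ).Countable :=
  countable_of_Lindelof_of_discrete (X := L.lattice)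

lemma preconn : IsPreconnected (L.lattice : Set ℂ)ᶜ :=
  (Set.Countable.isConnected_compl_of_one_lt_rank (by simp) (countable_lattice L)).2

lemma const_of_deriv (f : ℂ → ℂ) (hf : ∀ z ∉ L.lattice, HasDerivAt f 0 z) :
    ∃ c, ∀ z ∉ L.lattice, f z = c := by
  refine ⟨f (L.ω₁ / 2), fun z hz => ?_⟩
  exact IsOpen.is_const_of_deriv_eq_zero L.isClosed_lattice.isOpen_compl (preconn L)
    (fun x hx => (hf x hx).differentiableAt.differentiableWithinAt)
    (fun x hx => (hf x hx).deriv) hz L.ω₁_div_two_notMem_lattice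

lemma add_notMem {z l : ℂ} (hz : z ∉ L.lattice) (hl : l ∈ L.lattice) : z + l ∉ L.lattice :=
  fun h => hz (by simpa using sub_mem h hl)

lemma quasi {l : ℂ} (hl : l ∈ L.lattice) : ∃ η C : ℂ,
    (∀ z ∉ L.lattice, zeta L (z + l) = zeta L z + η) ∧
    (∀ z ∉ L.lattice, sig L (z + l) = C * Complex.exp (η * z) * sig L z) := by
  obtain ⟨η, hη⟩ := const_of_deriv L (fun z => zeta L (z + l) - zeta L z) (fun z hz => by
    have h1 := (hasDerivAt_zeta L (add_notMem L hz hl)).comp_add_const z l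
    have h2 := h1.sub (hasDerivAt_zeta L hz)
    have h3 := L.weierstrassP_add_coe z ⟨l, hl⟩
    simp only at h3
    rw [h3, sub_self] at h2
    exact h2)
  obtain ⟨C, hC⟩ := const_of_deriv L
    (fun z => sig L (z + l) / (Complex.exp (η * z) * sig L z)) (fun z hz => by
    have h1 := (hasDerivAt_sig L (add_notMem L hz hl)).comp_add_const z l
    have h2 : HasDerivAt (fun z => Complex.exp (η * z)) (Complex.exp (η * z) * (η * 1)) z :=
      ((hasDerivAt_id z).const_mul η).cexp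
    have h3 := h1.div (h2.mul (hasDerivAt_sig L hz))
      (mul_ne_zero (Complex.exp_ne_zero _) (sig_ne L hz))
    refine hd_congr h3 (fun _ => rfl) ?_
    have := hη z hz
    simp only [Pi.mul_apply]
    rw [show zeta L (z + l) = zeta L z + η by linear_combination this]
    ring)
  refine ⟨η, C, fun z hz => by linear_combination hη z hz, fun z hz => ?_⟩
  have := hC z hz
  rw [div_eq_iff (mul_ne_zero (Complex.exp_ne_zero _) (sig_ne L hz))] at this
  rw [this]; ring

end Pool.Agent.H.MP_88847a_mp
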