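import Pool.Agent.H.MP_88847a_mp.A

open Filter Topology PeriodPair Set

noncomputable section

namespace Pool.Agent.H.MP_88847a_mp

variable (L : PeriodPair)

lemma ev_notMem (z p : ℂ) : ∀ᶠ x in 𝓝[≠] z, x - p ∉ L.lattice := by
  have h1 : ∀ᶠ x in 𝓝 z, x - p ∈ ((L.lattice : Set ℂ) \ {z - p})ᶜ :=
    (continuous_sub_right p).continuousAt.preimage_mem_nhds
      (L.compl_lattice_sdiff_singleton_mem_nhds (z - p))
  filter_upwards [mem_nhdsWithin_of_mem_nhds h1, self_mem_nhdsWithin] with x hx hx' h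
  exact hx ⟨h, fun e => hx' (by simpa using e)⟩

lemma ev_notMem0 (z : ℂ) : ∀ᶠ x in 𝓝[≠] z, x ∉ L.lattice := by
  simpa using ev_notMem L z 0

lemma exists_dslope {g : ℂ → ℂ} (hg : AnalyticAt ℂ g 0) :
    ∃ h, AnalyticAt ℂ h 0 ∧ h 0 = deriv g 0 ∧ ∀ z, g z = g 0 + z * h z := by
  obtain ⟨p, hp⟩ := hg
  refine ⟨dslope g 0, ⟨_, hp.has_fpower_series_dslope_fslope⟩, by simp, fun z => ?_⟩
  have := sub_smul_dslope g 0 z
  simp only [sub_zero, smul_eq_mul] at this
  rw [this]; ring

lemma shift_ev {P : ℂ → Prop} {p : ℂ} (l : ℂ) (h : ∀ᶠ x in 𝓝[≠] p, P x) :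
    ∀ᶠ x in 𝓝[≠] (p + l), P (x - l) := by
  have : Tendsto (fun x => x - l) (𝓝[≠] (p + l)) (𝓝[≠] p) := by
    refine tendsto_nhdsWithin_iff.mpr ⟨?_, ?_⟩
    · have : Tendsto (fun x => x - l) (𝓝 (p + l)) (𝓝 (p + l - l)) :=
        (continuous_sub_right l).continuousAt
      rw [add_sub_cancel_right] at this
      exact this.mono_left nhdsWithin_le_nhds
    · filter_upwards [self_mem_nhdsWithin] with x hx e
      apply hx
      simp only [Set.mem_singleton_iff] at e ⊢
      linear_combination e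
  exact this.eventually h

lemma liouville (G : ℂ → ℂ) (h1 : ∀ z, ∃ g, AnalyticAt ℂ g z ∧ G =ᶠ[𝓝[≠] z] g)
    (h2 : ∀ l ∈ L.lattice, ∀ z, ∀ᶠ x in 𝓝[≠] z, G (x + l) = G x) :
    ∃ c, ∀ z g, AnalyticAt ℂ g z → G =ᶠ[𝓝[≠] z] g → g z = c := by
  set F : ℂ → ℂ := fun z => limUnder (𝓝[≠] z) G with hF
  have key : ∀ z g, AnalyticAt ℂ g z → G =ᶠ[𝓝[≠] z] g → F z = g z := by
    intro z g hg hG
    exact ((hg.continuousAt.tendsto.mono_left nhdsWithin_le_nhds).congr' hG.symm).limUnder_eq
  have hFa : ∀ z, AnalyticAt ℂ F z := by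
    intro z
    obtain ⟨g, hg, hG⟩ := h1 z
    refine hg.congr ?_
    have h3 : ∀ᶠ x in 𝓝 z, ∀ᶠ w in 𝓝 x, w ≠ z → G w = g w :=
      (eventually_nhdsWithin_iff.mp hG).eventually_nhds
    filter_upwards [h3, hg.eventually_analyticAt] with x hx hgx
    rcases eq_or_ne x z with rfl | hxz
    · exact (key _ _ hg hG).symm
    · refine (key x g hgx ?_).symm
      filter_upwards [mem_nhdsWithin_of_mem_nhds hx,
        mem_nhdsWithin_of_mem_nhds (isOpen_ne.mem_nhds hxz)] with w hw hw'
      exact hw hw'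
  have hFd : Differentiable ℂ F := fun z => (hFa z).differentiableAt
  have hper : ∀ z w, w ∈ L.lattice → F (z + w) = F z := by
    intro z w hw
    obtain ⟨g, hg, hG⟩ := h1 z
    have hg' : AnalyticAt ℂ (fun x => g (x - w)) (z + w) := by
      refine AnalyticAt.comp_of_eq hg (by fun_prop) (by simp)
    rw [key z g hg hG, key (z + w) _ hg' ?_]
    · simp
    · filter_upwards [shift_ev w hG, shift_ev w (h2 w hw z)] with x hx hx'
      rw [← hx, ← hx']; simp
  refine ⟨F 0, fun z g hg hG => ?_⟩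
  rw [← key z g hg hG]
  exact hFd.apply_eq_apply_of_bounded (IsZLattice.isCompact_range_of_periodic L.lattice _
    hFd.continuous hper).isBounded z 0

lemma analyticAt_of_diff {G : ℂ → ℂ} (h : ∀ z ∉ L.lattice, DifferentiableAt ℂ G z) {z : ℂ}
    (hz : z ∉ L.lattice) : AnalyticAt ℂ G z :=
  DifferentiableOn.analyticAt (s := (L.lattice : Set ℂ)ᶜ)
    (fun x hx => (h x hx).differentiableWithinAt) (L.isClosed_lattice.isOpen_compl.mem_nhds hz)

lemma analyticAt_zeta {z : ℂ} (hz : z ∉ L.lattice) : AnalyticAt ℂ (zeta L) z :=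
  analyticAt_of_diff L (fun _ hx => (hasDerivAt_zeta L hx).differentiableAt) hz

/-- Liouville with a single class of poles -/
lemma liouville0 (G : ℂ → ℂ) (h0 : ∀ z ∉ L.lattice, AnalyticAt ℂ G z)
    (h2 : ∀ l ∈ L.lattice, ∀ z ∉ L.lattice, G (z + l) = G z)
    {g : ℂ → ℂ} (hg : AnalyticAt ℂ g 0) (hG : G =ᶠ[𝓝[≠] 0] g) :
    ∀ z ∉ L.lattice, G z = g 0 := by
  obtain ⟨c, hc⟩ := liouville L G (fun z => by
    by_cases hz : z ∈ L.lattice
    · refine ⟨fun x => g (x - z), AnalyticAt.comp_of_eq hg (by fun_prop) (by simp), ?_⟩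
      have := shift_ev z hG
      have h3 := shift_ev z (ev_notMem0 L 0)
      rw [zero_add] at this h3
      filter_upwards [this, h3] with x hx hx'
      rw [← hx, ← h2 z hz _ hx']; simp
    · exact ⟨G, h0 z hz, EventuallyEq.rfl⟩)
    (fun l hl z => by
      filter_upwards [ev_notMem0 L z] with x hx using h2 l hl x hx)
  intro z hz
  rw [hc z G (h0 z hz) EventuallyEq.rfl, hc 0 g hg hG]

lemma wp_add {l : ℂ} (hl : l ∈ L.lattice) (z : ℂ) : ℘[L] (z + l) = ℘[L] z :=
  L.weierstrassP_add_coe z ⟨l, hl⟩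

lemma three_term {a b : ℂ} (ha : a ∉ L.lattice) (hb : b ∉ L.lattice) (hab : a + b ∉ L.lattice) :
    (zeta L a + zeta L b - zeta L (a + b)) ^ 2 = ℘[L] a + ℘[L] b + ℘[L] (a + b) := by
  set G : ℂ → ℂ := fun a => (zeta L a + zeta L b - zeta L (a + b)) ^ 2 -
    (℘[L] a + ℘[L] b + ℘[L] (a + b)) with hGdef
  have hper : ∀ l ∈ L.lattice, ∀ x, x ∉ L.lattice → x + b ∉ L.lattice → G (x + l) = G x := by
    intro l hl x hx hxb
    obtain ⟨η, C, h1, -⟩ := quasi L hl
    simp only [hGdef]
    rw [show x + l + b = x + b + l by ring, h1 x hx, h1 _ hxb, wp_add L hl, wp_add L hl]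
    ring
  have han : ∀ x, x ∉ L.lattice → x + b ∉ L.lattice → AnalyticAt ℂ G x := by
    intro x hx hxb
    have h1 := analyticAt_zeta L hx
    have h2 : AnalyticAt ℂ (fun a => zeta L (a + b)) x :=
      AnalyticAt.comp_of_eq (analyticAt_zeta L hxb) (by fun_prop) rfl
    have h3 := L.analyticOnNhd_weierstrassP _ hx
    have h4 : AnalyticAt ℂ (fun a => ℘[L] (a + b)) x :=
      AnalyticAt.comp_of_eq (L.analyticOnNhd_weierstrassP _ hxb) (by fun_prop) rfl
    simp only [hGdef]
    fun_prop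
  -- expansion at zero
  obtain ⟨r, hr, hr0, hr1⟩ := exists_dslope (analyticAt_zeta0 L)
  have hzb : AnalyticAt ℂ (fun a => zeta L (a + b)) 0 :=
    AnalyticAt.comp_of_eq (analyticAt_zeta L hb) (by fun_prop) (by simp)
  obtain ⟨s, hs, hs0, hs1⟩ := exists_dslope hzb
  have hr0' : r 0 = 0 := by
    rw [hr0, (hasDerivAt_zeta0 L (x := 0) (by simp)).deriv]; simp
  have hs0' : s 0 = - ℘[L] b := by
    rw [hs0]
    have := (hasDerivAt_zeta L (z := 0 + b) (by simpa using hb)).comp_add_const 0 b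
    rw [this.deriv]; simp
  set g : ℂ → ℂ := fun a => 2 * (r a - s a) + a ^ 2 * (r a - s a) ^ 2 -
    (L.weierstrassPExcept 0 a + ℘[L] b + ℘[L] (a + b)) with hg
  have hga : AnalyticAt ℂ g 0 := by
    have h3 := L.analyticAt_weierstrassPExcept 0
    have h4 : AnalyticAt ℂ (fun a => ℘[L] (a + b)) 0 :=
      AnalyticAt.comp_of_eq (L.analyticOnNhd_weierstrassP _ hb) (by fun_prop) (by simp)
    simp only [hg]
    fun_prop
  have hg0 : g 0 = 0 := by simp [hg, hr0', hs0']; ring
  have hGg : G =ᶠ[𝓝[≠] 0] g := by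
    filter_upwards [self_mem_nhdsWithin] with x hx
    have hx0 : x ≠ 0 := hx
    simp only [hGdef, hg]
    have e1 := hs1 x
    simp only [zero_add] at e1
    rw [e1, wp_eq L x, show zeta L x = 1 / x + zeta0 L x from rfl, hr1 x, zeta0_zero]
    field_simp
    ring
  have hsymm : ∀ x, G (-b - x) = G x := by
    intro x
    simp only [hGdef]
    rw [show -b - x + b = -x by ring, show -b - x = -(x + b) by ring, zeta_neg, zeta_neg,
      weierstrassP_neg, weierstrassP_neg]
    ring
  have hevb : ∀ z, ∀ᶠ x in 𝓝[≠] z, x ∉ L.lattice ∧ x + b ∉ L.lattice := fun z =>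
    (ev_notMem0 L z).and (by simpa using ev_notMem L z (-b))
  obtain ⟨c, hc⟩ := liouville L G (fun z => by
    by_cases hz : z ∈ L.lattice
    · refine ⟨fun x => g (x - z), AnalyticAt.comp_of_eq hga (by fun_prop) (by simp), ?_⟩
      have := shift_ev z hGg
      have h3 := shift_ev z (hevb 0)
      rw [zero_add] at this h3
      filter_upwards [this, h3] with x hx hx'
      rw [← hx, ← hper z hz _ hx'.1 hx'.2]; simp
    by_cases hzb : z + b ∈ L.lattice
    · refine ⟨fun x => g (z - x), AnalyticAt.comp_of_eq hga (by fun_prop) (by simp), ?_⟩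
      have ht : Tendsto (fun x => z - x) (𝓝[≠] z) (𝓝[≠] 0) := by
        refine tendsto_nhdsWithin_iff.mpr ⟨?_, ?_⟩
        · have : Tendsto (fun x => z - x) (𝓝 z) (𝓝 (z - z)) :=
            (continuous_sub_left z).continuousAt
          rw [sub_self] at this
          exact this.mono_left nhdsWithin_le_nhds
        · filter_upwards [self_mem_nhdsWithin] with x hx e
          apply hx
          simp only [Set.mem_singleton_iff] at e ⊢
          linear_combination -e
      filter_upwards [ht.eventually hGg, hevb z] with x hx hx'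
      rw [← hx, ← hsymm (z - x), ← hper _ (neg_mem hzb) x hx'.1 hx'.2]
      congr 1; ring
    · exact ⟨G, han z hz hzb, EventuallyEq.rfl⟩)
    (fun l hl z => by
      filter_upwards [hevb z] with x hx using hper l hl x hx.1 hx.2)
  have := hc a G (han a ha hab) EventuallyEq.rfl
  rw [← hc 0 g hga hGg, hg0] at this
  exact sub_eq_zero.mp this

lemma eq_of_dense {E : Type*} [TopologicalSpace E] [T2Space E] {f g : ℂ → E} {z : ℂ}
    (hf : ContinuousAt f z) (hg : ContinuousAt g z) {S : Set ℂ} (hS : S.Countable)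
    (h : ∀ᶠ x in 𝓝 z, x ∉ S → f x = g x) : f z = g z := by
  have hd : Dense Sᶜ := hS.dense_compl ℂ
  haveI : (𝓝[Sᶜ] z).NeBot := mem_closure_iff_nhdsWithin_neBot.mp (hd z)
  refine tendsto_nhds_unique_of_eventuallyEq (l := 𝓝[Sᶜ] z)
    (hf.tendsto.mono_left nhdsWithin_le_nhds) (hg.tendsto.mono_left nhdsWithin_le_nhds) ?_
  filter_upwards [mem_nhdsWithin_of_mem_nhds h, self_mem_nhdsWithin] with x hx hx' using hx hx'

lemma not_linear_eta (κ : ℂ) : ¬ ∀ l ∈ L.lattice, ∀ z ∉ L.lattice,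
    zeta L (z + l) = zeta L z + κ * l := by
  intro h
  set s : ℂ → ℂ := fun z => sig L z * Complex.exp (-κ * z ^ 2 / 2) with hs
  have hsd : Differentiable ℂ s := by
    have := sig_diff L
    simp only [hs]; fun_prop
  have hw := L.ω₁_div_two_notMem_lattice
  have h1 : ∀ l ∈ L.lattice, ∃ C : ℂ, C ≠ 0 ∧ ∀ z, s (z + l) = C * s z := by
    intro l hl
    obtain ⟨η, C, e1, e2⟩ := quasi L hl
    have hη : η = κ * l := by
      have := e1 _ hw
      rw [h l hl _ hw] at this
      linear_combination -this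
    have hC : C ≠ 0 := by
      rintro rfl
      exact sig_ne L (add_notMem L hw hl) (by simpa using e2 _ hw)
    refine ⟨C * Complex.exp (-κ * l ^ 2 / 2), mul_ne_zero hC (Complex.exp_ne_zero _), fun z => ?_⟩
    refine eq_of_dense (f := fun z => s (z + l)) (g := fun z => _ * s z)
      (by have := hsd.continuous; fun_prop) (by have := hsd.continuous; fun_prop)
      (countable_lattice L) (.of_forall fun x hx => ?_)
    simp only [hs]
    rw [e2 x hx, hη, show -κ * (x + l) ^ 2 / 2 = -κ * l ^ 2 / 2 + (-κ * x ^ 2 / 2 + -(κ * l * x))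
      by ring, Complex.exp_add, Complex.exp_add, Complex.exp_neg]
    have := Complex.exp_ne_zero (κ * l * x)
    field_simp
  obtain ⟨C1, hC1, e1⟩ := h1 _ L.ω₁_mem_lattice
  obtain ⟨C2, hC2, e2⟩ := h1 _ L.ω₂_mem_lattice
  set φ : ℂ →ₗ[ℝ] ℝ := L.basis.constr ℝ ![Real.log ‖C1‖, Real.log ‖C2‖] with hφ
  have hφ1 : φ L.ω₁ = Real.log ‖C1‖ := by
    rw [← L.basis_zero, hφ, Module.Basis.constr_basis]; rfl
  have hφ2 : φ L.ω₂ = Real.log ‖C2‖ := by
    rw [← L.basis_one, hφ, Module.Basis.constr_basis]; rfl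
  set a : ℂ := φ 1 - φ Complex.I * Complex.I with ha
  have hre : ∀ z : ℂ, (a * z).re = φ z := by
    intro z
    have : z = z.re • (1 : ℂ) + z.im • Complex.I := by
      simp [Complex.re_add_im]
    conv_rhs => rw [this, map_add, map_smul, map_smul]
    simp [ha]; ring
  set t : ℂ → ℂ := fun z => s z * Complex.exp (-(a * z)) with ht
  have htd : Differentiable ℂ t := by simp only [ht]; fun_prop
  have hstep : ∀ (w C : ℂ), C ≠ 0 → φ w = Real.log ‖C‖ → (∀ z, s (z + w) = C * s z) →
      ∀ z, ‖t (z + w)‖ = ‖t z‖ := by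
    intro w C hC hw e z
    simp only [ht, e, norm_mul, Complex.norm_exp, Complex.neg_re, hre, map_add, hw, neg_add,
      Real.exp_add]
    rw [Real.exp_neg (Real.log _), Real.exp_log (by simpa using hC)]
    have : ‖C‖ ≠ 0 := by simpa using hC
    field_simp
  have hper : ∀ z w, w ∈ L.lattice → ‖t (z + w)‖ = ‖t z‖ := by
    intro z w hw
    induction hw using Submodule.span_induction generalizing z with
    | mem x hx =>
      rcases hx with rfl | rfl
      · exact hstep _ _ hC1 hφ1 e1 z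
      · exact hstep _ _ hC2 hφ2 e2 z
    | zero => simp
    | add x y _ _ hx hy => rw [← add_assoc, hy, hx]
    | smul n x _ hx =>
      have : Function.Periodic (fun z => ‖t z‖) x := hx
      exact this.zsmul n z
  have hb := (IsZLattice.isCompact_range_of_periodic L.lattice (fun z => ‖t z‖)
    htd.continuous.norm hper).isBounded
  have hb2 : Bornology.IsBounded (Set.range t) := by
    obtain ⟨R, hR⟩ := hb.exists_norm_le
    refine isBounded_iff_forall_norm_le.mpr ⟨R, ?_⟩
    rintro _ ⟨z, rfl⟩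
    simpa using hR _ ⟨z, rfl⟩
  have := htd.apply_eq_apply_of_bounded hb2 (L.ω₁ / 2) 0
  simp only [ht, hs, sig_zero, zero_mul] at this
  exact mul_ne_zero (mul_ne_zero (sig_ne L hw) (Complex.exp_ne_zero _))
    (Complex.exp_ne_zero _) this

lemma no_simple_pole (G : ℂ → ℂ) (h0 : ∀ z ∉ L.lattice, AnalyticAt ℂ G z)
    (h2 : ∀ l ∈ L.lattice, ∀ z ∉ L.lattice, G (z + l) = G z)
    {g : ℂ → ℂ} (hg : AnalyticAt ℂ g 0) (hG : ∀ᶠ z in 𝓝[≠] 0, G z = g z / z) : g 0 = 0 := by
  by_contra hr
  obtain ⟨h, hh, -, hh1⟩ := exists_dslope hg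
  set H : ℂ → ℂ := fun z => G z - g 0 * zeta L z with hH
  have hHa : ∀ z ∉ L.lattice, AnalyticAt ℂ H z := fun z hz => by
    have := h0 z hz
    have := analyticAt_zeta L hz
    simp only [hH]; fun_prop
  have hk : AnalyticAt ℂ (fun z => h z - g 0 * zeta0 L z) 0 := by
    have := analyticAt_zeta0 L
    fun_prop
  have hHk : H =ᶠ[𝓝[≠] 0] fun z => h z - g 0 * zeta0 L z := by
    filter_upwards [hG, self_mem_nhdsWithin] with z hz hz0
    have hz0' : z ≠ 0 := hz0
    simp only [hH, zeta]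
    rw [hz, hh1 z]
    field_simp
    ring
  have hc := liouville0 L (deriv H) (fun z hz => (hHa z hz).deriv) (fun l hl z hz => by
    obtain ⟨η, C, e1, -⟩ := quasi L hl
    rw [← deriv_comp_add_const H l z]
    have : (fun x => H (x + l)) =ᶠ[𝓝 z] fun x => H x - g 0 * η := by
      filter_upwards [L.isClosed_lattice.isOpen_compl.mem_nhds hz] with x hx
      simp only [hH]
      rw [h2 l hl x hx, e1 x hx]; ring
    rw [this.deriv_eq, deriv_sub_const]) hk.deriv hHk.nhdsNE_deriv
  set c := deriv (fun z => h z - g 0 * zeta0 L z) 0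
  obtain ⟨d, hd⟩ := const_of_deriv L (fun z => H z - c * z) (fun z hz => by
    have := (hHa z hz).differentiableAt.hasDerivAt.sub ((hasDerivAt_id z).const_mul c)
    exact hd_congr this (fun _ => rfl) (by rw [hc z hz]; ring))
  apply not_linear_eta L (-c / g 0)
  intro l hl z hz
  have e1 := hd z hz
  have e2 := hd _ (add_notMem L hz hl)
  simp only [hH] at e1 e2
  rw [h2 l hl z hz] at e2
  field_simp
  linear_combination e1 - e2

def wp (k : ℕ) : ℂ → ℂ := iteratedDeriv k ℘[L]

def eb (a : ℕ) (z : ℂ) : ℂ := if a = 0 then 1 else - wp L (a - 1) z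

@[simp] lemma eb_zero (z : ℂ) : eb L 0 z = 1 := by simp [eb]
@[simp] lemma eb_succ (k : ℕ) (z : ℂ) : eb L (k + 1) z = - wp L k z := by simp [eb]

lemma analyticAt_wp (k : ℕ) {z : ℂ} (hz : z ∉ L.lattice) : AnalyticAt ℂ (wp L k) z := by
  unfold wp
  rw [iteratedDeriv_eq_iterate]
  exact (L.analyticOnNhd_weierstrassP z hz).iterated_deriv k

lemma analyticAt_eb (a : ℕ) {z : ℂ} (hz : z ∉ L.lattice) : AnalyticAt ℂ (eb L a) z := by
  rcases a with _ | k
  · rw [show eb L 0 = fun _ => 1 from funext (eb_zero L)]; fun_prop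
  · rw [show eb L (k + 1) = fun z => - wp L k z from funext (eb_succ L k)]
    exact (analyticAt_wp L k hz).neg

lemma wp_per (k : ℕ) {l : ℂ} (hl : l ∈ L.lattice) (z : ℂ) : wp L k (z + l) = wp L k z := by
  have := congrFun (iteratedDeriv_comp_add_const k ℘[L] l) z
  simp only [wp_add L hl] at this
  exact this.symm

lemma eb_per (a : ℕ) {l : ℂ} (hl : l ∈ L.lattice) (z : ℂ) : eb L a (z + l) = eb L a z := by
  simp [eb, wp_per L _ hl]

lemma wp_pole (k : ℕ) : ∃ g, AnalyticAt ℂ g 0 ∧ g 0 ≠ 0 ∧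
    ∀ᶠ z in 𝓝[≠] 0, wp L k z = g z / z ^ (k + 2) := by
  induction k with
  | zero =>
    refine ⟨fun z => 1 + z ^ 2 * L.weierstrassPExcept 0 z, ?_, by simp, ?_⟩
    · have := L.analyticAt_weierstrassPExcept 0
      fun_prop
    · filter_upwards [self_mem_nhdsWithin] with z hz
      have hz0 : z ≠ 0 := hz
      simp only [wp, iteratedDeriv_zero]
      rw [wp_eq]; field_simp; ring
  | succ k ih =>
    obtain ⟨g, hg, hg0, hG⟩ := ih
    refine ⟨fun z => z * deriv g z - (k + 2) * g z, ?_, ?_, ?_⟩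
    · have := hg.deriv
      fun_prop
    · have : ((k : ℂ) + 2) ≠ 0 := by exact_mod_cast (by omega : k + 2 ≠ 0)
      simpa using ⟨this, hg0⟩
    · have h1 : wp L k =ᶠ[𝓝[≠] 0] fun z => g z / z ^ (k + 2) := hG
      filter_upwards [h1.nhdsNE_deriv, self_mem_nhdsWithin,
        mem_nhdsWithin_of_mem_nhds hg.eventually_analyticAt] with z hz hz0 hgz
      have hz0' : z ≠ 0 := hz0
      have : wp L (k + 1) = deriv (wp L k) := by simp [wp, iteratedDeriv_succ]
      rw [this, hz]
      have h2 := (hgz.differentiableAt.hasDerivAt.div (hasDerivAt_pow (k + 2) z)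
        (pow_ne_zero _ hz0')).deriv
      refine Eq.trans h2 ?_
      simp only [Nat.add_one_sub_one, show k + 2 - 1 = k + 1 by omega]
      push_cast
      field_simp
      ring

theorem Vchar (n : ℕ) : ∀ G : ℂ → ℂ, (∀ z ∉ L.lattice, AnalyticAt ℂ G z) →
    (∀ l ∈ L.lattice, ∀ z ∉ L.lattice, G (z + l) = G z) →
    (∃ g, AnalyticAt ℂ g 0 ∧ ∀ᶠ z in 𝓝[≠] 0, G z = g z / z ^ (n + 1)) →
    ∃ c : ℕ → ℂ, ∀ z ∉ L.lattice, G z = ∑ a ∈ Finset.range (n + 1), c a * eb L a z := by
  induction n with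
  | zero =>
    rintro G h0 h2 ⟨g, hg, hG⟩
    simp only [zero_add, pow_one] at hG
    have hg0 := no_simple_pole L G h0 h2 hg hG
    obtain ⟨h, hh, -, hh1⟩ := exists_dslope hg
    refine ⟨fun _ => h 0, fun z hz => ?_⟩
    rw [liouville0 L G h0 h2 hh ?_ z hz]
    · simp
    · filter_upwards [hG, self_mem_nhdsWithin] with z hz hz0
      have hz0' : z ≠ 0 := hz0
      rw [hz, hh1 z, hg0]; field_simp; ring
  | succ n ih =>
    rintro G h0 h2 ⟨g, hg, hG⟩
    obtain ⟨q, hq, hq0, hQ⟩ := wp_pole L n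
    set c := g 0 / q 0 with hc
    have hk : AnalyticAt ℂ (fun z => g z - c * q z) 0 := by fun_prop
    obtain ⟨h, hh, -, hh1⟩ := exists_dslope hk
    obtain ⟨d, hd⟩ := ih (fun z => G z - c * wp L n z)
      (fun z hz => by
        have := h0 z hz
        have := analyticAt_wp L n hz
        fun_prop)
      (fun l hl z hz => by simp only [h2 l hl z hz, wp_per L n hl])
      ⟨h, hh, by
        filter_upwards [hG, hQ, self_mem_nhdsWithin] with z hz hz' hz0
        have hz0' : z ≠ 0 := hz0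
        have e := hh1 z
        have e0 : g 0 - c * q 0 = 0 := by rw [hc]; field_simp; ring
        simp only [e0] at e
        rw [hz, hz']
        field_simp
        linear_combination z ^ (n + 1) * e⟩
    refine ⟨fun a => if a = n + 1 then -c else d a, fun z hz => ?_⟩
    rw [Finset.sum_range_succ, Finset.sum_congr rfl (g := fun a => d a * eb L a z)
      (fun a ha => by
        have h3 : a ≠ n + 1 := by have := Finset.mem_range.mp ha; omega
        simp only [if_neg h3]), ← hd z hz]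
    simp

lemma eb_tendsto {a m : ℕ} (h : a + 1 < m) :
    Tendsto (fun z => eb L a z * z ^ m) (𝓝[≠] 0) (𝓝 0) := by
  obtain ⟨j, rfl⟩ : ∃ j, m = a + 1 + (j + 1) := ⟨m - (a + 2), by omega⟩
  have hp : ∃ g, AnalyticAt ℂ g 0 ∧ ∀ᶠ z in 𝓝[≠] 0, eb L a z = g z / z ^ (a + 1) := by
    rcases a with _ | k
    · refine ⟨fun z => z, by fun_prop, ?_⟩
      filter_upwards [self_mem_nhdsWithin] with z hz
      have hz0 : z ≠ 0 := hz
      simp [hz0]
    · obtain ⟨g, hg, -, hG⟩ := wp_pole L k
      refine ⟨fun z => - g z, hg.neg, ?_⟩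
      filter_upwards [hG] with z hz
      rw [eb_succ, hz]; ring
  obtain ⟨g, hg, hG⟩ := hp
  have h1 : Tendsto (fun z => g z * z ^ (j + 1)) (𝓝 0) (𝓝 (g 0 * 0 ^ (j + 1))) :=
    (hg.continuousAt.mul (by fun_prop)).tendsto
  simp only [ne_eq, Nat.add_eq_zero_iff, one_ne_zero, and_false, not_false_eq_true, zero_pow,
    mul_zero] at h1
  refine (h1.mono_left nhdsWithin_le_nhds).congr' ?_
  filter_upwards [hG, self_mem_nhdsWithin] with z hz hz0
  have hz0' : z ≠ 0 := hz0
  rw [hz]; field_simp; ring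

lemma indep0 (n : ℕ) (c : ℕ → ℂ)
    (h : ∀ z ∉ L.lattice, ∑ a ∈ Finset.range n, c a * eb L a z = 0) : ∀ a < n, c a = 0 := by
  induction n with
  | zero => simp
  | succ n ih =>
    have htop : c n = 0 := by
      rcases n with _ | k
      · simpa using h _ L.ω₁_div_two_notMem_lattice
      · obtain ⟨g, hg, hg0, hG⟩ := wp_pole L k
        have h1 : Tendsto (fun z => ∑ a ∈ Finset.range (k + 1), c a * (eb L a z * z ^ (k + 2)))
            (𝓝[≠] 0) (𝓝 (∑ a ∈ Finset.range (k + 1), c a * 0)) :=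
          tendsto_finsetSum _ fun a ha =>
            (eb_tendsto L (by have := Finset.mem_range.mp ha; omega)).const_mul _
        have h2 : Tendsto (fun z => c (k + 1) * g z) (𝓝[≠] 0) (𝓝 (c (k + 1) * g 0)) :=
          (hg.continuousAt.tendsto.mono_left nhdsWithin_le_nhds).const_mul _
        have h3 := tendsto_nhds_unique_of_eventuallyEq h1 h2 (by
          filter_upwards [hG, ev_notMem0 L 0, self_mem_nhdsWithin] with z hz hzl hz0
          have hz0' : z ≠ 0 := hz0
          have e := h z hzl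
          rw [Finset.sum_range_succ, eb_succ, hz] at e
          simp only [← mul_assoc, ← Finset.sum_mul]
          rw [eq_neg_of_add_eq_zero_left e]
          field_simp)
        simp only [mul_zero, Finset.sum_const_zero] at h3
        exact (mul_eq_zero.mp h3.symm).resolve_right hg0
    intro a ha
    rcases Nat.lt_succ_iff_lt_or_eq.mp ha with ha | rfl
    · refine ih (fun z hz => ?_) a ha
      have := h z hz
      rwa [Finset.sum_range_succ, htop, zero_mul, add_zero] at this
    · exact htop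

lemma indep (n : ℕ) {S : Set ℂ} (hS : S.Countable) (c : Fin n → ℂ)
    (h : ∀ z ∉ L.lattice, z ∉ S → ∑ a, c a * eb L a z = 0) : ∀ a, c a = 0 := by
  have h1 : ∀ z ∉ L.lattice, ∑ a, c a * eb L a z = 0 := by
    intro z hz
    refine eq_of_dense (f := fun z => ∑ a, c a * eb L a z) (g := fun _ => 0) ?_
      continuousAt_const hS ?_
    · exact tendsto_finsetSum _ fun a _ =>
        (analyticAt_eb L a hz).continuousAt.tendsto.const_mul _
    · filter_upwards [L.isClosed_lattice.isOpen_compl.mem_nhds hz] with x hx using h x hx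
  intro a
  have := indep0 L n (fun i => if hi : i < n then c ⟨i, hi⟩ else 0) (fun z hz => by
    rw [← h1 z hz, Finset.sum_range]
    simp) a a.2
  simpa using this

lemma dual (n : ℕ) {S : Set ℂ} (hS : S.Countable) :
    ∃ (s : Finset ℂ) (α : Fin n → ℂ → ℂ), (∀ z ∈ s, z ∉ L.lattice ∧ z ∉ S) ∧
      ∀ k a : Fin n, ∑ z ∈ s, α k z * eb L a z = if k = a then 1 else 0 := by
  classical
  set v : ℂ → (Fin n → ℂ) := fun z a => eb L a z with hv
  set X : Set ℂ := {z | z ∉ L.lattice ∧ z ∉ S} with hX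
  have htop : Submodule.span ℂ (v '' X) = ⊤ := by
    by_contra hne
    obtain ⟨f, hf0, hf⟩ := Submodule.exists_le_ker_of_lt_top _ (lt_top_iff_ne_top.mpr hne)
    apply hf0
    have := indep L n hS (fun a => f (Pi.single a 1)) (fun z hz hzS => by
      have h1 : f (v z) = 0 := hf (Submodule.subset_span ⟨z, ⟨hz, hzS⟩, rfl⟩)
      rw [← h1]
      conv_rhs => rw [pi_eq_sum_univ' (v z), map_sum]
      refine Finset.sum_congr rfl fun a _ => ?_
      rw [map_smul, smul_eq_mul, mul_comm])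
    ext a
    simpa using this a
  have h2 : ∀ k : Fin n, ∃ l ∈ Finsupp.supported ℂ ℂ X,
      Finsupp.linearCombination ℂ v l = Pi.single k 1 := fun k =>
    (Finsupp.mem_span_image_iff_linearCombination ℂ).mp (by rw [htop]; trivial)
  choose l hl1 hl2 using h2
  refine ⟨Finset.univ.biUnion fun k => (l k).support, fun k z => l k z, fun z hz => ?_,
    fun k a => ?_⟩
  · obtain ⟨k, -, hk⟩ := Finset.mem_biUnion.mp hz
    exact (Finsupp.mem_supported ℂ _).mp (hl1 k) hk
  · have h3 := congrFun (hl2 k) a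
    rw [Finsupp.linearCombination_apply, Finsupp.sum_of_support_subset _
      (s := Finset.univ.biUnion fun k => (l k).support)
      (Finset.subset_biUnion_of_mem (fun k => (l k).support) (Finset.mem_univ k)) _
      (by simp)] at h3
    simp only [Finset.sum_apply, Pi.smul_apply, smul_eq_mul, hv] at h3
    rw [h3, Pi.single_apply]
    simp [eq_comm]

end Pool.Agent.H.MP_88847a_mp
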