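import Mathlib

open Filter Topology PeriodPair

noncomputable section

namespace Pool.Agent.H.MP_88847a_mp

variable {N : ℕ}

/-- partial derivative in the `i`-th coordinate -/
def pd (i : Fin N) (f : (Fin N → ℂ) → ℂ) (y : Fin N → ℂ) : ℂ := fderiv ℂ f y (Pi.single i 1)

/-- `y_1, …, y_N, y_{N+1} := -(y_1 + ⋯ + y_N)` -/
def Yx (y : Fin N → ℂ) : Fin (N + 1) → ℂ := Fin.snoc y (-∑ i, y i)

/-- row `i` is `(℘(y_i), ℘'(y_i), …, ℘^{(N-1)}(y_i))` -/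
def Mat (L : PeriodPair) (y : Fin N → ℂ) : Matrix (Fin N) (Fin N) ℂ :=
  Matrix.of fun i k => iteratedDeriv k ℘[L] (y i)

/-- the new variables: the solution `u` of `Mat y u = (1, …, 1)` -/
def uu (L : PeriodPair) (y : Fin N → ℂ) : Fin N → ℂ := (Mat L y)⁻¹.mulVec fun _ => 1

/-- the Jacobian determinant of `y ↦ u` -/
def Jac (L : PeriodPair) (y : Fin N → ℂ) : ℂ :=
  (Matrix.of fun k i => pd i (fun y' => uu L y' k) y).det

/-- the reduced elliptic Calogero–Moser operator `H_N` -/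
def Hop (L : PeriodPair) (β : ℂ) (f : (Fin N → ℂ) → ℂ) (y : Fin N → ℂ) : ℂ :=
  -((N : ℂ) / (N + 1)) * ∑ i, pd i (pd i f) y
    + 1 / (N + 1) * ∑ i, ∑ j with j ≠ i, pd i (pd j f) y
    + β * (β - 1) * (∑ i, ∑ j with j ≠ i, ℘[L] (Yx y i - Yx y j)) * f y

/-- points where `Mat`, `u` and the potential are defined -/
def Adm (L : PeriodPair) (y : Fin N → ℂ) : Prop :=
  (∀ i, y i ∉ L.lattice) ∧ (∀ i j, i ≠ j → Yx y i - Yx y j ∉ L.lattice) ∧ (Mat L y).det ≠ 0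

/-- `P` is `D^{-β/2} H_N D^{β/2}` written in the variables `u`: at every admissible point, for every
local branch `ℓ` of `log D` and every test function `φ` of `u`,
`H_N (D^{β/2} φ(u)) = D^{β/2} (P φ)(u)`. -/
def Conj (L : PeriodPair) (β : ℂ) (D : (Fin N → ℂ) → ℂ)
    (P : ((Fin N → ℂ) → ℂ) → (Fin N → ℂ) → ℂ) : Prop :=
  ∀ y, Adm L y → ∀ ℓ : (Fin N → ℂ) → ℂ, AnalyticAt ℂ ℓ y →
    (∀ᶠ y' in 𝓝 y, Complex.exp (ℓ y') = D y') →
    ∀ φ : (Fin N → ℂ) → ℂ, AnalyticAt ℂ φ (uu L y) →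
      Hop L β (fun y' => Complex.exp (β / 2 * ℓ y') * φ (uu L y')) y =
        Complex.exp (β / 2 * ℓ y) * P φ (uu L y)

/-- second-order differential operator with polynomial coefficients -/
def polyOp (a : Fin N → Fin N → MvPolynomial (Fin N) ℂ) (b : Fin N → MvPolynomial (Fin N) ℂ)
    (c : MvPolynomial (Fin N) ℂ) (φ : (Fin N → ℂ) → ℂ) (u : Fin N → ℂ) : ℂ :=
  ∑ k, ∑ l, MvPolynomial.eval u (a k l) * pd k (pd l φ) u
    + ∑ k, MvPolynomial.eval u (b k) * pd k φ u + MvPolynomial.eval u c * φ u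

/-- the operators `E_{ab}`, `0 ≤ a, b ≤ N`, with `E_{00} = -∑ u_j ∂_j + lam`:
`E_{ab} = u_a ∂_b` with `u_0 = 1` and `∂_0 = E_{00}` -/
def Eop (lam : ℂ) (a b : Fin (N + 1)) (φ : (Fin N → ℂ) → ℂ) (u : Fin N → ℂ) : ℂ :=
  (Fin.cons 1 u : Fin (N + 1) → ℂ) a *
    (Fin.cons (-∑ j, u j * pd j φ u + lam * φ u) fun j => pd j φ u : Fin (N + 1) → ℂ) b

/-- linear combination of the anti-commutators `{E_{ab}, E_{kl}}` with constant coefficients -/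
def antiOp (lam : ℂ) (c : Fin (N + 1) → Fin (N + 1) → Fin (N + 1) → Fin (N + 1) → ℂ)
    (φ : (Fin N → ℂ) → ℂ) (u : Fin N → ℂ) : ℂ :=
  ∑ a, ∑ b, ∑ k, ∑ l, c a b k l *
    (Eop lam a b (Eop lam k l φ) u + Eop lam k l (Eop lam a b φ) u)

end Pool.Agent.H.MP_88847a_mp
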