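import Pool.Agent.H.MP_88847a_mp.B
import Pool.Agent.H.MP_88847a_mp.Defs

open Filter Topology PeriodPair Set

noncomputable section

namespace Pool.Agent.H.MP_88847a_mp

variable {N : ℕ}

def dd (v : Fin N → ℂ) (f : (Fin N → ℂ) → ℂ) (y : Fin N → ℂ) : ℂ := fderiv ℂ f y v

def HD (f : (Fin N → ℂ) → ℂ) (y v : Fin N → ℂ) (a : ℂ) : Prop :=
  DifferentiableAt ℂ f y ∧ dd v f y = a

section HD
variable {f g : (Fin N → ℂ) → ℂ} {y v : Fin N → ℂ} {a b : ℂ}

lemma HD.of_diff (h : DifferentiableAt ℂ f y) (v : Fin N → ℂ) : HD f y v (dd v f y) := ⟨h, rfl⟩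

lemma HD.const (c : ℂ) : HD (fun _ => c) y v 0 := ⟨by fun_prop, by simp [dd]⟩

lemma HD.add (hf : HD f y v a) (hg : HD g y v b) : HD (fun y => f y + g y) y v (a + b) :=
  ⟨hf.1.add hg.1, by rw [← hf.2, ← hg.2, dd, fderiv_fun_add hf.1 hg.1]; rfl⟩

lemma HD.neg (hf : HD f y v a) : HD (fun y => - f y) y v (-a) :=
  ⟨hf.1.neg, by rw [← hf.2, dd, fderiv_fun_neg]; rfl⟩

lemma HD.sub (hf : HD f y v a) (hg : HD g y v b) : HD (fun y => f y - g y) y v (a - b) :=
  ⟨hf.1.sub hg.1, by rw [← hf.2, ← hg.2, dd, fderiv_fun_sub hf.1 hg.1]; rfl⟩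

lemma HD.mul (hf : HD f y v a) (hg : HD g y v b) :
    HD (fun y => f y * g y) y v (a * g y + f y * b) :=
  ⟨hf.1.mul hg.1, by
    rw [← hf.2, ← hg.2, dd, fderiv_fun_mul hf.1 hg.1]; simp [dd]; ring⟩

lemma HD.val (hf : HD f y v a) (h : b = a) : HD f y v b := h ▸ hf

lemma HD.congr (hf : HD f y v a) (h : g =ᶠ[𝓝 y] f) : HD g y v a :=
  ⟨hf.1.congr_of_eventuallyEq h, by rw [← hf.2, dd, dd, h.fderiv_eq]⟩

lemma HD.const_mul (c : ℂ) (hf : HD f y v a) : HD (fun y => c * f y) y v (c * a) :=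
  ((HD.const c).mul hf).val (by ring)

lemma HD.mul_const (hf : HD f y v a) (c : ℂ) : HD (fun y => f y * c) y v (a * c) :=
  (hf.mul (HD.const c)).val (by ring)

lemma HD.sum {ι : Type*} (s : Finset ι) {F : ι → (Fin N → ℂ) → ℂ} {A : ι → ℂ}
    (h : ∀ i ∈ s, HD (F i) y v (A i)) : HD (fun y => ∑ i ∈ s, F i y) y v (∑ i ∈ s, A i) := by
  classical
  induction s using Finset.induction_on with
  | empty => simpa using HD.const 0
  | insert i s hi ih =>
    simp only [Finset.sum_insert hi]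
    exact (h i (by simp)).add (ih fun j hj => h j (by simp [hj]))

lemma HD.prod {ι : Type*} (s : Finset ι) {F : ι → (Fin N → ℂ) → ℂ} {A : ι → ℂ}
    (h : ∀ i ∈ s, HD (F i) y v (A i * F i y)) :
    HD (fun y => ∏ i ∈ s, F i y) y v ((∑ i ∈ s, A i) * ∏ i ∈ s, F i y) := by
  classical
  induction s using Finset.induction_on with
  | empty => simpa using HD.const 1
  | insert i s hi ih =>
    simp only [Finset.sum_insert hi, Finset.prod_insert hi]
    exact ((h i (by simp)).mul (ih fun j hj => h j (by simp [hj]))).val (by ring)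

lemma HD.comp1 {G : ℂ → ℂ} {G' : ℂ} (hf : HD f y v a) (hG : HasDerivAt G G' (f y)) :
    HD (fun y => G (f y)) y v (G' * a) := by
  have := hG.comp_hasFDerivAt y hf.1.hasFDerivAt
  refine ⟨this.differentiableAt, ?_⟩
  have h2 : fderiv ℂ (fun y => G (f y)) y = _ := this.fderiv
  rw [dd, h2, ← hf.2]; simp [dd]

lemma HD.coord (i : Fin N) : HD (fun y => y i) y v (v i) :=
  ⟨by fun_prop, by
    have : (fun y : Fin N → ℂ => y i) = ContinuousLinearMap.proj (R := ℂ) (φ := fun _ => ℂ) i := rfl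
    rw [dd, this, ContinuousLinearMap.fderiv]; rfl⟩

lemma dd_eq_sum (v : Fin N → ℂ) (f : (Fin N → ℂ) → ℂ) (y : Fin N → ℂ) :
    dd v f y = ∑ j, v j * pd j f y := by
  conv_lhs => rw [dd, pi_eq_sum_univ' v, map_sum]
  simp [pd]

lemma pd_eq (i : Fin N) (f : (Fin N → ℂ) → ℂ) : pd i f = dd (Pi.single i 1) f := rfl

lemma HD.compv {φ : (Fin N → ℂ) → ℂ} {u : (Fin N → ℂ) → Fin N → ℂ} {A : Fin N → ℂ}
    (hφ : DifferentiableAt ℂ φ (u y)) (hu : ∀ k, HD (fun y => u y k) y v (A k)) :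
    HD (fun y => φ (u y)) y v (∑ k, A k * pd k φ (u y)) := by
  have hu' : DifferentiableAt ℂ u y := differentiableAt_pi.mpr fun k => (hu k).1
  refine ⟨hφ.comp y hu', ?_⟩
  rw [dd, fderiv_fun_comp y hφ hu']
  simp only [ContinuousLinearMap.comp_apply]
  have : fderiv ℂ u y v = A := by
    ext k
    rw [← (hu k).2, dd, fderiv_apply hu']
    rfl
  rw [this]
  exact dd_eq_sum A φ (u y)

lemma analyticAt_dd (h : AnalyticAt ℂ f y) (v : Fin N → ℂ) : AnalyticAt ℂ (dd v f) y :=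
  (ContinuousLinearMap.apply ℂ ℂ v).analyticAt _ |>.comp h.fderiv

lemma HD.Yx (m : Fin (N + 1)) : HD (fun y => Yx y m) y v (Yx v m) := by
  refine Fin.lastCases ?_ (fun i => ?_) m
  · simp only [MP_88847a_mp.Yx, Fin.snoc_last]
    exact (HD.sum _ fun i _ => HD.coord i).neg
  · simp only [MP_88847a_mp.Yx, Fin.snoc_castSucc]
    exact HD.coord i

end HD

lemma analyticAt_Yx (m : Fin (N + 1)) (y : Fin N → ℂ) : AnalyticAt ℂ (fun y => Yx y m) y := by
  refine Fin.lastCases ?_ (fun i => ?_) m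
  · simp only [Yx, Fin.snoc_last]
    exact (Finset.analyticAt_fun_sum _ fun i _ =>
      (ContinuousLinearMap.proj (R := ℂ) (φ := fun _ => ℂ) i).analyticAt y).neg
  · simp only [Yx, Fin.snoc_castSucc]
    exact (ContinuousLinearMap.proj (R := ℂ) (φ := fun _ => ℂ) i).analyticAt y

lemma sum_Yx (y : Fin N → ℂ) : ∑ m, Yx y m = 0 := by
  simp [Fin.sum_univ_castSucc, Yx]

def vv (i : Fin (N + 1)) : Fin N → ℂ :=
  fun j => (if j.castSucc = i then 1 else 0) - 1 / ((N : ℂ) + 1)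

lemma nn_ne : ((N : ℂ) + 1) ≠ 0 := by exact_mod_cast Nat.succ_ne_zero N

lemma Yx_vv (i m : Fin (N + 1)) : Yx (vv i) m = (if m = i then 1 else 0) - 1 / ((N : ℂ) + 1) := by
  have hn := nn_ne (N := N)
  refine Fin.lastCases ?_ (fun j => ?_) m
  · simp only [Yx, Fin.snoc_last, vv, Finset.sum_sub_distrib]
    refine Fin.lastCases ?_ (fun k => ?_) i
    · simp [Fin.castSucc_ne_last]; field_simp; ring
    · simp [(Fin.castSucc_ne_last k).symm]; field_simp; ring
  · simp [Yx, vv]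

/-! ### algebra -/

section alg
variable {ι : Type*} [Fintype ι] [DecidableEq ι]

lemma sum_t (n : ℂ) (x : ι → ℂ) (i : ι) :
    ∑ m, x m * -((if m = i then 1 else 0) - 1 / n) = -x i + (∑ m, x m) / n := by
  simp [mul_sub, Finset.sum_sub_distrib, div_eq_mul_inv, ← Finset.sum_mul]; ring

lemma sum_t2 (n : ℂ) (hn : (Fintype.card ι : ℂ) = n) (hn0 : n ≠ 0) (p : ι → ℂ) :
    ∑ i, ∑ m, p m * ((if m = i then 1 else 0) - 1 / n) ^ 2 = (1 - 1 / n) * ∑ m, p m := by
  rw [Finset.sum_comm, Finset.mul_sum]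
  refine Finset.sum_congr rfl fun m _ => ?_
  rw [← Finset.mul_sum]
  have : ∀ i, ((if m = i then (1 : ℂ) else 0) - 1 / n) ^ 2 =
      (if m = i then 1 - 2 / n else 0) + 1 / n ^ 2 := by
    intro i; split_ifs <;> ring
  simp only [this, Finset.sum_add_distrib, Finset.sum_ite_eq, Finset.mem_univ, if_true,
    Finset.sum_const, Finset.card_univ, nsmul_eq_mul, hn]
  field_simp; ring

omit [DecidableEq ι] in
lemma sum_aa (n : ℂ) (hn : (Fintype.card ι : ℂ) = n) (hn0 : n ≠ 0) (x x' : ι → ℂ) :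
    ∑ i, (-x i + (∑ m, x m) / n) * (-x' i + (∑ m, x' m) / n) =
      ∑ i, x i * x' i - (∑ m, x m) * (∑ m, x' m) / n := by
  simp only [add_mul, mul_add, Finset.sum_add_distrib, neg_mul, mul_neg, neg_neg,
    Finset.sum_neg_distrib, ← Finset.sum_mul, ← Finset.mul_sum, Finset.sum_const,
    Finset.card_univ, nsmul_eq_mul, hn]
  field_simp; ring

omit [DecidableEq ι] in
lemma alg2 (n : ℂ) (hn : (Fintype.card ι : ℂ) = n) (x x' p p' : ι → ℂ) (q r : ℂ)
    (h : ∀ i, (x' i + q - x i) ^ 2 = p' i + r + p i) :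
    ∑ i, x i * x i + ∑ i, x' i * x' i - 2 * ∑ i, x i * x' i - 2 * q * (∑ i, x i - ∑ i, x' i)
      + n * q ^ 2 = ∑ i, p i + ∑ i, p' i + n * r := by
  have := Finset.sum_congr (s₁ := Finset.univ) rfl fun i _ => h i
  have e : ∀ i, (x' i + q - x i) ^ 2 =
      x i * x i + x' i * x' i - 2 * (x i * x' i) - 2 * q * (x i - x' i) + q ^ 2 := fun i => by ring
  simp only [e, Finset.sum_add_distrib, Finset.sum_sub_distrib, ← Finset.mul_sum,
    Finset.sum_const, Finset.card_univ, nsmul_eq_mul, hn] at this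
  linear_combination this

omit [DecidableEq ι] in
lemma sum_b (z : ι → ι → ℂ) (hz : ∀ i j, z j i = - z i j) : ∑ i, ∑ j, z i j = 0 := by
  have : ∑ i, ∑ j, z i j = - ∑ i, ∑ j, z i j := by
    conv_lhs => rw [Finset.sum_comm]
    simp only [← Finset.sum_neg_distrib]
    exact Finset.sum_congr rfl fun i _ => Finset.sum_congr rfl fun j _ => hz _ _
  linear_combination this / 2

lemma alg1 (n : ℂ) (hn : (Fintype.card ι : ℂ) = n) (x p : ι → ℂ) (z w : ι → ι → ℂ)
    (hz : ∀ i j, z j i = - z i j) (hw : ∀ i, w i i = 0)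
    (h : ∀ i j, i ≠ j → (x i + z i j - x j) ^ 2 = p i + w i j + p j) :
    2 * n * ∑ i, x i * x i - 2 * (∑ i, x i) ^ 2 + ∑ i, ∑ j, z i j ^ 2
      + 4 * ∑ i, (∑ j, z i j) * x i = (2 * n - 2) * ∑ i, p i + ∑ i, ∑ j, w i j := by
  have h' : ∀ i j, x i ^ 2 + x j ^ 2 - 2 * (x i * x j) + z i j ^ 2 + 2 * (z i j * x i)
      + 2 * (z j i * x j) = p i + p j + w i j - (if i = j then 2 * p i else 0) := by
    intro i j
    split_ifs with e
    · subst e
      have : z i i = 0 := by linear_combination hz i i / 2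
      rw [this, hw]; ring
    · rw [hz i j]; linear_combination h i j e
  have := Finset.sum_congr (s₁ := Finset.univ) rfl fun i _ =>
    Finset.sum_congr (s₁ := Finset.univ) rfl fun j _ => h' i j
  have e1 : ∑ i, ∑ j, z j i * x j = ∑ i, (∑ j, z i j) * x i := by
    rw [Finset.sum_comm]; simp only [Finset.sum_mul]
  simp only [Finset.sum_add_distrib, Finset.sum_sub_distrib, ← Finset.mul_sum,
    Finset.sum_const, Finset.card_univ, nsmul_eq_mul, hn, Finset.sum_ite_eq, Finset.mem_univ,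
    if_true, e1] at this
  simp only [← Finset.sum_mul] at this
  simp only [← sq]
  linear_combination this

lemma alg0 (n : ℂ) (hn : (Fintype.card ι : ℂ) = n) (z w : ι → ι → ℂ)
    (hz : ∀ i j, z j i = - z i j) (hw : ∀ i, w i i = 0) (hw2 : ∀ i j, w j i = w i j)
    (h : ∀ i j k, i ≠ j → j ≠ k → i ≠ k → (z i j + z j k - z i k) ^ 2 = w i j + w j k + w i k) :
    2 * ∑ i, (∑ j, z i j) ^ 2 = n * (∑ i, ∑ j, z i j ^ 2 - ∑ i, ∑ j, w i j)
      + 2 * ∑ i, ∑ j, w i j := by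
  have hzz : ∀ i, z i i = 0 := fun i => by linear_combination hz i i / 2
  have h' : ∀ i j k, z i j ^ 2 + z j k ^ 2 + z i k ^ 2 - 2 * (z j i * z j k)
      - 2 * (z i j * z i k) - 2 * (z k j * z k i) = w i j + w j k + w i k
      - (if i = j then 2 * w i k else 0) - (if j = k then 2 * w i j else 0)
      - (if k = i then 2 * w i j else 0) := by
    intro i j k
    by_cases e1 : i = j
    · subst e1
      by_cases e2 : i = k
      · subst e2; simp [hzz, hw]
      · rw [if_pos rfl, if_neg e2, if_neg (Ne.symm e2), hzz, hw, hz i k]; ring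
    · by_cases e2 : j = k
      · subst e2
        rw [if_neg e1, if_pos rfl, if_neg (Ne.symm e1), hzz, hw]; ring
      · by_cases e3 : k = i
        · subst e3
          rw [if_neg e1, if_neg e2, if_pos rfl, hzz, hw, hz k j, hw2 k j]; ring
        · rw [if_neg e1, if_neg e2, if_neg e3, hz i j, hz j k, hz i k]
          linear_combination h i j k e1 e2 (Ne.symm e3)
  have := Finset.sum_congr (s₁ := Finset.univ) rfl fun i _ =>
    Finset.sum_congr (s₁ := Finset.univ) rfl fun j _ =>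
      Finset.sum_congr (s₁ := Finset.univ) rfl fun k _ => h' i j k
  have e1 : ∑ i, ∑ j, ∑ k, z j i * z j k = ∑ i, (∑ j, z i j) ^ 2 := by
    rw [Finset.sum_comm]
    simp only [← Finset.mul_sum, ← Finset.sum_mul, sq]
  have e2 : ∑ i, ∑ j, ∑ k, z i j * z i k = ∑ i, (∑ j, z i j) ^ 2 := by
    simp only [← Finset.mul_sum, ← Finset.sum_mul, sq]
  have e3 : ∑ i, ∑ j, ∑ k, z k j * z k i = ∑ i, (∑ j, z i j) ^ 2 := by
    rw [Finset.sum_congr rfl fun i _ => Finset.sum_comm, Finset.sum_comm]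
    simp only [← Finset.mul_sum, ← Finset.sum_mul, sq]
  have e4 : ∑ i, ∑ j, ∑ k, (if i = j then 2 * w i k else 0) = 2 * ∑ i, ∑ j, w i j := by
    rw [Finset.sum_congr rfl fun i _ => Finset.sum_comm]
    simp [Finset.mul_sum]
  have e5 : ∀ F : ι → ι → ι → ℂ, ∑ i, ∑ j, ∑ k, 2 * F i j k = 2 * ∑ i, ∑ j, ∑ k, F i j k := by
    intro F; simp only [Finset.mul_sum]
  simp only [Finset.sum_add_distrib, Finset.sum_sub_distrib, e4, e5, e1, e2, e3] at this
  simp only [← Finset.mul_sum,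
    Finset.sum_const, Finset.card_univ, nsmul_eq_mul, hn, Finset.sum_ite_eq, Finset.sum_ite_eq',
    Finset.mem_univ, if_true] at this
  linear_combination -this / 3

end alg

end Pool.Agent.H.MP_88847a_mp
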