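import Pool.Agent.H.MP_88847a_mp.C

open Filter Topology PeriodPair Set

noncomputable section

namespace Pool.Agent.H.MP_88847a_mp

variable (L : PeriodPair) {N : ℕ}

lemma quasi' {l : ℂ} (hl : l ∈ L.lattice) : ∃ η C : ℂ, C ≠ 0 ∧
    ∀ z, sig L (z + l) = C * Complex.exp (η * z) * sig L z := by
  obtain ⟨η, C, -, e2⟩ := quasi L hl
  have hw := L.ω₁_div_two_notMem_lattice
  refine ⟨η, C, ?_, fun z => ?_⟩
  · rintro rfl
    exact sig_ne L (add_notMem L hw hl) (by simpa using e2 _ hw)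
  · have := (sig_diff L).continuous
    exact eq_of_dense (f := fun z => sig L (z + l))
      (g := fun z => C * Complex.exp (η * z) * sig L z) (by fun_prop) (by fun_prop)
      (countable_lattice L) (.of_forall fun x hx => e2 x hx)

lemma analyticAt_sig (z : ℂ) : AnalyticAt ℂ (sig L) z := (sig_diff L).analyticAt z

def Ft (z : ℂ) (y : Fin N → ℂ) : ℂ := (∏ m, sig L (z - Yx y m)) / sig L z ^ (N + 1)

lemma analyticAt_Ft (z : ℂ) (y : Fin N → ℂ) : AnalyticAt ℂ (Ft L z) y := by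
  unfold Ft
  simp only [div_eq_mul_inv]
  refine AnalyticAt.mul (Finset.analyticAt_fun_prod _ fun m _ => ?_) analyticAt_const
  exact (analyticAt_sig L _).comp (analyticAt_const.sub (analyticAt_Yx m y))

lemma analyticAt_num (y : Fin N → ℂ) (z : ℂ) :
    AnalyticAt ℂ (fun z => ∏ m, sig L (z - Yx y m)) z :=
  Finset.analyticAt_fun_prod _ fun _ _ => (analyticAt_sig L _).comp (by fun_prop)

lemma Ft_mem (y : Fin N → ℂ) : ∃ c : ℕ → ℂ, ∀ z ∉ L.lattice,
    Ft L z y = ∑ a ∈ Finset.range (N + 1), c a * eb L a z := by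
  refine Vchar L N (fun z => Ft L z y) (fun z hz => ?_) (fun l hl z hz => ?_) ?_
  · exact (analyticAt_num L y z).div ((analyticAt_sig L z).pow _) (pow_ne_zero _ (sig_ne L hz))
  · obtain ⟨η, C, hC, e⟩ := quasi' L hl
    simp only [Ft]
    have h1 : ∀ m, sig L (z + l - Yx y m) =
        (C * Complex.exp (η * z)) * Complex.exp (-η * Yx y m) * sig L (z - Yx y m) := by
      intro m
      rw [show z + l - Yx y m = z - Yx y m + l by ring, e, mul_assoc C (Complex.exp (η * z)),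
        ← Complex.exp_add]
      congr 3; ring
    simp only [h1, Finset.prod_mul_distrib, Finset.prod_const, Finset.card_univ,
      Fintype.card_fin, ← Complex.exp_sum, ← Finset.mul_sum, sum_Yx, e z]
    have := Complex.exp_ne_zero (η * z)
    have := sig_ne L hz
    simp only [mul_zero, Complex.exp_zero, mul_pow]
    field_simp
  · refine ⟨fun z => (∏ m, sig L (z - Yx y m)) / s0 L z ^ (N + 1), ?_, .of_forall fun z => ?_⟩
    · exact (analyticAt_num L y 0).div (((s0_diff L).analyticAt 0).pow _)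
        (by simp [s0_zero])
    · simp only [Ft]
      rw [show sig L z = z * s0 L z from rfl, mul_pow, div_div, mul_comm (z ^ _)]

lemma exists_U : ∃ U : Fin (N + 1) → (Fin N → ℂ) → ℂ, (∀ a y, AnalyticAt ℂ (U a) y) ∧
    ∀ y, ∀ z ∉ L.lattice, Ft L z y = ∑ a, U a y * eb L a z := by
  obtain ⟨s, α, hs, hα⟩ := dual L (N + 1) (S := ∅) countable_empty
  refine ⟨fun a y => ∑ z ∈ s, α a z * Ft L z y, fun a y => ?_, fun y z hz => ?_⟩
  · exact Finset.analyticAt_fun_sum _ fun z _ => analyticAt_const.mul (analyticAt_Ft L z y)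
  · obtain ⟨c, hc⟩ := Ft_mem L y
    simp only [Finset.sum_range] at hc
    rw [hc z hz]
    refine Finset.sum_congr rfl fun a _ => ?_
    congr 1
    change _ = ∑ w ∈ s, α a w * Ft L w y
    rw [Finset.sum_congr rfl (g := fun w => ∑ b : Fin (N + 1), α a w * (c b * eb L b w))
      fun w hw => by rw [hc w (hs w hw).1, Finset.mul_sum], Finset.sum_comm]
    simp only [mul_left_comm (α a _), ← Finset.mul_sum, hα]
    simp

def UU (a : Fin (N + 1)) : (Fin N → ℂ) → ℂ := (exists_U L).choose a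

lemma analyticAt_UU (a : Fin (N + 1)) (y : Fin N → ℂ) : AnalyticAt ℂ (UU L a) y :=
  (exists_U L).choose_spec.1 a y

lemma Ft_eq {z : ℂ} (hz : z ∉ L.lattice) (y : Fin N → ℂ) :
    Ft L z y = ∑ a, UU L a y * eb L a z := (exists_U L).choose_spec.2 y z hz

lemma dd_Ft_eq {z : ℂ} (hz : z ∉ L.lattice) (v y : Fin N → ℂ) :
    dd v (Ft L z) y = ∑ a, dd v (UU L a) y * eb L a z := by
  rw [show Ft L z = fun y => ∑ a, UU L a y * eb L a z from funext (Ft_eq L hz)]
  exact (HD.sum _ fun a _ =>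
    (HD.of_diff (analyticAt_UU L a y).differentiableAt v).mul_const _).2

lemma dd2_Ft_eq {z : ℂ} (hz : z ∉ L.lattice) (v y : Fin N → ℂ) :
    dd v (dd v (Ft L z)) y = ∑ a, dd v (dd v (UU L a)) y * eb L a z := by
  rw [show dd v (Ft L z) = fun y => ∑ a, dd v (UU L a) y * eb L a z from
    funext (dd_Ft_eq L hz v)]
  exact (HD.sum _ fun a _ =>
    (HD.of_diff (analyticAt_dd (analyticAt_UU L a y) v).differentiableAt v).mul_const _).2

lemma HD_Ft {z : ℂ} {y : Fin N → ℂ} (hz : ∀ m, z - Yx y m ∉ L.lattice) (v : Fin N → ℂ) :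
    HD (Ft L z) y v ((∑ m, zeta L (z - Yx y m) * -(Yx v m)) * Ft L z y) := by
  have h1 : HD (fun y => ∏ m, sig L (z - Yx y m)) y v _ :=
    HD.prod (A := fun m => zeta L (z - Yx y m) * -(Yx v m)) Finset.univ fun m _ =>
      (((HD.const z).sub (HD.Yx m)).comp1 (hasDerivAt_sig L (hz m))).val (by ring)
  have := h1.mul_const (sig L z ^ (N + 1))⁻¹
  unfold Ft
  simp only [div_eq_mul_inv]
  exact this.val (by ring)

lemma ev_gen {f : (Fin N → ℂ) → ℂ} {y : Fin N → ℂ} (hf : ContinuousAt f y)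
    (h : f y ∉ L.lattice) : ∀ᶠ y' in 𝓝 y, f y' ∉ L.lattice :=
  hf.preimage_mem_nhds (L.isClosed_lattice.isOpen_compl.mem_nhds h)

lemma dd2_Ft {z : ℂ} {y : Fin N → ℂ} (hz : ∀ m, z - Yx y m ∉ L.lattice) (v : Fin N → ℂ) :
    dd v (dd v (Ft L z)) y = ((∑ m, zeta L (z - Yx y m) * -(Yx v m)) ^ 2
      - ∑ m, ℘[L] (z - Yx y m) * (Yx v m) ^ 2) * Ft L z y := by
  have hev : ∀ᶠ y' in 𝓝 y, ∀ m, z - Yx y' m ∉ L.lattice :=
    eventually_all.mpr fun m => ev_gen L
      (continuousAt_const.sub (analyticAt_Yx m y).continuousAt) (hz m)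
  have h1 : HD (fun y => ∑ m, zeta L (z - Yx y m) * -(Yx v m)) y v
      (∑ m, -(℘[L] (z - Yx y m) * (Yx v m) ^ 2)) :=
    HD.sum _ fun m _ =>
      ((((HD.const z).sub (HD.Yx m)).comp1 (hasDerivAt_zeta L (hz m))).mul_const _).val (by ring)
  have h2 := (h1.mul (HD_Ft L hz v)).congr (g := dd v (Ft L z))
    (by filter_upwards [hev] with y' hy' using (HD_Ft L hy' v).2)
  rw [h2.2, Finset.sum_neg_distrib]; ring

/-- first derivatives of the coordinates -/
def U1 (a i : Fin (N + 1)) (y : Fin N → ℂ) : ℂ := dd (vv i) (UU L a) y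
def U2 (a : Fin (N + 1)) (y : Fin N → ℂ) : ℂ := ∑ i, dd (vv i) (dd (vv i) (UU L a)) y

lemma U1_gen {z : ℂ} (hz0 : z ∉ L.lattice) {y : Fin N → ℂ} (hz : ∀ m, z - Yx y m ∉ L.lattice)
    (i : Fin (N + 1)) : ∑ a, U1 L a i y * eb L a z =
      (-zeta L (z - Yx y i) + (∑ m, zeta L (z - Yx y m)) / (N + 1)) * Ft L z y := by
  simp only [U1]
  rw [← dd_Ft_eq L hz0, (HD_Ft L hz _).2]
  simp only [Yx_vv, sum_t]

lemma card_eq : (Fintype.card (Fin (N + 1)) : ℂ) = N + 1 := by simp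

lemma U2_gen {z : ℂ} (hz0 : z ∉ L.lattice) {y : Fin N → ℂ} (hz : ∀ m, z - Yx y m ∉ L.lattice) :
    ∑ a, U2 L a y * eb L a z =
      (∑ i, zeta L (z - Yx y i) * zeta L (z - Yx y i)
        - (∑ m, zeta L (z - Yx y m)) * (∑ m, zeta L (z - Yx y m)) / (N + 1)
        - (1 - 1 / (N + 1)) * ∑ m, ℘[L] (z - Yx y m)) * Ft L z y := by
  simp only [U2, Finset.sum_mul]
  rw [Finset.sum_comm]
  simp only [← dd2_Ft_eq L hz0, dd2_Ft L hz, Yx_vv, sum_t]
  rw [← Finset.sum_mul, Finset.sum_sub_distrib, sum_t2 _ card_eq nn_ne]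
  simp only [sq]
  rw [sum_aa _ card_eq nn_ne]
  simp only [Finset.sum_mul]

lemma countable_bad (y : Fin N → ℂ) : {z | ∃ m, z - Yx y m ∈ L.lattice}.Countable := by
  have : {z | ∃ m, z - Yx y m ∈ L.lattice} =
      ⋃ m, (fun l => l + Yx y m) '' (L.lattice : Set ℂ) := by
    ext z
    simp only [mem_setOf_eq, mem_iUnion, mem_image, SetLike.mem_coe]
    refine exists_congr fun m => ⟨fun h => ⟨_, h, by ring⟩, ?_⟩
    rintro ⟨l, hl, rfl⟩; simpa using hl
  rw [this]
  exact countable_iUnion fun m => (countable_lattice L).image _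

def zz (y : Fin N → ℂ) (i j : Fin (N + 1)) : ℂ := zeta L (Yx y i - Yx y j)
def ww (y : Fin N → ℂ) (i j : Fin (N + 1)) : ℂ := ℘[L] (Yx y i - Yx y j)
def bb (i : Fin (N + 1)) (y : Fin N → ℂ) : ℂ := ∑ j, zz L y i j
def CC (y : Fin N → ℂ) : ℂ := (∑ i, ∑ j, zz L y i j ^ 2 - ∑ i, ∑ j, ww L y i j) / 2

lemma zz_anti (y : Fin N → ℂ) (i j) : zz L y j i = - zz L y i j := by
  rw [zz, zz, ← zeta_neg, neg_sub]

lemma ww_diag (y : Fin N → ℂ) (i) : ww L y i i = 0 := by simp [ww]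

lemma ww_symm (y : Fin N → ℂ) (i j) : ww L y j i = ww L y i j := by
  rw [ww, ww, ← weierstrassP_neg, neg_sub]

lemma sum_bb (y : Fin N → ℂ) : ∑ i, bb L i y = 0 := sum_b _ (zz_anti L y)

theorem H1 {y : Fin N → ℂ} (hy : ∀ i j, i ≠ j → Yx y i - Yx y j ∉ L.lattice) (a : Fin (N + 1)) :
    (N + 1) * U2 L a y = 2 * ∑ i, bb L i y * U1 L a i y - CC L y * UU L a y := by
  rw [← sub_eq_zero]
  refine indep L (N + 1) (countable_bad L y)
    (fun a => (N + 1) * U2 L a y - (2 * ∑ i, bb L i y * U1 L a i y - CC L y * UU L a y))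
    (fun z hz0 hz => ?_) a
  have hz : ∀ m, z - Yx y m ∉ L.lattice := fun m h => hz ⟨m, h⟩
  have e1 : ∑ a, (∑ i, bb L i y * U1 L a i y) * eb L a z =
      ∑ i, bb L i y * ∑ a, U1 L a i y * eb L a z := by
    simp only [Finset.sum_mul, Finset.mul_sum, mul_assoc]
    rw [Finset.sum_comm]
  simp only [sub_mul, mul_assoc, Finset.sum_sub_distrib, ← Finset.mul_sum]
  rw [e1, U2_gen L hz0 hz, ← Ft_eq L hz0]
  simp only [U1_gen L hz0 hz]
  have h := alg1 (N + 1) card_eq (fun i => zeta L (z - Yx y i)) (fun i => ℘[L] (z - Yx y i))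
    (zz L y) (ww L y) (zz_anti L y) (ww_diag L y) (fun i j hij => by
      have := three_term L (hz i) (hy i j hij) (by simpa using hz j)
      simpa [zz, ww] using this)
  have hb := sum_bb L y
  simp only [← mul_assoc, ← Finset.sum_mul, mul_add, Finset.sum_add_distrib, mul_neg,
    Finset.sum_neg_distrib, hb]
  simp only [bb, CC]
  have hn := nn_ne (N := N)
  generalize ∑ i, zeta L (z - Yx y i) * zeta L (z - Yx y i) = A at h ⊢
  generalize ∑ i, (∑ j, zz L y i j) * zeta L (z - Yx y i) = B at h ⊢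
  generalize ∑ i, ∑ j, zz L y i j ^ 2 = C at h ⊢
  field_simp
  linear_combination (N + 1) * Ft L z y * h

theorem H0 {y : Fin N → ℂ} (hy : ∀ i j, i ≠ j → Yx y i - Yx y j ∉ L.lattice) :
    ∑ i, bb L i y ^ 2 = (N + 1) * CC L y + ∑ i, ∑ j, ww L y i j := by
  have h := alg0 (N + 1) card_eq (zz L y) (ww L y) (zz_anti L y) (ww_diag L y) (ww_symm L y)
    (fun i j k hij hjk hik => by
      have := three_term L (hy i j hij) (hy j k hjk) (by simpa using hy i k hik)
      simpa [zz, ww] using this)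
  simp only [bb, CC]
  linear_combination h / 2

lemma HD_bb {y : Fin N → ℂ} (hy : ∀ i j, i ≠ j → Yx y i - Yx y j ∉ L.lattice) (i) :
    HD (bb L i) y (vv i) (- ∑ j, ww L y i j) := by
  rw [← Finset.sum_neg_distrib]
  refine HD.sum _ fun j _ => ?_
  rcases eq_or_ne i j with rfl | hij
  · simpa [zz, ww] using HD.const (zeta L 0)
  · refine (((HD.Yx i).sub (HD.Yx j)).comp1 (hasDerivAt_zeta L (hy i j hij))).val ?_
    simp [Yx_vv, ww, hij.symm]

/-! ### the universal quadratic form -/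

def e1 (a : ℕ) : ℂ → ℂ := deriv (eb L a)
def e2 (a : ℕ) : ℂ → ℂ := deriv (deriv (eb L a))

def Qb (n : ℂ) (a b : ℕ) (z w : ℂ) : ℂ :=
  e2 L a z * eb L b w - 2 * (e1 L a z * e1 L b w) + eb L a z * e2 L b w
    - 2 * n * (zeta L (z - w) - zeta L z + zeta L w) * (e1 L a z * eb L b w - eb L a z * e1 L b w)
    + (n ^ 2 * ((zeta L (z - w) - zeta L z + zeta L w) ^ 2 - ℘[L] (z - w))
      - n * (℘[L] z + ℘[L] w)) * (eb L a z * eb L b w)

lemma hasDerivAt_Ft {z : ℂ} (hz0 : z ∉ L.lattice) {y : Fin N → ℂ}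
    (hz : ∀ m, z - Yx y m ∉ L.lattice) : HasDerivAt (fun z => Ft L z y)
      ((∑ m, zeta L (z - Yx y m) - (N + 1) * zeta L z) * Ft L z y) z := by
  classical
  have h1 := HasDerivAt.fun_finsetProd (u := Finset.univ)
    (f := fun m z => sig L (z - Yx y m))
    (fun m _ => (hasDerivAt_sig L (hz m)).comp_sub_const z (Yx y m))
  have h2 := h1.div ((hasDerivAt_sig L hz0).pow (N + 1)) (pow_ne_zero _ (sig_ne L hz0))
  refine hd_congr h2 (fun _ => rfl) ?_
  have h3 : ∑ m, (∏ j ∈ Finset.univ.erase m, sig L (z - Yx y j)) •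
      (zeta L (z - Yx y m) * sig L (z - Yx y m)) =
      (∑ m, zeta L (z - Yx y m)) * ∏ j, sig L (z - Yx y j) := by
    rw [Finset.sum_mul]
    refine Finset.sum_congr rfl fun m _ => ?_
    rw [← Finset.prod_erase_mul _ _ (Finset.mem_univ m), smul_eq_mul]; ring
  rw [h3]
  have := sig_ne L hz0
  simp only [Ft, Pi.pow_apply, Nat.add_one_sub_one]
  push_cast
  field_simp
  ring

lemma hasDerivAt_sum0 {z : ℂ} (hz0 : z ∉ L.lattice) (c : Fin (N + 1) → ℂ) :
    HasDerivAt (fun z => ∑ a, c a * eb L a z) (∑ a, c a * e1 L a z) z :=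
  HasDerivAt.fun_sum fun a _ => (analyticAt_eb L a hz0).differentiableAt.hasDerivAt.const_mul _

lemma hasDerivAt_sum1 {z : ℂ} (hz0 : z ∉ L.lattice) (c : Fin (N + 1) → ℂ) :
    HasDerivAt (fun z => ∑ a, c a * e1 L a z) (∑ a, c a * e2 L a z) z :=
  HasDerivAt.fun_sum fun a _ =>
    (analyticAt_eb L a hz0).deriv.differentiableAt.hasDerivAt.const_mul _

lemma E1_gen {z : ℂ} (hz0 : z ∉ L.lattice) {y : Fin N → ℂ} (hz : ∀ m, z - Yx y m ∉ L.lattice) :
    ∑ a, UU L a y * e1 L a z = (∑ m, zeta L (z - Yx y m) - (N + 1) * zeta L z) * Ft L z y := by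
  refine (hasDerivAt_sum0 L hz0 _).unique ((hasDerivAt_Ft L hz0 hz).congr_of_eventuallyEq ?_)
  filter_upwards [L.isClosed_lattice.isOpen_compl.mem_nhds hz0] with x hx
  exact (Ft_eq L hx y).symm

lemma E2_gen {z : ℂ} (hz0 : z ∉ L.lattice) {y : Fin N → ℂ} (hz : ∀ m, z - Yx y m ∉ L.lattice) :
    ∑ a, UU L a y * e2 L a z = ((∑ m, zeta L (z - Yx y m) - (N + 1) * zeta L z) ^ 2
      - ∑ m, ℘[L] (z - Yx y m) + (N + 1) * ℘[L] z) * Ft L z y := by
  have h1 : HasDerivAt (fun z => ∑ m, zeta L (z - Yx y m)) (∑ m, - ℘[L] (z - Yx y m)) z :=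
    HasDerivAt.fun_sum fun m _ => (hasDerivAt_zeta L (hz m)).comp_sub_const z (Yx y m)
  have h2 := (h1.sub ((hasDerivAt_zeta L hz0).const_mul ((N : ℂ) + 1))).mul
    (hasDerivAt_Ft L hz0 hz)
  have h3 := (hasDerivAt_sum1 L hz0 (fun a => UU L a y)).unique (h2.congr_of_eventuallyEq (by
    have hev : ∀ᶠ x in 𝓝 z, ∀ m, x - Yx y m ∉ L.lattice :=
      eventually_all.mpr fun m => (continuous_sub_right (Yx y m)).continuousAt.preimage_mem_nhds
        (L.isClosed_lattice.isOpen_compl.mem_nhds (hz m))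
    filter_upwards [L.isClosed_lattice.isOpen_compl.mem_nhds hz0, hev] with x hx hx'
    exact E1_gen L hx hx'))
  rw [h3, Finset.sum_neg_distrib]
  simp only [Pi.sub_apply]
  ring

def RR (k l : Fin (N + 1)) (y : Fin N → ℂ) : ℂ :=
  ∑ i, U1 L k i y * U1 L l i y - (U2 L k y * UU L l y + UU L k y * U2 L l y) / 2

lemma H2_gen {z w : ℂ} (hz0 : z ∉ L.lattice) (hw0 : w ∉ L.lattice) (hzw : z - w ∉ L.lattice)
    {y : Fin N → ℂ} (hz : ∀ m, z - Yx y m ∉ L.lattice) (hw : ∀ m, w - Yx y m ∉ L.lattice) :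
    2 * (N + 1) * ∑ k, ∑ l, RR L k l y * (eb L k z * eb L l w) =
      ∑ a, ∑ b, UU L a y * UU L b y * Qb L (N + 1) a b z w := by
  have bil : ∀ (c d : Fin (N + 1) → ℂ) (f g : ℕ → ℂ), ∑ a, ∑ b, c a * d b * (f a * g b) =
      (∑ a, c a * f a) * ∑ b, d b * g b := by
    intro c d f g
    rw [Finset.sum_mul_sum]
    exact Finset.sum_congr rfl fun a _ => Finset.sum_congr rfl fun b _ => by ring
  have l1 : ∑ k, ∑ l, RR L k l y * (eb L k z * eb L l w) =
      ∑ i, (∑ a, U1 L a i y * eb L a z) * (∑ a, U1 L a i y * eb L a w)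
      - ((∑ a, U2 L a y * eb L a z) * (∑ a, UU L a y * eb L a w)
        + (∑ a, UU L a y * eb L a z) * (∑ a, U2 L a y * eb L a w)) / 2 := by
    simp only [← bil _ _ (fun a => eb L a z) (fun a => eb L a w)]
    rw [Finset.sum_comm (s := Finset.univ) (t := Finset.univ)
      (f := fun i a => ∑ b, U1 L a i y * U1 L b i y * (eb L a z * eb L b w))]
    rw [← Finset.sum_add_distrib, Finset.sum_div, ← Finset.sum_sub_distrib]
    refine Finset.sum_congr rfl fun a _ => ?_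
    rw [Finset.sum_comm, ← Finset.sum_add_distrib, Finset.sum_div, ← Finset.sum_sub_distrib]
    refine Finset.sum_congr rfl fun b _ => ?_
    rw [RR, ← Finset.sum_mul]; ring
  have l2 : ∑ a, ∑ b, UU L a y * UU L b y * Qb L (N + 1) a b z w =
      (∑ a, UU L a y * e2 L a z) * (∑ a, UU L a y * eb L a w)
      - 2 * ((∑ a, UU L a y * e1 L a z) * (∑ a, UU L a y * e1 L a w))
      + (∑ a, UU L a y * eb L a z) * (∑ a, UU L a y * e2 L a w)
      - 2 * (N + 1) * (zeta L (z - w) - zeta L z + zeta L w) *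
        ((∑ a, UU L a y * e1 L a z) * (∑ a, UU L a y * eb L a w)
          - (∑ a, UU L a y * eb L a z) * (∑ a, UU L a y * e1 L a w))
      + ((N + 1) ^ 2 * ((zeta L (z - w) - zeta L z + zeta L w) ^ 2 - ℘[L] (z - w))
        - (N + 1) * (℘[L] z + ℘[L] w)) *
        ((∑ a, UU L a y * eb L a z) * (∑ a, UU L a y * eb L a w)) := by
    rw [← bil _ _ (fun a => e2 L a z) (fun a => eb L a w),
      ← bil _ _ (fun a => e1 L a z) (fun a => e1 L a w),
      ← bil _ _ (fun a => eb L a z) (fun a => e2 L a w),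
      ← bil _ _ (fun a => e1 L a z) (fun a => eb L a w),
      ← bil _ _ (fun a => eb L a z) (fun a => e1 L a w),
      ← bil _ _ (fun a => eb L a z) (fun a => eb L a w)]
    simp only [Finset.mul_sum, ← Finset.sum_add_distrib, ← Finset.sum_sub_distrib]
    refine Finset.sum_congr rfl fun a _ => Finset.sum_congr rfl fun b _ => ?_
    rw [Qb]; ring
  rw [l1, l2]
  simp only [U1_gen L hz0 hz, U1_gen L hw0 hw, U2_gen L hz0 hz, U2_gen L hw0 hw,
    E1_gen L hz0 hz, E1_gen L hw0 hw, E2_gen L hz0 hz, E2_gen L hw0 hw, ← Ft_eq L hz0,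
    ← Ft_eq L hw0]
  have h := alg2 (N + 1) card_eq (fun i => zeta L (z - Yx y i)) (fun i => zeta L (w - Yx y i))
    (fun i => ℘[L] (z - Yx y i)) (fun i => ℘[L] (w - Yx y i)) (zeta L (z - w)) (℘[L] (z - w))
    (fun i => by
      have := three_term L (hw i) hzw (by simpa using hz i)
      simpa using this)
  have h2 := sum_aa (N + 1) card_eq nn_ne (fun i => zeta L (z - Yx y i))
    (fun i => zeta L (w - Yx y i))
  have h3 : ∀ (A B : Fin (N + 1) → ℂ) (p q : ℂ), ∑ i, A i * p * (B i * q) =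
      (∑ i, A i * B i) * p * q := by
    intro A B p q
    simp only [Finset.sum_mul]
    exact Finset.sum_congr rfl fun i _ => by ring
  rw [h3, h2]
  have hn := nn_ne (N := N)
  generalize ∑ i, zeta L (z - Yx y i) * zeta L (z - Yx y i) = A at h ⊢
  generalize ∑ i, zeta L (w - Yx y i) * zeta L (w - Yx y i) = B at h ⊢
  generalize ∑ i, zeta L (z - Yx y i) * zeta L (w - Yx y i) = C at h ⊢
  field_simp
  linear_combination (-(N + 1) * Ft L z y * Ft L w y) * h

end Pool.Agent.H.MP_88847a_mp
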