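import Pool.Agent.H.MP_88847a_mp.D

open Filter Topology PeriodPair Set

noncomputable section

namespace Pool.Agent.H.MP_88847a_mp

variable (L : PeriodPair) {N : ℕ}

lemma Qb_cont1 (n : ℂ) (a b : ℕ) {z w : ℂ} (hz0 : z ∉ L.lattice) (hzw : z - w ∉ L.lattice) :
    ContinuousAt (fun z => Qb L n a b z w) z := by
  have h0 := (analyticAt_eb L a hz0).continuousAt
  have h1 : ContinuousAt (e1 L a) z := (analyticAt_eb L a hz0).deriv.continuousAt
  have h2 : ContinuousAt (e2 L a) z := (analyticAt_eb L a hz0).deriv.deriv.continuousAt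
  have h3 := (analyticAt_zeta L hz0).continuousAt
  have h4 := (L.analyticOnNhd_weierstrassP _ hz0).continuousAt
  have h5 : ContinuousAt (fun z => zeta L (z - w)) z :=
    ContinuousAt.comp_of_eq (analyticAt_zeta L hzw).continuousAt (by fun_prop) rfl
  have h6 : ContinuousAt (fun z => ℘[L] (z - w)) z :=
    ContinuousAt.comp_of_eq (L.analyticOnNhd_weierstrassP _ hzw).continuousAt (by fun_prop) rfl
  unfold Qb
  fun_prop

lemma Qb_cont2 (n : ℂ) (a b : ℕ) {z w : ℂ} (hw0 : w ∉ L.lattice) (hzw : z - w ∉ L.lattice) :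
    ContinuousAt (fun w => Qb L n a b z w) w := by
  have h0 := (analyticAt_eb L b hw0).continuousAt
  have h1 : ContinuousAt (e1 L b) w := (analyticAt_eb L b hw0).deriv.continuousAt
  have h2 : ContinuousAt (e2 L b) w := (analyticAt_eb L b hw0).deriv.deriv.continuousAt
  have h3 := (analyticAt_zeta L hw0).continuousAt
  have h4 := (L.analyticOnNhd_weierstrassP _ hw0).continuousAt
  have h5 : ContinuousAt (fun w => zeta L (z - w)) w :=
    ContinuousAt.comp_of_eq (analyticAt_zeta L hzw).continuousAt (by fun_prop) rfl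
  have h6 : ContinuousAt (fun w => ℘[L] (z - w)) w :=
    ContinuousAt.comp_of_eq (L.analyticOnNhd_weierstrassP _ hzw).continuousAt (by fun_prop) rfl
  unfold Qb
  fun_prop

lemma H2_half {z w : ℂ} (hz0 : z ∉ L.lattice) (hw0 : w ∉ L.lattice) (hzw : z - w ∉ L.lattice)
    {y : Fin N → ℂ} (hw : ∀ m, w - Yx y m ∉ L.lattice) :
    2 * (N + 1) * ∑ k, ∑ l, RR L k l y * (eb L k z * eb L l w) =
      ∑ a, ∑ b, UU L a y * UU L b y * Qb L (N + 1) a b z w := by
  refine eq_of_dense
    (f := fun z => 2 * (N + 1) * ∑ k, ∑ l, RR L k l y * (eb L k z * eb L l w))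
    (g := fun z => ∑ a, ∑ b, UU L a y * UU L b y * Qb L (N + 1) a b z w) ?_ ?_
    (countable_bad L y) ?_
  · exact continuousAt_const.mul (tendsto_finsetSum _ fun k _ => tendsto_finsetSum _ fun l _ =>
      continuousAt_const.mul ((analyticAt_eb L k hz0).continuousAt.mul continuousAt_const))
  · exact tendsto_finsetSum _ fun a _ => tendsto_finsetSum _ fun b _ =>
      continuousAt_const.mul (Qb_cont1 L _ a b hz0 hzw)
  · have hev : ∀ᶠ x in 𝓝 z, x - w ∉ L.lattice :=
      (continuous_sub_right w).continuousAt.preimage_mem_nhds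
        (L.isClosed_lattice.isOpen_compl.mem_nhds hzw)
    filter_upwards [L.isClosed_lattice.isOpen_compl.mem_nhds hz0, hev] with x hx hx' hb
    exact H2_gen L hx hw0 hx' (fun m h => hb ⟨m, h⟩) hw

lemma H2_all {z w : ℂ} (hz0 : z ∉ L.lattice) (hw0 : w ∉ L.lattice) (hzw : z - w ∉ L.lattice)
    (y : Fin N → ℂ) :
    2 * (N + 1) * ∑ k, ∑ l, RR L k l y * (eb L k z * eb L l w) =
      ∑ a, ∑ b, UU L a y * UU L b y * Qb L (N + 1) a b z w := by
  refine eq_of_dense
    (f := fun w => 2 * (N + 1) * ∑ k, ∑ l, RR L k l y * (eb L k z * eb L l w))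
    (g := fun w => ∑ a, ∑ b, UU L a y * UU L b y * Qb L (N + 1) a b z w) ?_ ?_
    (countable_bad L y) ?_
  · exact continuousAt_const.mul (tendsto_finsetSum _ fun k _ => tendsto_finsetSum _ fun l _ =>
      continuousAt_const.mul (continuousAt_const.mul (analyticAt_eb L l hw0).continuousAt))
  · exact tendsto_finsetSum _ fun a _ => tendsto_finsetSum _ fun b _ =>
      continuousAt_const.mul (Qb_cont2 L _ a b hw0 hzw)
  · have hev : ∀ᶠ x in 𝓝 w, z - x ∉ L.lattice :=
      (continuous_sub_left z).continuousAt.preimage_mem_nhds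
        (L.isClosed_lattice.isOpen_compl.mem_nhds hzw)
    filter_upwards [L.isClosed_lattice.isOpen_compl.mem_nhds hw0, hev] with x hx hx' hb
    exact H2_half L hz0 hx hx' (fun m h => hb ⟨m, h⟩)

theorem H2 : ∃ c : Fin (N + 1) → Fin (N + 1) → Fin (N + 1) → Fin (N + 1) → ℂ,
    ∀ (y : Fin N → ℂ) k l, RR L k l y = ∑ a, ∑ b, c a b k l * (UU L a y * UU L b y) := by
  obtain ⟨s, α, hs, hα⟩ := dual L (N + 1) (S := ∅) countable_empty
  have hc : {w | ∃ z ∈ s, z - w ∈ L.lattice}.Countable := by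
    have : {w | ∃ z ∈ s, z - w ∈ L.lattice} =
        ⋃ z ∈ (s : Set ℂ), (fun l => z - l) '' (L.lattice : Set ℂ) := by
      ext w
      simp only [mem_setOf_eq, mem_iUnion, mem_image, SetLike.mem_coe, exists_prop]
      refine exists_congr fun z => and_congr_right fun _ => ⟨fun h => ⟨_, h, by ring⟩, ?_⟩
      rintro ⟨l, hl, rfl⟩; simpa using hl
    rw [this]
    exact s.countable_toSet.biUnion fun z _ => (countable_lattice L).image _
  obtain ⟨t, γ, ht, hγ⟩ := dual L (N + 1) hc
  refine ⟨fun a b k l => (∑ z ∈ s, ∑ w ∈ t, α k z * γ l w * Qb L (N + 1) a b z w) /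
    (2 * (N + 1)), fun y k l => ?_⟩
  have hn := nn_ne (N := N)
  have h1 : ∑ z ∈ s, ∑ w ∈ t, α k z * γ l w *
      (2 * (N + 1) * ∑ k, ∑ l, RR L k l y * (eb L k z * eb L l w)) =
      ∑ z ∈ s, ∑ w ∈ t, α k z * γ l w *
        ∑ a, ∑ b, UU L a y * UU L b y * Qb L (N + 1) a b z w :=
    Finset.sum_congr rfl fun z hz => Finset.sum_congr rfl fun w hw => by
      rw [H2_all L (hs z hz).1 (ht w hw).1 (fun h => (ht w hw).2 ⟨z, hz, h⟩) y]
  have sw : ∀ F : ℂ → ℂ → Fin (N + 1) → Fin (N + 1) → ℂ,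
      ∑ z ∈ s, ∑ w ∈ t, ∑ a, ∑ b, F z w a b = ∑ a, ∑ b, ∑ z ∈ s, ∑ w ∈ t, F z w a b := by
    intro F
    rw [Finset.sum_congr rfl fun z _ => Finset.sum_comm, Finset.sum_comm]
    refine Finset.sum_congr rfl fun a _ => ?_
    rw [Finset.sum_congr rfl fun z _ => Finset.sum_comm, Finset.sum_comm]
  have h2 : ∑ z ∈ s, ∑ w ∈ t, α k z * γ l w *
      (2 * (N + 1) * ∑ k, ∑ l, RR L k l y * (eb L k z * eb L l w)) =
      2 * (N + 1) * RR L k l y := by
    simp only [Finset.mul_sum]
    rw [sw]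
    have : ∀ a b : Fin (N + 1), ∑ z ∈ s, ∑ w ∈ t, α k z * γ l w *
        (2 * (N + 1) * (RR L a b y * (eb L a z * eb L b w))) =
        2 * (N + 1) * RR L a b y * ((∑ z ∈ s, α k z * eb L a z) * ∑ w ∈ t, γ l w * eb L b w) := by
      intro a b
      rw [Finset.sum_mul_sum, Finset.mul_sum]
      refine Finset.sum_congr rfl fun z _ => ?_
      rw [Finset.mul_sum]
      exact Finset.sum_congr rfl fun w _ => by ring
    simp only [this, hα, hγ]
    simp
  rw [h2] at h1
  simp only [Finset.mul_sum] at h1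
  rw [sw] at h1
  rw [← mul_right_inj' (mul_ne_zero two_ne_zero hn), h1]
  simp only [Finset.mul_sum]
  refine Finset.sum_congr rfl fun a _ => Finset.sum_congr rfl fun b _ => ?_
  rw [div_mul_eq_mul_div, mul_div_cancel₀ _ (mul_ne_zero two_ne_zero hn), Finset.sum_mul]
  refine Finset.sum_congr rfl fun z _ => ?_
  rw [Finset.sum_mul]
  exact Finset.sum_congr rfl fun w _ => by ring

/-! ### the affine coordinates -/

lemma Mat_apply (y : Fin N → ℂ) (i k : Fin N) : Mat L y i k = wp L k (y i) := rfl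

lemma Ft_eq' {z : ℂ} (hz : z ∉ L.lattice) (y : Fin N → ℂ) :
    Ft L z y = UU L 0 y - ∑ k : Fin N, wp L k z * UU L k.succ y := by
  rw [Ft_eq L hz, Fin.sum_univ_succ]
  simp [sub_eq_add_neg, mul_comm]

lemma Ft_self (y : Fin N → ℂ) (i : Fin N) : Ft L (y i) y = 0 := by
  rw [Ft, Finset.prod_eq_zero (Finset.mem_univ i.castSucc), zero_div]
  simp [Yx, sig_zero]

lemma exists_gen (y : Fin N → ℂ) : ∃ z, z ∉ L.lattice ∧ ∀ m, z - Yx y m ∉ L.lattice := by
  obtain ⟨z, hz⟩ := (((countable_lattice L).union (countable_bad L y)).dense_compl ℂ).nonempty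
  exact ⟨z, fun h => hz (Or.inl h), fun m h => hz (Or.inr ⟨m, h⟩)⟩

lemma Ft_ne {z : ℂ} (hz0 : z ∉ L.lattice) {y : Fin N → ℂ} (hz : ∀ m, z - Yx y m ∉ L.lattice) :
    Ft L z y ≠ 0 :=
  div_ne_zero (Finset.prod_ne_zero_iff.mpr fun m _ => sig_ne L (hz m))
    (pow_ne_zero _ (sig_ne L hz0))

lemma mulVec_U {y : Fin N → ℂ} (h1 : ∀ i, y i ∉ L.lattice) :
    (Mat L y).mulVec (fun k => UU L k.succ y) = fun _ => UU L 0 y := by
  ext i
  have := Ft_eq' L (h1 i) y
  rw [Ft_self] at this
  simp only [Matrix.mulVec, dotProduct, Mat_apply]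
  linear_combination this

lemma U_eq {y : Fin N → ℂ} (h1 : ∀ i, y i ∉ L.lattice) (h2 : (Mat L y).det ≠ 0) (k : Fin N) :
    UU L k.succ y = UU L 0 y * uu L y k := by
  have h3 : (Mat L y)⁻¹.mulVec ((Mat L y).mulVec (fun k => UU L k.succ y)) =
      fun k => UU L k.succ y := by
    rw [Matrix.mulVec_mulVec, Matrix.nonsing_inv_mul _ (isUnit_iff_ne_zero.mpr h2),
      Matrix.one_mulVec]
  rw [mulVec_U L h1] at h3
  rw [← congrFun h3 k, uu]
  simp only [Matrix.mulVec, dotProduct, Finset.mul_sum, mul_one]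
  exact Finset.sum_congr rfl fun _ _ => mul_comm _ _

lemma U0_ne {y : Fin N → ℂ} (h1 : ∀ i, y i ∉ L.lattice) (h2 : (Mat L y).det ≠ 0) :
    UU L 0 y ≠ 0 := by
  intro h
  obtain ⟨z, hz0, hz⟩ := exists_gen L y
  apply Ft_ne L hz0 hz
  simp [Ft_eq' L hz0, U_eq L h1 h2, h]

lemma uu_eq {y : Fin N → ℂ} (h1 : ∀ i, y i ∉ L.lattice) (h2 : (Mat L y).det ≠ 0) (k : Fin N) :
    uu L y k = UU L k.succ y * (UU L 0 y)⁻¹ := by
  have := U0_ne L h1 h2
  rw [U_eq L h1 h2]; field_simp

lemma analyticAt_coord (i : Fin N) (y : Fin N → ℂ) : AnalyticAt ℂ (fun y : Fin N → ℂ => y i) y :=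
  (ContinuousLinearMap.proj (R := ℂ) (φ := fun _ => ℂ) i).analyticAt y

lemma analyticAt_det {M : (Fin N → ℂ) → Matrix (Fin N) (Fin N) ℂ} {y : Fin N → ℂ}
    (h : ∀ i k, AnalyticAt ℂ (fun y => M y i k) y) : AnalyticAt ℂ (fun y => (M y).det) y := by
  simp only [Matrix.det_apply, Units.smul_def, zsmul_eq_mul]
  exact Finset.analyticAt_fun_sum _ fun σ _ => analyticAt_const.mul
    (Finset.analyticAt_fun_prod _ fun i _ => h _ _)

lemma analyticAt_detM {y : Fin N → ℂ} (h1 : ∀ i, y i ∉ L.lattice) :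
    AnalyticAt ℂ (fun y => (Mat L y).det) y :=
  analyticAt_det fun i k => (analyticAt_wp L k (h1 i)).comp_of_eq (analyticAt_coord i y) rfl

lemma Adm.ev {y : Fin N → ℂ} (h : Adm L y) : ∀ᶠ y' in 𝓝 y, Adm L y' := by
  refine (eventually_all.mpr fun i => ev_gen L (analyticAt_coord i y).continuousAt (h.1 i)).and
    ((eventually_all.mpr fun i => eventually_all.mpr fun j => ?_).and
      ((analyticAt_detM L h.1).continuousAt.eventually_ne h.2.2))
  rcases eq_or_ne i j with rfl | hij
  · simp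
  · filter_upwards [ev_gen L ((analyticAt_Yx i y).sub (analyticAt_Yx j y)).continuousAt
      (h.2.1 i j hij)] with y' hy' _ using hy'

lemma uu_ev {y : Fin N → ℂ} (h : Adm L y) (k : Fin N) :
    (fun y => uu L y k) =ᶠ[𝓝 y] fun y => UU L k.succ y * (UU L 0 y)⁻¹ := by
  filter_upwards [h.ev] with y' hy' using uu_eq L hy'.1 hy'.2.2 k

lemma analyticAt_uu {y : Fin N → ℂ} (h : Adm L y) (k : Fin N) :
    AnalyticAt ℂ (fun y => uu L y k) y :=
  ((analyticAt_UU L _ y).mul ((analyticAt_UU L 0 y).inv (U0_ne L h.1 h.2.2))).congr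
    (uu_ev L h k).symm

lemma analyticAt_Jac {y : Fin N → ℂ} (h : Adm L y) : AnalyticAt ℂ (Jac L) y :=
  analyticAt_det fun k i => analyticAt_dd (analyticAt_uu L h k) _

/-- `F'(y_i) U_0` -/
def rho (i : Fin N) (y : Fin N → ℂ) : ℂ :=
  (∏ m ∈ Finset.univ.erase i.castSucc, sig L (y i - Yx y m)) * (sig L (y i) ^ (N + 1))⁻¹

lemma Yx_cast (y : Fin N → ℂ) (i : Fin N) : Yx y i.castSucc = y i := by simp [Yx]

lemma HD_Ft_node {y : Fin N → ℂ} (h : Adm L y) (i : Fin N) (v : Fin N → ℂ) :
    HD (Ft L (y i)) y v (-(v i * rho L i y)) := by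
  have hA : HD (fun y' => sig L (y i - y' i)) y v (1 * (0 - v i)) :=
    ((HD.const (y i)).sub (HD.coord i)).comp1 (by simpa using hasDerivAt_sig_zero L)
  have hB : AnalyticAt ℂ (fun y' => (∏ m ∈ Finset.univ.erase i.castSucc,
      sig L (y i - Yx y' m)) * (sig L (y i) ^ (N + 1))⁻¹) y :=
    (Finset.analyticAt_fun_prod _ fun m _ =>
      (analyticAt_sig L _).comp (analyticAt_const.sub (analyticAt_Yx m y))).mul analyticAt_const
  have := hA.mul (HD.of_diff hB.differentiableAt v)
  refine (this.congr (.of_forall fun y' => ?_)).val ?_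
  · simp only [Ft]
    rw [← Finset.mul_prod_erase _ _ (Finset.mem_univ i.castSucc), Yx_cast]
    ring
  · simp [rho, sig_zero]

lemma Mat_mul_Du {y : Fin N → ℂ} (h : Adm L y) :
    Mat L y * (Matrix.of fun k i => pd i (fun y' => uu L y' k) y) =
      Matrix.diagonal fun i => rho L i y * (UU L 0 y)⁻¹ := by
  ext i j
  have hU := U0_ne L h.1 h.2.2
  have h1 : HD (fun y' => UU L 0 y' * (1 - ∑ k : Fin N, wp L k (y i) * uu L y' k)) y
      (Pi.single j 1) _ :=
    (HD.of_diff (analyticAt_UU L 0 y).differentiableAt _).mul ((HD.const 1).sub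
      (HD.sum _ fun k _ => (HD.of_diff (analyticAt_uu L h k).differentiableAt _).const_mul _))
  have h2 := (h1.congr (g := Ft L (y i)) (by
    filter_upwards [h.ev] with y' hy'
    simp only [Ft_eq' L (h.1 i), U_eq L hy'.1 hy'.2.2, mul_sub, Finset.mul_sum]
    congr 1
    · ring
    · exact Finset.sum_congr rfl fun k _ => by ring)).2
  rw [(HD_Ft_node L h i _).2] at h2
  have h3 : (1 - ∑ k : Fin N, wp L k (y i) * uu L y k) = 0 := by
    have := Ft_eq' L (h.1 i) y
    simp only [Ft_self, U_eq L h.1 h.2.2, mul_left_comm (wp L _ _), ← Finset.mul_sum] at this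
    exact (mul_eq_zero.mp (by linear_combination -this)).resolve_left hU
  rw [h3] at h2
  simp only [Matrix.mul_apply, Mat_apply, Matrix.of_apply, pd_eq, Matrix.diagonal_apply]
  rw [Pi.single_apply] at h2
  split_ifs at h2 ⊢
  · field_simp; linear_combination h2
  · exact (mul_eq_zero.mp (by linear_combination h2)).resolve_left hU

lemma det_mul_Jac {y : Fin N → ℂ} (h : Adm L y) :
    (Mat L y).det * Jac L y = ∏ i, rho L i y * (UU L 0 y)⁻¹ := by
  rw [Jac, ← Matrix.det_mul, Mat_mul_Du L h, Matrix.det_diagonal]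

lemma rho_ne {y : Fin N → ℂ} (h : Adm L y) (i : Fin N) : rho L i y ≠ 0 := by
  refine mul_ne_zero (Finset.prod_ne_zero_iff.mpr fun m hm => sig_ne L ?_)
    (inv_ne_zero (pow_ne_zero _ (sig_ne L (h.1 i))))
  rw [← Yx_cast y i]
  exact h.2.1 _ _ (Finset.ne_of_mem_erase hm).symm

lemma Jac_ne {y : Fin N → ℂ} (h : Adm L y) : Jac L y ≠ 0 := by
  intro e
  have := det_mul_Jac L h
  rw [e, mul_zero] at this
  exact Finset.prod_ne_zero_iff.mpr (fun i _ => mul_ne_zero (rho_ne L h i)
    (inv_ne_zero (U0_ne L h.1 h.2.2))) this.symm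

lemma HD.update {f : (Fin N → ℂ) → ℂ} {y : Fin N → ℂ} {j : Fin N} {a : ℂ}
    (h : HD f y (Pi.single j 1) a) : HasDerivAt (fun t => f (Function.update y j t)) a (y j) := by
  have h1 : HasFDerivAt f (fderiv ℂ f y) (Function.update y j (y j)) := by
    rw [Function.update_eq_self]; exact h.1.hasFDerivAt
  have := h1.comp_hasDerivAt (y j) (hasDerivAt_update y j (y j))
  rw [← h.2]
  exact this

lemma swap_det {y : Fin N → ℂ} (h : Adm L y) (j : Fin N) {z : ℂ}
    (h' : Adm L (Function.update y j z)) :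
    (Mat L (Function.update y j z)).det * (Ft L (y j) (Function.update y j z) * UU L 0 y) =
      - ((Mat L y).det * (Ft L z y * UU L 0 (Function.update y j z))) := by
  set y' := Function.update y j z with hy'
  have hz : z ∉ L.lattice := by simpa [hy'] using h'.1 j
  set r : Fin N → ℂ := fun k => wp L k z with hr
  set lam : Fin N → ℂ := Matrix.vecMul r (Mat L y)⁻¹ with hlam
  have h1 : ∑ i, lam i • Mat L y i = r := by
    have : Matrix.vecMul lam (Mat L y) = r := by
      rw [hlam, Matrix.vecMul_vecMul, Matrix.nonsing_inv_mul _ (isUnit_iff_ne_zero.mpr h.2.2),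
        Matrix.vecMul_one]
    rw [← this]
    ext k
    simp [Matrix.vecMul, dotProduct]
  have h2 : Mat L y' = (Mat L y).updateRow j r := by
    ext i k
    rcases eq_or_ne i j with rfl | hij
    · simp [Mat_apply, hy', hr]
    · simp [Mat_apply, hy', hij]
  have h3 : (Mat L y').det = lam j * (Mat L y).det := by
    rw [h2, ← h1, Matrix.det_updateRow_sum, smul_eq_mul]
  have h4 : ∀ i, i ≠ j → Ft L (y i) y' = 0 := by
    intro i hij
    have := Ft_self L y' i
    rwa [hy', Function.update_of_ne hij] at this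
  have h5 : ∀ (x : Fin N → ℂ), ∑ k : Fin N, wp L k z * UU L k.succ x =
      ∑ i, lam i * (UU L 0 x - Ft L (y i) x) := by
    intro x
    simp only [Ft_eq' L (h.1 _), sub_sub_cancel, Finset.mul_sum]
    rw [Finset.sum_comm]
    refine Finset.sum_congr rfl fun k _ => ?_
    have := congrFun h1 k
    simp only [Finset.sum_apply, Pi.smul_apply, smul_eq_mul, Mat_apply, hr] at this
    rw [← this, Finset.sum_mul]
    exact Finset.sum_congr rfl fun i _ => by ring
  have h6 := Ft_eq' L hz y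
  have h7 := Ft_eq' L hz y'
  have h8 : Ft L z y' = 0 := by simpa [hy'] using Ft_self L y' j
  rw [h5] at h6 h7
  simp only [Ft_self, sub_zero, ← Finset.sum_mul] at h6
  simp only [mul_sub, Finset.sum_sub_distrib, ← Finset.sum_mul] at h7
  rw [Finset.sum_eq_single j (f := fun i => lam i * Ft L (y i) y')
    (fun i _ hij => by rw [h4 i hij, mul_zero]) (by simp), h8] at h7
  rw [h3, h6]
  linear_combination (-(Mat L y).det * UU L 0 y) * h7

def AA (y : Fin N → ℂ) (j : Fin N) (z : ℂ) : ℂ :=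
  (∏ m ∈ Finset.univ.erase j, sig L (z - y m)) / sig L z ^ (N + 1)

lemma Ft_fac (y : Fin N → ℂ) (j : Fin N) (z : ℂ) :
    Ft L z y = sig L (z - y j) * sig L (z + ∑ i, y i) * AA L y j z := by
  rw [Ft, Fin.prod_univ_castSucc, ← Finset.mul_prod_erase _ _ (Finset.mem_univ j), AA]
  simp only [Yx, Fin.snoc_castSucc, Fin.snoc_last, sub_neg_eq_add]
  ring

lemma dd_det {y : Fin N → ℂ} (h : Adm L y) (j : Fin N) :
    dd (Pi.single j 1) (fun y => (Mat L y).det) y =
      (∑ m : Fin N, zeta L (y j - y m) - (N + 1) * zeta L (y j)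
        + dd (Pi.single j 1) (UU L 0) y * (UU L 0 y)⁻¹) * (Mat L y).det := by
  have hD := (HD.of_diff (analyticAt_detM L h.1).differentiableAt (Pi.single j 1)).update
  have hU := (HD.of_diff (analyticAt_UU L 0 y).differentiableAt (Pi.single j 1)).update
  have hne : ∀ m, m ≠ j → y j - y m ∉ L.lattice := fun m hm => by
    simpa [Yx_cast] using h.2.1 j.castSucc m.castSucc (by simpa using hm.symm)
  have hlast : y j + ∑ i, y i ∉ L.lattice := by
    simpa [Yx] using h.2.1 j.castSucc (Fin.last N) (Fin.castSucc_ne_last j)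
  have hA : HasDerivAt (AA L y j)
      ((∑ m : Fin N, zeta L (y j - y m) - (N + 1) * zeta L (y j)) * AA L y j (y j)) (y j) := by
    have h1 := HasDerivAt.fun_finsetProd (u := Finset.univ.erase j)
      (f := fun m z => sig L (z - y m)) (fun m hm =>
        (hasDerivAt_sig L (hne m (Finset.ne_of_mem_erase hm))).comp_sub_const (y j) (y m))
    have h2 := h1.div ((hasDerivAt_sig L (h.1 j)).pow (N + 1)) (pow_ne_zero _ (sig_ne L (h.1 j)))
    refine hd_congr h2 (fun _ => rfl) ?_
    have h3 : ∑ m ∈ Finset.univ.erase j, (∏ i ∈ (Finset.univ.erase j).erase m, sig L (y j - y i)) •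
        (zeta L (y j - y m) * sig L (y j - y m)) =
        (∑ m, zeta L (y j - y m)) * ∏ i ∈ Finset.univ.erase j, sig L (y j - y i) := by
      rw [← Finset.add_sum_erase _ _ (Finset.mem_univ j), sub_self, zeta_zero, zero_add,
        Finset.sum_mul]
      refine Finset.sum_congr rfl fun m hm => ?_
      rw [← Finset.prod_erase_mul _ _ hm, smul_eq_mul]; ring
    rw [h3]
    have := sig_ne L (h.1 j)
    simp only [AA, Pi.pow_apply, Nat.add_one_sub_one]
    push_cast
    field_simp
    ring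
  have hAne : AA L y j (y j) ≠ 0 :=
    div_ne_zero (Finset.prod_ne_zero_iff.mpr fun m hm =>
      sig_ne L (hne m (Finset.ne_of_mem_erase hm))) (pow_ne_zero _ (sig_ne L (h.1 j)))
  have hcont : Tendsto (fun t => Function.update y j t) (𝓝 (y j)) (𝓝 y) := by
    have := (hasDerivAt_update y j (y j)).continuousAt.tendsto
    rwa [Function.update_eq_self] at this
  have hev : (fun t => (Mat L (Function.update y j t)).det * (AA L y j (y j) * UU L 0 y)) =ᶠ[𝓝 (y j)]
      fun t => (Mat L y).det * (AA L y j t * UU L 0 (Function.update y j t)) := by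
    have e1 : ∀ᶠ t in 𝓝 (y j), t + ∑ i, y i ∉ L.lattice :=
      (continuous_add_right _).continuousAt.preimage_mem_nhds
        (L.isClosed_lattice.isOpen_compl.mem_nhds hlast)
    filter_upwards [hcont.eventually h.ev, e1,
      eventually_nhdsWithin_iff.mp (ev_notMem L (y j) (y j))] with t ht ht1 ht2
    rcases eq_or_ne t (y j) with rfl | hne'
    · simp
    have := swap_det L h j ht
    rw [Ft_fac L _ j, Ft_fac L _ j] at this
    have e2 : y j + ∑ i, Function.update y j t i = t + ∑ i, y i := by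
      rw [Finset.sum_update_of_mem (Finset.mem_univ j),
        ← Finset.add_sum_erase _ _ (Finset.mem_univ j), Finset.sdiff_singleton_eq_erase]
      ring
    have e3 : AA L (Function.update y j t) j (y j) = AA L y j (y j) := by
      simp only [AA]
      congr 1
      exact Finset.prod_congr rfl fun m hm => by
        rw [Function.update_of_ne (Finset.ne_of_mem_erase hm)]
    rw [e2, e3, Function.update_self, show y j - t = -(t - y j) by ring, sig_neg] at this
    have e4 := mul_ne_zero (sig_ne L (ht2 hne')) (sig_ne L ht1)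
    apply mul_left_cancel₀ e4
    linear_combination -this
  have := (hD.mul_const _).unique (((hA.mul hU).const_mul _).congr_of_eventuallyEq hev)
  have hU0 := U0_ne L h.1 h.2.2
  simp only [Function.update_eq_self] at this
  apply mul_right_cancel₀ (mul_ne_zero hAne hU0)
  rw [this]
  field_simp

lemma HD_rho {y : Fin N → ℂ} (h : Adm L y) (i : Fin N) (v : Fin N → ℂ) :
    HD (rho L i) y v ((∑ m, zz L y i.castSucc m * (v i - Yx v m)
      - (N + 1) * zeta L (y i) * v i) * rho L i y) := by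
  have h1 : HD (fun y => ∏ m ∈ Finset.univ.erase i.castSucc, sig L (y i - Yx y m)) y v _ :=
    HD.prod (A := fun m => zz L y i.castSucc m * (v i - Yx v m)) _ fun m hm =>
      (((HD.coord i).sub (HD.Yx m)).comp1 (hasDerivAt_sig L (by
        rw [← Yx_cast y i]; exact h.2.1 _ _ (Finset.ne_of_mem_erase hm).symm))).val
        (by rw [zz, Yx_cast]; ring)
  have h2 := (HD.coord (y := y) (v := v) i).comp1
    (((hasDerivAt_sig L (h.1 i)).pow (N + 1)).inv (pow_ne_zero _ (sig_ne L (h.1 i))))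
  refine (h1.mul h2).val ?_
  rw [← Finset.add_sum_erase _ _ (Finset.mem_univ i.castSucc), Yx_cast, sub_self, mul_zero,
    zero_add, rho]
  have := sig_ne L (h.1 i)
  simp only [Pi.pow_apply, Pi.inv_apply, Nat.add_one_sub_one]
  push_cast
  field_simp
  ring

theorem dd_Jac {y : Fin N → ℂ} (h : Adm L y) (v : Fin N → ℂ) :
    dd v (Jac L) y = (∑ m, bb L m y * Yx v m - (N + 1) * (dd v (UU L 0) y * (UU L 0 y)⁻¹))
      * Jac L y := by
  have hU0 := U0_ne L h.1 h.2.2
  have h1 := (HD.of_diff (analyticAt_detM L h.1).differentiableAt v).mul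
    (HD.of_diff (analyticAt_Jac L h).differentiableAt v)
  have h2 : HD (fun y => ∏ i, rho L i y * (UU L 0 y)⁻¹) y v _ :=
    HD.prod (A := fun i => (∑ m, zz L y i.castSucc m * (v i - Yx v m)
      - (N + 1) * zeta L (y i) * v i) - dd v (UU L 0) y * (UU L 0 y)⁻¹) Finset.univ fun i _ =>
      ((HD_rho L h i v).mul ((HD.of_diff (analyticAt_UU L 0 y).differentiableAt v).comp1
        (hasDerivAt_inv hU0))).val (by field_simp; ring)
  have h3 := (h2.congr (g := fun y => (Mat L y).det * Jac L y)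
    (by filter_upwards [h.ev] with y' hy' using det_mul_Jac L hy')).2
  rw [h1.2] at h3
  have h4 : dd v (fun y => (Mat L y).det) y =
      (∑ j, v j * (∑ m : Fin N, zeta L (y j - y m) - (N + 1) * zeta L (y j))
        + dd v (UU L 0) y * (UU L 0 y)⁻¹) * (Mat L y).det := by
    rw [dd_eq_sum, dd_eq_sum v (UU L 0)]
    simp only [pd_eq, dd_det L h, Finset.sum_mul, ← Finset.sum_add_distrib]
    exact Finset.sum_congr rfl fun j _ => by ring
  have h5 : ∑ i : Fin N, (∑ m, zz L y i.castSucc m * (v i - Yx v m) - (N + 1) * zeta L (y i) * v i)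
      = ∑ m, bb L m y * Yx v m
        + ∑ j, v j * (∑ m : Fin N, zeta L (y j - y m) - (N + 1) * zeta L (y j)) := by
    have e1 : ∑ m, bb L m y * Yx v m = - ∑ i, ∑ m, zz L y i m * Yx v m := by
      rw [Finset.sum_comm, ← Finset.sum_neg_distrib]
      refine Finset.sum_congr rfl fun m _ => ?_
      rw [bb, Finset.sum_mul, ← Finset.sum_neg_distrib]
      exact Finset.sum_congr rfl fun i _ => by rw [zz_anti]; ring
    have e2 : ∑ m, zz L y (Fin.last N) m * Yx v m =
        - ∑ i : Fin N, zz L y i.castSucc (Fin.last N) * v i := by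
      rw [Fin.sum_univ_castSucc, ← Finset.sum_neg_distrib]
      rw [show zz L y (Fin.last N) (Fin.last N) = 0 by simp [zz, zeta_zero], zero_mul, add_zero]
      exact Finset.sum_congr rfl fun i _ => by rw [zz_anti, Yx_cast]; ring
    have e3 : ∀ i : Fin N, ∑ m, zz L y i.castSucc m =
        ∑ m : Fin N, zeta L (y i - y m) + zz L y i.castSucc (Fin.last N) := by
      intro i
      rw [Fin.sum_univ_castSucc]
      simp only [zz, Yx_cast]
    rw [e1, Fin.sum_univ_castSucc (f := fun i => ∑ m, zz L y i m * Yx v m), e2]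
    simp only [mul_sub, Finset.sum_sub_distrib, ← Finset.sum_mul]
    simp only [e3, add_mul, Finset.sum_add_distrib, mul_comm (v _)]
    ring
  rw [h4, Finset.sum_sub_distrib, h5, ← det_mul_Jac L h] at h3
  simp only [Finset.sum_const, Finset.card_univ, Fintype.card_fin, nsmul_eq_mul] at h3
  apply mul_left_cancel₀ h.2.2
  linear_combination h3

end Pool.Agent.H.MP_88847a_mp
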