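import Pool.Agent.H.MP_88847a_mp.E

open Filter Topology PeriodPair Set

noncomputable section

namespace Pool.Agent.H.MP_88847a_mp

variable (L : PeriodPair) {N : ℕ}

def LL (i : Fin (N + 1)) (y : Fin N → ℂ) : ℂ := bb L i y - (N + 1) * (U1 L 0 i y * (UU L 0 y)⁻¹)

lemma dd_Jac_vv {y : Fin N → ℂ} (h : Adm L y) (i : Fin (N + 1)) :
    dd (vv i) (Jac L) y = LL L i y * Jac L y := by
  rw [dd_Jac L h, LL, U1]
  simp only [Yx_vv, mul_sub, Finset.sum_sub_distrib, ← Finset.sum_mul, sum_bb]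
  simp

lemma analyticAt_pd {f : (Fin N → ℂ) → ℂ} {y : Fin N → ℂ} (hf : AnalyticAt ℂ f y) (k : Fin N) :
    AnalyticAt ℂ (pd k f) y := analyticAt_dd hf _

lemma lap_eq {f : (Fin N → ℂ) → ℂ} {y : Fin N → ℂ} (hf : AnalyticAt ℂ f y) :
    ∑ i, dd (vv i) (dd (vv i) f) y =
      (N : ℂ) / (N + 1) * ∑ i, pd i (pd i f) y
        - 1 / (N + 1) * ∑ i, ∑ j with j ≠ i, pd i (pd j f) y := by
  have hn := nn_ne (N := N)
  have h1 : ∀ i, dd (vv i) (dd (vv i) f) y = ∑ j, ∑ k, vv i j * vv i k * pd j (pd k f) y := by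
    intro i
    rw [show dd (vv i) f = fun y => ∑ k, vv i k * pd k f y from funext (dd_eq_sum _ f),
      (HD.sum _ fun k _ => (HD.of_diff (analyticAt_pd hf k).differentiableAt (vv i)).const_mul
        (vv i k)).2, Finset.sum_comm]
    refine Finset.sum_congr rfl fun k _ => ?_
    rw [dd_eq_sum, Finset.mul_sum]
    exact Finset.sum_congr rfl fun j _ => by ring
  have h2 : ∀ j k : Fin N, ∑ i, vv i j * vv i k = (if j = k then 1 else 0) - 1 / (N + 1 : ℂ) := by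
    intro j k
    simp only [vv, sub_mul, mul_sub, Finset.sum_sub_distrib, ite_mul, mul_ite]
    simp [eq_comm]
    field_simp
    ring
  simp only [h1]
  rw [Finset.sum_comm]
  simp only [Finset.mul_sum, ← Finset.sum_sub_distrib]
  refine Finset.sum_congr rfl fun j _ => ?_
  rw [Finset.sum_comm]
  simp only [← Finset.sum_mul, h2, sub_mul, Finset.sum_sub_distrib, ite_mul, one_mul, zero_mul,
    Finset.sum_ite_eq, Finset.mem_univ, if_true]
  rw [Finset.filter_ne', ← Finset.add_sum_erase _ _ (Finset.mem_univ j)]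
  field_simp
  ring

lemma pot_eq (y : Fin N → ℂ) :
    ∑ i, ∑ j with j ≠ i, ℘[L] (Yx y i - Yx y j) = ∑ i, ∑ j, ww L y i j := by
  refine Finset.sum_congr rfl fun i _ => ?_
  rw [Finset.filter_ne', ← Finset.add_sum_erase _ _ (Finset.mem_univ i), ww_diag, zero_add]
  rfl

lemma Hop_eq (β : ℂ) {f : (Fin N → ℂ) → ℂ} {y : Fin N → ℂ} (hf : AnalyticAt ℂ f y) :
    Hop L β f y = - ∑ i, dd (vv i) (dd (vv i) f) y
      + β * (β - 1) * (∑ i, ∑ j, ww L y i j) * f y := by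
  rw [Hop, lap_eq hf, pot_eq]; ring

def Du (k : Fin N) (i : Fin (N + 1)) (y : Fin N → ℂ) : ℂ := dd (vv i) (fun y => uu L y k) y

lemma analyticAt_uu' {y : Fin N → ℂ} (h : Adm L y) : AnalyticAt ℂ (uu L) y :=
  analyticAt_pi_iff.mpr fun k => analyticAt_uu L h k

lemma HD_LL {y : Fin N → ℂ} (h : Adm L y) (i : Fin (N + 1)) :
    HD (LL L i) y (vv i) (- ∑ j, ww L y i j - (N + 1) *
      (dd (vv i) (dd (vv i) (UU L 0)) y * (UU L 0 y)⁻¹ - (U1 L 0 i y * (UU L 0 y)⁻¹) ^ 2)) := by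
  have hU0 := U0_ne L h.1 h.2.2
  refine ((HD_bb L h.2.1 i).sub (((HD.of_diff (analyticAt_dd (analyticAt_UU L 0 y)
    (vv i)).differentiableAt (vv i)).mul ((HD.of_diff (analyticAt_UU L 0 y).differentiableAt
      (vv i)).comp1 (hasDerivAt_inv hU0))).const_mul ((N : ℂ) + 1))).val ?_
  simp only [U1]
  field_simp
  ring

lemma core0 {y : Fin N → ℂ} (h : Adm L y) {g : (Fin N → ℂ) → ℂ} {t : ℂ}
    (hg : ∀ᶠ y' in 𝓝 y, ∀ i, HD g y' (vv i) (t * LL L i y' * g y'))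
    {φ : (Fin N → ℂ) → ℂ} (hφ : AnalyticAt ℂ φ (uu L y)) :
    ∑ i, dd (vv i) (dd (vv i) (fun y' => g y' * φ (uu L y'))) y =
      g y * (∑ k, ∑ l, (∑ i, Du L k i y * Du L l i y) * pd k (pd l φ) (uu L y)
        + ∑ k, (2 * t * ∑ i, LL L i y * Du L k i y + ∑ i, dd (vv i) (Du L k i) y)
            * pd k φ (uu L y)
        + (t ^ 2 * ∑ i, LL L i y ^ 2 + t * ∑ i, dd (vv i) (LL L i) y) * φ (uu L y)) := by
  have hφev : ∀ᶠ y' in 𝓝 y, AnalyticAt ℂ φ (uu L y') :=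
    (analyticAt_uu' L h).continuousAt.tendsto.eventually hφ.eventually_analyticAt
  have hu : ∀ y' : Fin N → ℂ, Adm L y' → ∀ i k, HD (fun y => uu L y k) y' (vv i) (Du L k i y') :=
    fun y' h' i k => HD.of_diff (analyticAt_uu L h' k).differentiableAt _
  have h1 : ∀ i, dd (vv i) (dd (vv i) (fun y' => g y' * φ (uu L y'))) y =
      g y * (∑ k, ∑ l, (Du L k i y * Du L l i y) * pd k (pd l φ) (uu L y)
        + ∑ k, (2 * t * (LL L i y * Du L k i y) + dd (vv i) (Du L k i) y) * pd k φ (uu L y)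
        + (t ^ 2 * LL L i y ^ 2 + t * dd (vv i) (LL L i) y) * φ (uu L y)) := by
    intro i
    have e1 : dd (vv i) (fun y' => g y' * φ (uu L y')) =ᶠ[𝓝 y] fun y' =>
        t * LL L i y' * g y' * φ (uu L y') + g y' * ∑ k, Du L k i y' * pd k φ (uu L y') := by
      filter_upwards [hg, hφev, h.ev] with y' h1 h2 h3
      exact ((h1 i).mul (HD.compv h2.differentiableAt (hu y' h3 i))).2
    have hgy := hg.self_of_nhds i
    have hL := HD.of_diff (HD_LL L h i).1 (vv i)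
    have hφu := HD.compv hφ.differentiableAt (hu y h i)
    have hS : HD (fun y' => ∑ k, Du L k i y' * pd k φ (uu L y')) y (vv i) _ :=
      HD.sum _ fun k _ => (HD.of_diff (analyticAt_dd (analyticAt_uu L h k)
        (vv i)).differentiableAt (vv i)).mul
        (HD.compv (analyticAt_pd hφ k).differentiableAt (hu y h i))
    rw [(((((hL.const_mul t).mul hgy).mul hφu).add (hgy.mul hS)).congr e1).2]
    have e2 : ∑ k, ∑ l, (Du L k i y * Du L l i y) * pd k (pd l φ) (uu L y) =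
        ∑ k, Du L k i y * ∑ l, Du L l i y * pd l (pd k φ) (uu L y) := by
      rw [Finset.sum_comm]
      simp only [Finset.mul_sum]
      exact Finset.sum_congr rfl fun k _ => Finset.sum_congr rfl fun l _ => by ring
    rw [e2]
    simp only [add_mul, Finset.sum_add_distrib, mul_assoc, ← Finset.mul_sum]
    have e3 : ∀ k, dd (vv i) (fun y => uu L y k) = Du L k i := fun k => rfl
    simp only [e3]
    ring
  simp only [h1]
  rw [← Finset.mul_sum]
  congr 1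
  simp only [Finset.sum_add_distrib, ← Finset.sum_mul, ← Finset.mul_sum]
  congr 2
  · rw [Finset.sum_comm]
    refine Finset.sum_congr rfl fun k _ => ?_
    rw [Finset.sum_comm]
    simp only [Finset.sum_mul]
  · rw [Finset.sum_comm]
    refine Finset.sum_congr rfl fun k _ => ?_
    simp only [Finset.sum_add_distrib, ← Finset.sum_mul, ← Finset.mul_sum]

def Rh (k l : Fin (N + 1)) (y : Fin N → ℂ) : ℂ := RR L k l y * ((UU L 0 y)⁻¹) ^ 2

lemma Rh_symm (k l : Fin (N + 1)) (y : Fin N → ℂ) : Rh L k l y = Rh L l k y := by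
  simp only [Rh, RR, mul_comm (U1 L k _ y)]; ring

lemma Du_eq {y : Fin N → ℂ} (h : Adm L y) (k i) :
    Du L k i y = U1 L k.succ i y * (UU L 0 y)⁻¹ - UU L k.succ y * (U1 L 0 i y * ((UU L 0 y)⁻¹) ^ 2) := by
  have hU0 := U0_ne L h.1 h.2.2
  rw [Du, (((HD.of_diff (analyticAt_UU L k.succ y).differentiableAt (vv i)).mul
    ((HD.of_diff (analyticAt_UU L 0 y).differentiableAt (vv i)).comp1
      (hasDerivAt_inv hU0))).congr (uu_ev L h k)).2]
  simp only [U1]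
  field_simp
  ring

lemma dd_Du {y : Fin N → ℂ} (h : Adm L y) (k i) :
    dd (vv i) (Du L k i) y = dd (vv i) (dd (vv i) (UU L k.succ)) y * (UU L 0 y)⁻¹
      - 2 * (U1 L k.succ i y * U1 L 0 i y) * ((UU L 0 y)⁻¹) ^ 2
      - UU L k.succ y * ((UU L 0 y)⁻¹) ^ 2 * dd (vv i) (dd (vv i) (UU L 0)) y
      + 2 * UU L k.succ y * ((UU L 0 y)⁻¹) ^ 3 * (U1 L 0 i y * U1 L 0 i y) := by
  have hU0 := U0_ne L h.1 h.2.2
  have a0 := HD.of_diff (analyticAt_UU L 0 y).differentiableAt (vv i)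
  have ak := HD.of_diff (analyticAt_UU L k.succ y).differentiableAt (vv i)
  have b0 := HD.of_diff (analyticAt_dd (analyticAt_UU L 0 y) (vv i)).differentiableAt (vv i)
  have bk := HD.of_diff (analyticAt_dd (analyticAt_UU L k.succ y) (vv i)).differentiableAt (vv i)
  have c0 := a0.comp1 (hasDerivAt_inv hU0)
  rw [(((bk.mul c0).sub (ak.mul (b0.mul (c0.mul c0)))).congr (g := Du L k i) (by
    filter_upwards [h.ev] with y' hy'
    rw [Du_eq L hy', sq]; rfl)).2]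
  simp only [U1]
  field_simp
  ring

lemma S2 {y : Fin N → ℂ} (h : Adm L y) (k l) : ∑ i, Du L k i y * Du L l i y =
    Rh L k.succ l.succ y - uu L y k * Rh L 0 l.succ y - Rh L k.succ 0 y * uu L y l
      + Rh L 0 0 y * (uu L y k * uu L y l) := by
  have hU0 := U0_ne L h.1 h.2.2
  have e : ∀ i, Du L k i y * Du L l i y =
      (U1 L k.succ i y * U1 L l.succ i y) * ((UU L 0 y)⁻¹) ^ 2
      - (U1 L 0 i y * U1 L l.succ i y) * (UU L k.succ y * ((UU L 0 y)⁻¹) ^ 3)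
      - (U1 L k.succ i y * U1 L 0 i y) * (UU L l.succ y * ((UU L 0 y)⁻¹) ^ 3)
      + (U1 L 0 i y * U1 L 0 i y) * (UU L k.succ y * UU L l.succ y * ((UU L 0 y)⁻¹) ^ 4) := by
    intro i; rw [Du_eq L h, Du_eq L h]; ring
  simp only [e, Finset.sum_add_distrib, Finset.sum_sub_distrib, ← Finset.sum_mul, Rh, RR,
    uu_eq L h.1 h.2.2]
  generalize ∑ i, U1 L 0 i y * U1 L 0 i y = A
  field_simp
  ring

lemma S1a {y : Fin N → ℂ} (h : Adm L y) (k) : ∑ i, dd (vv i) (Du L k i) y =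
    -2 * (Rh L k.succ 0 y - uu L y k * Rh L 0 0 y) := by
  have hU0 := U0_ne L h.1 h.2.2
  simp only [dd_Du L h, Finset.sum_add_distrib, Finset.sum_sub_distrib, ← Finset.sum_mul,
    ← Finset.mul_sum, Rh, RR, uu_eq L h.1 h.2.2, U2]
  generalize ∑ i, U1 L 0 i y * U1 L 0 i y = A
  field_simp
  ring

lemma S1b {y : Fin N → ℂ} (h : Adm L y) (k) : ∑ i, LL L i y * Du L k i y =
    -(N + 1) * (Rh L k.succ 0 y - uu L y k * Rh L 0 0 y) := by
  have hU0 := U0_ne L h.1 h.2.2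
  have e : ∀ i, LL L i y * Du L k i y =
      (bb L i y * U1 L k.succ i y) * (UU L 0 y)⁻¹
      - (bb L i y * U1 L 0 i y) * (UU L k.succ y * ((UU L 0 y)⁻¹) ^ 2)
      - (U1 L k.succ i y * U1 L 0 i y) * ((N + 1) * ((UU L 0 y)⁻¹) ^ 2)
      + (U1 L 0 i y * U1 L 0 i y) * ((N + 1) * UU L k.succ y * ((UU L 0 y)⁻¹) ^ 3) := by
    intro i; rw [Du_eq L h, LL]; ring
  have h1 := H1 L h.2.1 0
  have h2 := H1 L h.2.1 k.succ
  simp only [e, Finset.sum_add_distrib, Finset.sum_sub_distrib, ← Finset.sum_mul, Rh, RR,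
    uu_eq L h.1 h.2.2]
  generalize ∑ i, U1 L 0 i y * U1 L 0 i y = A
  field_simp
  linear_combination (UU L 0 y * UU L k.succ y) * h1 - UU L 0 y ^ 2 * h2

lemma S0a {y : Fin N → ℂ} (h : Adm L y) : ∑ i, LL L i y ^ 2 =
    ∑ i, ∑ j, ww L y i j + (N + 1) ^ 2 * Rh L 0 0 y := by
  have hU0 := U0_ne L h.1 h.2.2
  have e : ∀ i, LL L i y ^ 2 = bb L i y ^ 2
      - (bb L i y * U1 L 0 i y) * (2 * (N + 1) * (UU L 0 y)⁻¹)
      + (U1 L 0 i y * U1 L 0 i y) * ((N + 1) ^ 2 * ((UU L 0 y)⁻¹) ^ 2) := by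
    intro i; rw [LL]; ring
  have h1 := H1 L h.2.1 0
  simp only [e, Finset.sum_add_distrib, Finset.sum_sub_distrib, ← Finset.sum_mul, Rh, RR,
    H0 L h.2.1]
  generalize ∑ i, U1 L 0 i y * U1 L 0 i y = A
  field_simp
  linear_combination (2 * (N + 1) * UU L 0 y) * h1

lemma S0b {y : Fin N → ℂ} (h : Adm L y) : ∑ i, dd (vv i) (LL L i) y =
    - ∑ i, ∑ j, ww L y i j + (N + 1) * Rh L 0 0 y := by
  have hU0 := U0_ne L h.1 h.2.2
  simp only [(HD_LL L h _).2, mul_pow, sq (U1 L 0 _ y), Finset.sum_sub_distrib,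
    Finset.sum_neg_distrib, ← Finset.sum_mul, ← Finset.mul_sum, Rh, RR, U2]
  generalize ∑ i, U1 L 0 i y * U1 L 0 i y = A
  field_simp
  ring

lemma gauge {y : Fin N → ℂ} (h : Adm L y) (r : ℕ) {ℓ : (Fin N → ℂ) → ℂ} (hℓ : AnalyticAt ℂ ℓ y)
    (he : ∀ᶠ y' in 𝓝 y, Complex.exp (ℓ y') = Jac L y' ^ r) (s : ℂ) :
    ∀ᶠ y' in 𝓝 y, ∀ i, HD (fun y' => Complex.exp (s * ℓ y')) y' (vv i)
      (s * r * LL L i y' * Complex.exp (s * ℓ y')) := by
  filter_upwards [h.ev, hℓ.eventually_analyticAt, he.eventually_nhds] with y' h' hℓ' he' i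
  have h0 := HD.of_diff hℓ'.differentiableAt (vv i)
  have h1 := h0.comp1 (Complex.hasDerivAt_exp _)
  have h2 : HD (fun y => ∏ _j : Fin r, Jac L y) y' (vv i) _ :=
    HD.prod (A := fun _ => LL L i y') _ fun _ _ =>
      (HD.of_diff (analyticAt_Jac L h').differentiableAt (vv i)).val (dd_Jac_vv L h' i).symm
  simp only [Finset.prod_const, Finset.sum_const, Finset.card_univ, Fintype.card_fin,
    nsmul_eq_mul] at h2
  have h3 := (h2.congr he').2
  rw [h1.2, ← he'.self_of_nhds] at h3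
  have h4 : dd (vv i) ℓ y' = r * LL L i y' :=
    mul_left_cancel₀ (Complex.exp_ne_zero (ℓ y')) (by rw [h3]; ring)
  exact ((h0.const_mul s).comp1 (Complex.hasDerivAt_exp _)).val (by rw [h4]; ring)

theorem core {y : Fin N → ℂ} (h : Adm L y) (r : ℕ) {ℓ : (Fin N → ℂ) → ℂ} (hℓ : AnalyticAt ℂ ℓ y)
    (he : ∀ᶠ y' in 𝓝 y, Complex.exp (ℓ y') = Jac L y' ^ r) (s β : ℂ)
    {φ : (Fin N → ℂ) → ℂ} (hφ : AnalyticAt ℂ φ (uu L y)) :
    Hop L β (fun y' => Complex.exp (s * ℓ y') * φ (uu L y')) y = Complex.exp (s * ℓ y) *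
      (-(∑ k, ∑ l, (Rh L k.succ l.succ y - uu L y k * Rh L 0 l.succ y - Rh L k.succ 0 y * uu L y l
          + Rh L 0 0 y * (uu L y k * uu L y l)) * pd k (pd l φ) (uu L y)
        + ∑ k, (2 * (-(N + 1) * (s * r) - 1) * (Rh L k.succ 0 y - uu L y k * Rh L 0 0 y))
            * pd k φ (uu L y)
        + (-(N + 1) * (s * r)) * (-(N + 1) * (s * r) - 1) * Rh L 0 0 y * φ (uu L y))
      + (β * (β - 1) - s * r * (s * r - 1)) * (∑ i, ∑ j, ww L y i j) * φ (uu L y)) := by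
  have hf : AnalyticAt ℂ (fun y' => Complex.exp (s * ℓ y') * φ (uu L y')) y :=
    ((analyticAt_const.mul hℓ).cexp).mul (hφ.comp (analyticAt_uu' L h))
  rw [Hop_eq L β hf, core0 L h (gauge L h r hℓ he s) hφ]
  simp only [S2 L h, S1a L h, S1b L h, S0a L h, S0b L h]
  have : ∀ k, 2 * (s * r) * (-(N + 1) * (Rh L k.succ 0 y - uu L y k * Rh L 0 0 y))
      + -2 * (Rh L k.succ 0 y - uu L y k * Rh L 0 0 y) =
      2 * (-(N + 1) * (s * r) - 1) * (Rh L k.succ 0 y - uu L y k * Rh L 0 0 y) := fun k => by ring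
  simp only [this]
  ring

theorem Rh_poly : ∃ c : Fin (N + 1) → Fin (N + 1) → Fin (N + 1) → Fin (N + 1) → ℂ,
    ∀ y, Adm L y → ∀ k l, Rh L k l y = ∑ a, ∑ b, c a b k l *
      ((Fin.cons 1 (uu L y) : Fin (N + 1) → ℂ) a * (Fin.cons 1 (uu L y) : Fin (N + 1) → ℂ) b) := by
  obtain ⟨c, hc⟩ := H2 L (N := N)
  refine ⟨c, fun y h k l => ?_⟩
  have hU0 := U0_ne L h.1 h.2.2
  have e : ∀ a, (Fin.cons 1 (uu L y) : Fin (N + 1) → ℂ) a = UU L a y * (UU L 0 y)⁻¹ := by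
    intro a
    refine Fin.cases ?_ (fun k => ?_) a
    · simp [hU0]
    · simp [uu_eq L h.1 h.2.2]
  simp only [Rh, hc, e, Finset.sum_mul]
  exact Finset.sum_congr rfl fun a _ => Finset.sum_congr rfl fun b _ => by ring

end Pool.Agent.H.MP_88847a_mp
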