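import Pool.Agent.H.MP_88847a_mp.F

open Filter Topology PeriodPair Set

noncomputable section

namespace Pool.Agent.H.MP_88847a_mp

variable (L : PeriodPair) {N : ℕ}

theorem poly_form (β : ℂ) : ∃ a b c, Conj L β (fun y : Fin N → ℂ => Jac L y ^ 2) (polyOp a b c) := by
  obtain ⟨c, hc⟩ := Rh_poly L (N := N)
  set X : Fin (N + 1) → MvPolynomial (Fin N) ℂ := Fin.cons 1 fun i => MvPolynomial.X i with hX
  set R : Fin (N + 1) → Fin (N + 1) → MvPolynomial (Fin N) ℂ :=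
    fun k l => ∑ a, ∑ b, MvPolynomial.C (c a b k l) * (X a * X b) with hR
  have hXe : ∀ (u : Fin N → ℂ) a, MvPolynomial.eval u (X a) =
      (Fin.cons 1 u : Fin (N + 1) → ℂ) a := by
    intro u a
    refine Fin.cases ?_ (fun k => ?_) a <;> simp [hX]
  have hRe : ∀ y, Adm L y → ∀ k l, MvPolynomial.eval (uu L y) (R k l) = Rh L k l y := by
    intro y h k l
    simp only [hR, hc y h, map_sum, map_mul, MvPolynomial.eval_C, hXe]
  refine ⟨fun k l => -(R k.succ l.succ - .X k * R 0 l.succ - R k.succ 0 * .X l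
      + R 0 0 * (.X k * .X l)),
    fun k => -(MvPolynomial.C (2 * (-(N + 1) * β - 1)) * (R k.succ 0 - .X k * R 0 0)),
    -(MvPolynomial.C ((-(N + 1) * β) * (-(N + 1) * β - 1)) * R 0 0), ?_⟩
  intro y h ℓ hℓ he φ hφ
  rw [core L h 2 hℓ he (β / 2) β hφ, polyOp]
  simp only [map_neg, map_add, map_sub, map_mul, MvPolynomial.eval_C, MvPolynomial.eval_X, hRe y h,
    neg_mul, Finset.sum_neg_distrib, show β / 2 * ((2 : ℕ) : ℂ) = β by push_cast; ring]
  ring

def uh (u : Fin N → ℂ) : Fin (N + 1) → ℂ := Fin.cons 1 u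

def Dh (lam : ℂ) (b : Fin (N + 1)) (φ : (Fin N → ℂ) → ℂ) (u : Fin N → ℂ) : ℂ :=
  (Fin.cons (-∑ j, u j * pd j φ u + lam * φ u) fun j => pd j φ u : Fin (N + 1) → ℂ) b

lemma Eop_eq (lam : ℂ) (a b : Fin (N + 1)) (φ : (Fin N → ℂ) → ℂ) :
    Eop lam a b φ = fun u => uh u a * Dh lam b φ u := rfl

@[simp] lemma uh_zero (u : Fin N → ℂ) : uh u 0 = 1 := rfl
@[simp] lemma uh_succ (u : Fin N → ℂ) (k) : uh u (Fin.succ k) = u k := rfl
lemma Dh_zero (lam : ℂ) (φ : (Fin N → ℂ) → ℂ) :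
    Dh lam 0 φ = fun u => -∑ j, u j * pd j φ u + lam * φ u := rfl
lemma Dh_succ (lam : ℂ) (φ : (Fin N → ℂ) → ℂ) (k) : Dh lam (Fin.succ k) φ = pd k φ := rfl

variable {φ ψ : (Fin N → ℂ) → ℂ} {u : Fin N → ℂ}

lemma analyticAt_Dh (lam : ℂ) (b) (h : AnalyticAt ℂ φ u) : AnalyticAt ℂ (Dh lam b φ) u := by
  refine Fin.cases ?_ (fun k => ?_) b
  · rw [Dh_zero]
    exact (Finset.analyticAt_fun_sum _ fun j _ =>
      (analyticAt_coord j u).mul (analyticAt_pd h j)).neg.add (analyticAt_const.mul h)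
  · exact analyticAt_pd h k

lemma euler (lam : ℂ) : ∑ m, uh u m * Dh lam m φ u = lam * φ u := by
  simp [Fin.sum_univ_succ, Dh_zero, Dh_succ]

lemma pd_uh_mul (h : DifferentiableAt ℂ ψ u) (b) (j : Fin N) :
    pd j (fun u => uh u b * ψ u) u = (if j.succ = b then ψ u else 0) + uh u b * pd j ψ u := by
  refine Fin.cases ?_ (fun k => ?_) b
  · simp [Fin.succ_ne_zero]
  · simp only [uh_succ, Fin.succ_inj]
    rw [pd_eq, ((HD.coord k).mul (HD.of_diff h _)).2, Pi.single_apply]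
    simp [eq_comm, pd_eq]

lemma Dh_uh_mul (lam : ℂ) (h : DifferentiableAt ℂ ψ u) (b k) :
    Dh lam k (fun u => uh u b * ψ u) u =
      (if k = b then ψ u else 0) + uh u b * Dh (lam - 1) k ψ u := by
  refine Fin.cases ?_ (fun j => ?_) k
  · simp only [Dh_zero, pd_uh_mul h, mul_add, Finset.sum_add_distrib, mul_left_comm (u _),
      ← Finset.mul_sum]
    refine Fin.cases ?_ (fun m => ?_) b
    · simp [Fin.succ_ne_zero]; ring
    · simp [(Fin.succ_ne_zero m).symm]; ring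
  · simp only [Dh_succ, pd_uh_mul h]

def DD (lam : ℂ) (k l : Fin (N + 1)) (φ : (Fin N → ℂ) → ℂ) (u : Fin N → ℂ) : ℂ :=
  Dh (lam - 1) k (Dh lam l φ) u

lemma EE (lam : ℂ) (h : AnalyticAt ℂ φ u) (a k b l) : Eop lam a k (Eop lam b l φ) u =
    uh u a * ((if k = b then Dh lam l φ u else 0) + uh u b * DD lam k l φ u) := by
  rw [Eop_eq lam a k, Eop_eq lam b l]
  simp only [Dh_uh_mul lam (analyticAt_Dh lam l h).differentiableAt, DD]

lemma pd_Dh0 (lam : ℂ) (h : AnalyticAt ℂ φ u) (j : Fin N) : pd j (Dh lam 0 φ) u =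
    (lam - 1) * pd j φ u - ∑ m, u m * pd j (pd m φ) u := by
  rw [Dh_zero, pd_eq, ((HD.sum _ fun m _ => (HD.coord m).mul
    (HD.of_diff (analyticAt_pd h m).differentiableAt _)).neg.add
      ((HD.of_diff h.differentiableAt _).const_mul lam)).2]
  simp only [← pd_eq, Finset.sum_add_distrib, Pi.single_apply, ite_mul, one_mul, zero_mul,
    Finset.sum_ite_eq', Finset.mem_univ, if_true]
  ring

lemma pd_comm (h : AnalyticAt ℂ φ u) (j m : Fin N) : pd j (pd m φ) u = pd m (pd j φ) u := by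
  have e : ∀ j m : Fin N, pd j (pd m φ) u =
      fderiv ℂ (fderiv ℂ φ) u (Pi.single j 1) (Pi.single m 1) := by
    intro j m
    unfold pd
    rw [fderiv_clm_apply h.fderiv.differentiableAt (differentiableAt_const _)]
    simp
  rw [e, e]
  exact (h.contDiffAt (n := ⊤)).isSymmSndFDerivAt (by simp) _ _

lemma DD_ss (lam : ℂ) (j l : Fin N) : DD lam j.succ l.succ φ u = pd j (pd l φ) u := rfl

lemma DD_s0 (lam : ℂ) (h : AnalyticAt ℂ φ u) (j : Fin N) : DD lam j.succ 0 φ u =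
    (lam - 1) * pd j φ u - ∑ m, u m * pd j (pd m φ) u := pd_Dh0 lam h j

lemma DD_0s (lam : ℂ) (l : Fin N) : DD lam 0 l.succ φ u =
    (lam - 1) * pd l φ u - ∑ m, u m * pd m (pd l φ) u := by
  simp only [DD, Dh_zero, Dh_succ]; ring

lemma DD_00 (lam : ℂ) (h : AnalyticAt ℂ φ u) : DD lam 0 0 φ u =
    lam * (lam - 1) * φ u - 2 * (lam - 1) * ∑ j, u j * pd j φ u
      + ∑ j, ∑ m, u j * u m * pd j (pd m φ) u := by
  rw [DD, Dh_zero (lam - 1)]
  simp only [pd_Dh0 lam h]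
  simp only [mul_sub (u _), Finset.sum_sub_distrib, Dh_zero,
    mul_left_comm (u _) (lam - 1), mul_assoc]
  simp only [← Finset.mul_sum]
  ring

lemma DD_symm (lam : ℂ) (h : AnalyticAt ℂ φ u) (k l) : DD lam k l φ u = DD lam l k φ u := by
  refine Fin.cases ?_ (fun j => ?_) k <;> refine Fin.cases ?_ (fun m => ?_) l
  · rfl
  · simp only [DD_s0 lam h, DD_0s, pd_comm h m]
  · simp only [DD_s0 lam h, DD_0s, pd_comm h j]
  · simp only [DD_ss, pd_comm h j]

lemma sum_DD (lam : ℂ) (h : AnalyticAt ℂ φ u) (R : Fin (N + 1) → Fin (N + 1) → ℂ)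
    (hR : ∀ k : Fin N, R 0 k.succ = R k.succ 0) : ∑ k, ∑ l, R k l * DD lam k l φ u =
    ∑ k, ∑ l, (R k.succ l.succ - u k * R 0 l.succ - R k.succ 0 * u l
          + R 0 0 * (u k * u l)) * pd k (pd l φ) u
        + ∑ k, (2 * (lam - 1) * (R k.succ 0 - u k * R 0 0)) * pd k φ u
        + lam * (lam - 1) * R 0 0 * φ u := by
  simp only [Fin.sum_univ_succ, DD_00 lam h, DD_s0 lam h, DD_0s, DD_ss, Finset.sum_add_distrib,
    mul_sub (R _ _), Finset.sum_sub_distrib, add_mul, sub_mul]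
  have e1 : ∑ l, R 0 l.succ * ∑ m, u m * pd m (pd l φ) u =
      ∑ k, ∑ l, u k * R 0 l.succ * pd k (pd l φ) u := by
    rw [Finset.sum_comm]
    simp only [Finset.mul_sum]
    exact Finset.sum_congr rfl fun k _ => Finset.sum_congr rfl fun l _ => by ring
  have e2 : ∑ l, R l.succ 0 * ∑ m, u m * pd l (pd m φ) u =
      ∑ k, ∑ l, R k.succ 0 * u l * pd k (pd l φ) u := by
    simp only [Finset.mul_sum]
    exact Finset.sum_congr rfl fun k _ => Finset.sum_congr rfl fun l _ => by ring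
  have e3 : ∑ k, ∑ l, R 0 0 * (u k * u l) * pd k (pd l φ) u =
      R 0 0 * ∑ j, ∑ m, u j * u m * pd j (pd m φ) u := by
    simp only [Finset.mul_sum, mul_assoc]
  have e4 : ∑ k, 2 * (lam - 1) * (R k.succ 0 - u k * R 0 0) * pd k φ u =
      2 * (lam - 1) * ∑ k, R k.succ 0 * pd k φ u
        - 2 * (lam - 1) * R 0 0 * ∑ j, u j * pd j φ u := by
    simp only [Finset.mul_sum, ← Finset.sum_sub_distrib]
    exact Finset.sum_congr rfl fun k _ => by ring
  rw [e1, e2, e3, e4]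
  simp only [hR, mul_left_comm (R _ 0) lam, one_mul, ← Finset.mul_sum]
  ring

lemma core' {y : Fin N → ℂ} (h : Adm L y) (r : ℕ) {ℓ : (Fin N → ℂ) → ℂ} (hℓ : AnalyticAt ℂ ℓ y)
    (he : ∀ᶠ y' in 𝓝 y, Complex.exp (ℓ y') = Jac L y' ^ r) (s β : ℂ)
    {φ : (Fin N → ℂ) → ℂ} (hφ : AnalyticAt ℂ φ (uu L y)) :
    Hop L β (fun y' => Complex.exp (s * ℓ y') * φ (uu L y')) y = Complex.exp (s * ℓ y) *
      (-(∑ k, ∑ l, Rh L k l y * DD (-(N + 1) * (s * r)) k l φ (uu L y))
      + (β * (β - 1) - s * r * (s * r - 1)) * (∑ i, ∑ j, ww L y i j) * φ (uu L y)) := by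
  rw [core L h r hℓ he s β hφ, sum_DD _ hφ (fun k l => Rh L k l y) (fun k => Rh_symm L _ _ y)]

lemma lin_anti (lam : ℂ) (hl : lam ≠ 0 ∨ (lam = 0 ∧ N ≠ 1)) (m : Fin (N + 1) → Fin (N + 1) → ℂ) :
    ∃ c, ∀ (φ : (Fin N → ℂ) → ℂ) u, AnalyticAt ℂ φ u →
      antiOp lam c φ u = ∑ a, ∑ l, m a l * (uh u a * Dh lam l φ u) := by
  rcases hl with hl | ⟨rfl, hN⟩
  · refine ⟨fun a b k l => if a = b then m k l / (2 * lam) else 0, fun φ u h => ?_⟩
    simp only [antiOp, ite_mul, zero_mul]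
    rw [Finset.sum_congr rfl (g := fun a => ∑ k, ∑ l, m k l / (2 * lam) *
      (Eop lam a a (Eop lam k l φ) u + Eop lam k l (Eop lam a a φ) u)) fun a _ => by
        rw [Finset.sum_eq_single a (fun b _ hb => by simp [hb.symm]) (by simp)]; simp,
      Finset.sum_comm]
    refine Finset.sum_congr rfl fun k _ => ?_
    rw [Finset.sum_comm]
    refine Finset.sum_congr rfl fun l _ => ?_
    have e := euler (φ := Dh lam l φ) (u := u) (lam - 1)
    have e2 : ∀ a, Eop lam a a (Eop lam k l φ) u + Eop lam k l (Eop lam a a φ) u =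
        (if a = k then uh u a * Dh lam l φ u else 0) + (if l = a then uh u k * Dh lam a φ u else 0)
          + 2 * uh u k * (uh u a * Dh (lam - 1) a (Dh lam l φ) u) := by
      intro a
      rw [EE lam h, EE lam h, DD_symm lam h l a, DD]
      split_ifs <;> ring
    simp only [e2, ← Finset.mul_sum, Finset.sum_add_distrib, e, Finset.sum_ite_eq,
      Finset.sum_ite_eq', Finset.mem_univ, if_true]
    field_simp
    ring
  · have hN' : (N : ℂ) - 1 ≠ 0 := by
      rw [sub_ne_zero]; exact_mod_cast hN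
    refine ⟨fun a b k l => if b = k then m a l / (N - 1) else 0, fun φ u h => ?_⟩
    simp only [antiOp, ite_mul, zero_mul]
    refine Finset.sum_congr rfl fun a _ => ?_
    rw [Finset.sum_congr rfl (g := fun b => ∑ l, m a l / (N - 1) *
      (Eop 0 a b (Eop 0 b l φ) u + Eop 0 b l (Eop 0 a b φ) u)) fun b _ => by
        rw [Finset.sum_eq_single b (fun k _ hk => by simp [hk.symm]) (by simp)]; simp,
      Finset.sum_comm]
    refine Finset.sum_congr rfl fun l _ => ?_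
    have e := euler (φ := Dh 0 l φ) (u := u) (0 - 1)
    have e' := euler (φ := φ) (u := u) 0
    have e2 : ∀ b, Eop 0 a b (Eop 0 b l φ) u + Eop 0 b l (Eop 0 a b φ) u =
        uh u a * Dh 0 l φ u + (if l = a then 1 else 0) * (uh u b * Dh 0 b φ u)
          + 2 * uh u a * (uh u b * Dh (0 - 1) b (Dh 0 l φ) u) := by
      intro b
      rw [EE 0 h, EE 0 h, DD_symm 0 h l b, DD, if_pos rfl]
      split_ifs <;> ring
    simp only [e2, ← Finset.mul_sum, Finset.sum_add_distrib, e, e', Finset.sum_const,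
      Finset.card_univ, Fintype.card_fin, nsmul_eq_mul]
    push_cast
    field_simp
    ring

lemma antiOp_add (lam : ℂ) (c d) : antiOp lam (c + d) φ u = antiOp lam c φ u + antiOp lam d φ u := by
  simp only [antiOp, Pi.add_apply, add_mul, Finset.sum_add_distrib]

lemma quad_anti (lam : ℂ) (hl : lam ≠ 0 ∨ (lam = 0 ∧ N ≠ 1))
    (c : Fin (N + 1) → Fin (N + 1) → Fin (N + 1) → Fin (N + 1) → ℂ) :
    ∃ d, ∀ (φ : (Fin N → ℂ) → ℂ) u, AnalyticAt ℂ φ u →
      antiOp lam d φ u = - ∑ k, ∑ l, (∑ a, ∑ b, c a b k l * (uh u a * uh u b)) * DD lam k l φ u := by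
  obtain ⟨d, hd⟩ := lin_anti lam hl fun a l => (∑ b, c a b b l + ∑ b, c b a l b) / 2
  refine ⟨(fun a k b l => - c a b k l / 2) + d, fun φ u h => ?_⟩
  rw [antiOp_add, hd φ u h, antiOp]
  have e : ∀ a k b l, - c a b k l / 2 *
      (Eop lam a k (Eop lam b l φ) u + Eop lam b l (Eop lam a k φ) u) =
      - (c a b k l * (uh u a * uh u b) * DD lam k l φ u)
      - (if k = b then c a b k l / 2 * (uh u a * Dh lam l φ u) else 0)
      - (if l = a then c a b k l / 2 * (uh u b * Dh lam k φ u) else 0) := by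
    intro a k b l
    rw [EE lam h, EE lam h, DD_symm lam h l k]
    split_ifs <;> ring
  simp only [e, Finset.sum_sub_distrib, Finset.sum_neg_distrib]
  have e1 : ∑ a, ∑ k, ∑ b, ∑ l, c a b k l * (uh u a * uh u b) * DD lam k l φ u =
      ∑ k, ∑ l, (∑ a, ∑ b, c a b k l * (uh u a * uh u b)) * DD lam k l φ u := by
    rw [Finset.sum_comm]
    refine Finset.sum_congr rfl fun k _ => ?_
    rw [Finset.sum_congr rfl fun a _ => Finset.sum_comm, Finset.sum_comm]
    simp only [Finset.sum_mul]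
  have e2 : ∑ a, ∑ k, ∑ b, ∑ l, (if k = b then c a b k l / 2 * (uh u a * Dh lam l φ u) else 0) =
      ∑ a, ∑ l, (∑ b, c a b b l) / 2 * (uh u a * Dh lam l φ u) := by
    refine Finset.sum_congr rfl fun a _ => ?_
    rw [Finset.sum_congr rfl fun k _ => Finset.sum_comm, Finset.sum_comm]
    simp only [Finset.sum_ite_eq, Finset.mem_univ, if_true, Finset.sum_div, Finset.sum_mul]
  have e3 : ∑ a, ∑ k, ∑ b, ∑ l, (if l = a then c a b k l / 2 * (uh u b * Dh lam k φ u) else 0) =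
      ∑ a, ∑ l, (∑ b, c b a l b) / 2 * (uh u a * Dh lam l φ u) := by
    simp only [Finset.sum_ite_eq', Finset.mem_univ, if_true, Finset.sum_div, Finset.sum_mul]
    rw [Finset.sum_congr rfl fun a _ => Finset.sum_comm, Finset.sum_comm]
    refine Finset.sum_congr rfl fun b _ => ?_
    rw [Finset.sum_comm]
  rw [e1, e2, e3]
  simp only [add_div, add_mul, Finset.sum_add_distrib]
  ring

theorem anti_form_gen (β : ℂ) (hl : β ≠ 0 ∨ N ≠ 1) :
    ∃ c, Conj L β (fun y : Fin N → ℂ => Jac L y ^ 2) (antiOp (-(β * (N + 1))) c) := by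
  obtain ⟨c, hc⟩ := Rh_poly L (N := N)
  obtain ⟨d, hd⟩ := quad_anti (N := N) (-(β * (N + 1))) (by
    by_cases hb : β = 0
    · exact Or.inr ⟨by simp [hb], hl.resolve_left (not_not.mpr hb)⟩
    · exact Or.inl (neg_ne_zero.mpr (mul_ne_zero hb nn_ne))) c
  refine ⟨d, fun y h ℓ hℓ he φ hφ => ?_⟩
  rw [core' L h 2 hℓ he (β / 2) β hφ, hd φ _ hφ,
    show β / 2 * ((2 : ℕ) : ℂ) = β by push_cast; ring,
    show -((N : ℂ) + 1) * β = -(β * (N + 1)) by ring]
  simp only [hc y h, uh]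
  ring

lemma exists_log {D : (Fin N → ℂ) → ℂ} {y : Fin N → ℂ} (hD : AnalyticAt ℂ D y) (h0 : D y ≠ 0) :
    ∃ ℓ : (Fin N → ℂ) → ℂ, AnalyticAt ℂ ℓ y ∧ ∀ᶠ y' in 𝓝 y, Complex.exp (ℓ y') = D y' := by
  refine ⟨fun y' => Complex.log (D y' / D y) + Complex.log (D y), ?_, ?_⟩
  · refine AnalyticAt.add (AnalyticAt.clog (hD.div_const) ?_) analyticAt_const
    simp [h0]
  · filter_upwards [hD.continuousAt.eventually_ne h0] with y' hy'
    rw [Complex.exp_add, Complex.exp_log (div_ne_zero hy' h0), Complex.exp_log h0]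
    field_simp

end Pool.Agent.H.MP_88847a_mp
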