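import Pool.Agent.H.MP_88847a_mp.G

open Filter Topology PeriodPair Set

noncomputable section

namespace Pool.Agent.H.MP_88847a_mp

variable (L : PeriodPair) {N : ℕ}

lemma det_one (y : Fin 1 → ℂ) : (Mat L y).det = ℘[L] (y 0) := by
  simp [Mat]

lemma uu_one {y : Fin 1 → ℂ} (h : ℘[L] (y 0) ≠ 0) : uu L y 0 = (℘[L] (y 0))⁻¹ := by
  have h1 : (Mat L y).mulVec (uu L y) = fun _ => 1 := by
    rw [uu, Matrix.mulVec_mulVec, Matrix.mul_nonsing_inv _
      (isUnit_iff_ne_zero.mpr (by rwa [det_one])), Matrix.one_mulVec]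
  have := congrFun h1 0
  simp only [Matrix.mulVec, dotProduct, Fin.sum_univ_one, Mat, Matrix.of_apply, Fin.val_zero,
    iteratedDeriv_zero] at this
  field_simp
  linear_combination this

lemma hasDerivAt_wp {z : ℂ} (hz : z ∉ L.lattice) : HasDerivAt ℘[L] (℘'[L] z) z := by
  have := (L.analyticOnNhd_weierstrassP z hz).differentiableAt.hasDerivAt
  rwa [deriv_weierstrassP] at this

lemma hasDerivAt_wp' {z : ℂ} (hz : z ∉ L.lattice) (h0 : ℘'[L] z ≠ 0) :
    HasDerivAt ℘'[L] (6 * ℘[L] z ^ 2 - L.g₂ / 2) z := by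
  have h1 := (L.analyticOnNhd_derivWeierstrassP z hz).differentiableAt.hasDerivAt
  have h2 := hasDerivAt_wp L hz
  have h3 := (h1.pow 2).unique (((((h2.pow 3).const_mul 4).sub (h2.const_mul L.g₂)).sub_const
    L.g₃).congr_of_eventuallyEq (by
      filter_upwards [L.isClosed_lattice.isOpen_compl.mem_nhds hz] with x hx
      simpa using L.derivWeierstrassP_sq x hx))
  refine hd_congr h1 (fun _ => rfl) ?_
  apply mul_left_cancel₀ h0
  simp only [Nat.cast_ofNat, Nat.add_one_sub_one, pow_one] at h3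
  linear_combination -h3 / 2

lemma dd_uu_one {y : Fin 1 → ℂ} (h : Adm L y) (v : Fin 1 → ℂ) :
    dd v (fun y => uu L y 0) y = -(℘'[L] (y 0) * (℘[L] (y 0) ^ 2)⁻¹) * v 0 := by
  have h0 : ℘[L] (y 0) ≠ 0 := by rw [← det_one]; exact h.2.2
  rw [((((HD.coord 0).comp1 (hasDerivAt_wp L (h.1 0))).comp1 (hasDerivAt_inv h0)).congr
    (g := fun y => uu L y 0) (by
      filter_upwards [h.ev] with y' hy'
      exact uu_one L (by rw [← det_one]; exact hy'.2.2))).2]
  ring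

lemma Jac_one {y : Fin 1 → ℂ} (h : Adm L y) :
    Jac L y = -(℘'[L] (y 0) * (℘[L] (y 0) ^ 2)⁻¹) := by
  simp [Jac, pd_eq, dd_uu_one L h]

lemma HD_J1 {y : Fin 1 → ℂ} (h : Adm L y) (v : Fin 1 → ℂ) :
    HD (fun y => -(℘'[L] (y 0) * (℘[L] (y 0) ^ 2)⁻¹)) y v
      ((2 - 3 / 2 * L.g₂ * uu L y 0 ^ 2 - 2 * L.g₃ * uu L y 0 ^ 3) * v 0) := by
  have h0 : ℘[L] (y 0) ≠ 0 := by rw [← det_one]; exact h.2.2
  have h1 : ℘'[L] (y 0) ≠ 0 := by
    intro e
    apply Jac_ne L h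
    rw [Jac_one L h, e]; simp
  have h2 := hasDerivAt_wp L (h.1 0)
  refine ((HD.coord 0).comp1 ((hasDerivAt_wp' L (h.1 0) h1).mul
    ((h2.pow 2).inv (pow_ne_zero 2 h0))).neg).val ?_
  rw [uu_one L h0]
  have := L.derivWeierstrassP_sq _ (h.1 0)
  simp only [Pi.pow_apply, Pi.inv_apply, Nat.cast_ofNat, Nat.add_one_sub_one, pow_one]
  field_simp
  linear_combination (-4 * v 0) * this

lemma vv_one : ∑ i : Fin (1 + 1), vv (N := 1) i 0 * vv (N := 1) i 0 = 1 / 2 := by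
  simp [Fin.sum_univ_two, vv]; norm_num

theorem H_one {y : Fin 1 → ℂ} (h : Adm L y) (r : ℕ) {ℓ : (Fin 1 → ℂ) → ℂ} (hℓ : AnalyticAt ℂ ℓ y)
    (he : ∀ᶠ y' in 𝓝 y, Complex.exp (ℓ y') = Jac L y' ^ r) (s β : ℂ) : ∃ C : ℂ,
    ∀ φ : (Fin 1 → ℂ) → ℂ, AnalyticAt ℂ φ (uu L y) →
    Hop L β (fun y' => Complex.exp (s * ℓ y') * φ (uu L y')) y = Complex.exp (s * ℓ y) *
      (-((4 * uu L y 0 - L.g₂ * uu L y 0 ^ 3 - L.g₃ * uu L y 0 ^ 4) / 2 * pd 0 (pd 0 φ) (uu L y)
        + (2 * (s * r) + 1) * (2 - 3 / 2 * L.g₂ * uu L y 0 ^ 2 - 2 * L.g₃ * uu L y 0 ^ 3) / 2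
          * pd 0 φ (uu L y) + s * C * φ (uu L y))
        + β * (β - 1) * (∑ i, ∑ j, ww L y i j) * φ (uu L y)) := by
  have h0 : ℘[L] (y 0) ≠ 0 := by rw [← det_one]; exact h.2.2
  refine ⟨s * r ^ 2 * ∑ i, LL L i y ^ 2 + r * ∑ i, dd (vv i) (LL L i) y, fun φ hφ => ?_⟩
  have hf : AnalyticAt ℂ (fun y' => Complex.exp (s * ℓ y') * φ (uu L y')) y :=
    ((analyticAt_const.mul hℓ).cexp).mul (hφ.comp (analyticAt_uu' L h))
  rw [Hop_eq L β hf, core0 L h (gauge L h r hℓ he s) hφ]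
  have e1 : ∀ y', Adm L y' → ∀ i, Du L 0 i y' = -(℘'[L] (y' 0) * (℘[L] (y' 0) ^ 2)⁻¹) * vv i 0 :=
    fun y' h' i => dd_uu_one L h' _
  have e2 : ∀ i, dd (vv i) (Du L 0 i) y =
      (2 - 3 / 2 * L.g₂ * uu L y 0 ^ 2 - 2 * L.g₃ * uu L y 0 ^ 3) * (vv i 0 * vv i 0) := by
    intro i
    rw [(((HD_J1 L h (vv i)).mul_const (vv i 0)).congr (g := Du L 0 i)
      (by filter_upwards [h.ev] with y' hy' using e1 y' hy' i)).2]
    ring
  have e3 : ∀ i, LL L i y * Du L 0 i y =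
      (2 - 3 / 2 * L.g₂ * uu L y 0 ^ 2 - 2 * L.g₃ * uu L y 0 ^ 3) * (vv i 0 * vv i 0) := by
    intro i
    have := dd_Jac_vv L h i
    rw [((HD_J1 L h (vv i)).congr (g := Jac L)
      (by filter_upwards [h.ev] with y' hy' using Jac_one L hy')).2, Jac_one L h] at this
    rw [e1 y h, ← mul_assoc, ← this]; ring
  have e4 : ∀ i, Du L 0 i y * Du L 0 i y =
      (4 * uu L y 0 - L.g₂ * uu L y 0 ^ 3 - L.g₃ * uu L y 0 ^ 4) * (vv i 0 * vv i 0) := by
    intro i
    rw [e1 y h, uu_one L h0]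
    have := L.derivWeierstrassP_sq _ (h.1 0)
    field_simp
    linear_combination (vv i 0) ^ 2 * this
  simp only [Fin.sum_univ_one, e2, e3, e4, ← Finset.mul_sum, vv_one]
  ring

def Dv (lam x p0 p1 : ℂ) : Fin 2 → ℂ := ![-(x * p1) + lam * p0, p1]

def DDv (lam x p0 p1 p2 : ℂ) : Fin 2 → Fin 2 → ℂ :=
  ![![lam * (lam - 1) * p0 - 2 * (lam - 1) * (x * p1) + x * x * p2, (lam - 1) * p1 - x * p2],
    ![(lam - 1) * p1 - x * p2, p2]]

def anti1 (lam : ℂ) (c : Fin 2 → Fin 2 → Fin 2 → Fin 2 → ℂ) (x p0 p1 p2 : ℂ) : ℂ :=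
  ∑ a, ∑ b, ∑ k, ∑ l, c a b k l *
    (![1, x] a * ((if b = k then Dv lam x p0 p1 l else 0) + ![1, x] k * DDv lam x p0 p1 p2 b l)
      + ![1, x] k * ((if l = a then Dv lam x p0 p1 b else 0) + ![1, x] a * DDv lam x p0 p1 p2 l b))

lemma antiOp_one (lam : ℂ) (c) {φ : (Fin 1 → ℂ) → ℂ} {u : Fin 1 → ℂ} (h : AnalyticAt ℂ φ u) :
    antiOp lam c φ u = anti1 lam c (u 0) (φ u) (pd 0 φ u) (pd 0 (pd 0 φ) u) := by
  have e1 : ∀ a : Fin 2, uh u a = ![1, u 0] a := by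
    intro a; fin_cases a <;> rfl
  have e2 : ∀ a : Fin 2, Dh lam a φ u = Dv lam (u 0) (φ u) (pd 0 φ u) a := by
    intro a; fin_cases a
    · simp [Dh_zero, Dv]
    · rfl
  have e3 : ∀ a b : Fin 2, DD lam a b φ u =
      DDv lam (u 0) (φ u) (pd 0 φ u) (pd 0 (pd 0 φ) u) a b := by
    intro a b; fin_cases a <;> fin_cases b
    · simpa [DDv] using DD_00 lam h
    · simpa [DDv] using DD_0s (φ := φ) (u := u) lam 0
    · simpa [DDv] using DD_s0 lam h 0
    · rfl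
  simp only [antiOp, anti1, EE lam h, e1, e2, e3]

theorem anti_form_one : ∃ c, Conj L 0 (fun y : Fin 1 → ℂ => Jac L y ^ 2) (antiOp 0 c) := by
  refine ⟨![![![![0, 0], ![0, 0]], ![![0, 0], ![0, -1]]],
    ![![![0, 0], ![L.g₃ / 4, 0]], ![![0, 0], ![-L.g₂ / 4, 0]]]], fun y h ℓ hℓ he φ hφ => ?_⟩
  obtain ⟨C, hC⟩ := H_one L h 2 hℓ he (0 / 2) 0
  rw [hC φ hφ, antiOp_one _ _ hφ]
  simp [anti1, Fin.sum_univ_two, Dv, DDv]
  ring

theorem anti_form (hN : 1 ≤ N) (β : ℂ) :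
    ∃ c, Conj L β (fun y : Fin N → ℂ => Jac L y ^ 2) (antiOp (-(β * (N + 1))) c) := by
  by_cases h : β ≠ 0 ∨ N ≠ 1
  · exact anti_form_gen L β h
  · push Not at h
    obtain ⟨rfl, rfl⟩ := h
    simpa using anti_form_one L

lemma wp_near : Tendsto (fun t => t ^ 2 * ℘[L] t) (𝓝[≠] 0) (𝓝 1) := by
  have h1 : Tendsto (fun t => 1 + t ^ 2 * L.weierstrassPExcept 0 t) (𝓝 0)
      (𝓝 (1 + 0 ^ 2 * L.weierstrassPExcept 0 0)) :=
    (continuousAt_const.add ((by fun_prop : ContinuousAt (fun t : ℂ => t ^ 2) 0).mul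
      (L.analyticAt_weierstrassPExcept 0).continuousAt)).tendsto
  simp only [ne_eq, OfNat.ofNat_ne_zero, not_false_eq_true, zero_pow, zero_mul, add_zero] at h1
  refine (h1.mono_left nhdsWithin_le_nhds).congr' ?_
  filter_upwards [self_mem_nhdsWithin] with t ht
  have ht0 : t ≠ 0 := ht
  rw [wp_eq]; field_simp

lemma two_tendsto : Tendsto (fun t : ℂ => 2 * t) (𝓝[≠] 0) (𝓝[≠] 0) := by
  refine tendsto_nhdsWithin_iff.mpr ⟨?_, ?_⟩
  · have : Tendsto (fun t : ℂ => 2 * t) (𝓝 0) (𝓝 (2 * 0)) := (continuous_const_mul 2).continuousAt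
    rw [mul_zero] at this
    exact this.mono_left nhdsWithin_le_nhds
  · filter_upwards [self_mem_nhdsWithin] with t ht
    simpa using ht

lemma wp_ne_near : ∀ᶠ t in 𝓝[≠] (0 : ℂ), ℘[L] t ≠ 0 := by
  filter_upwards [(wp_near L).eventually_ne one_ne_zero] with t ht e
  simp [e] at ht

lemma Yx_one (t : ℂ) : Yx (fun _ : Fin 1 => t) = ![t, -t] := by
  ext i; fin_cases i <;> simp [Yx, Fin.snoc]

lemma adm_near : ∀ᶠ t in 𝓝[≠] (0 : ℂ), Adm L (fun _ : Fin 1 => t) := by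
  filter_upwards [ev_notMem0 L 0, two_tendsto.eventually (ev_notMem0 L 0), wp_ne_near L]
    with t h1 h2 h3
  refine ⟨fun _ => h1, fun i j hij => ?_, by rwa [det_one]⟩
  rw [Yx_one]
  fin_cases i <;> fin_cases j
  · exact absurd rfl hij
  · simpa [two_mul] using h2
  · intro h
    apply h2
    simpa [two_mul] using neg_mem h
  · exact absurd rfl hij

lemma u_near : Tendsto (fun t => uu L (fun _ : Fin 1 => t) 0) (𝓝[≠] 0) (𝓝[≠] 0) := by
  have h1 : Tendsto (fun t : ℂ => t ^ 2) (𝓝[≠] 0) (𝓝 0) := by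
    have : Tendsto (fun t : ℂ => t ^ 2) (𝓝 0) (𝓝 (0 ^ 2)) := (continuous_pow 2).continuousAt
    simpa using this.mono_left nhdsWithin_le_nhds
  refine tendsto_nhdsWithin_iff.mpr ⟨?_, ?_⟩
  · have := h1.div (wp_near L) one_ne_zero
    rw [zero_div] at this
    refine this.congr' ?_
    filter_upwards [wp_ne_near L, self_mem_nhdsWithin] with t ht ht0
    have ht0' : t ≠ 0 := ht0
    rw [uu_one L (y := fun _ => t) ht]
    simp only [Pi.div_apply]
    field_simp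
  · filter_upwards [wp_ne_near L] with t ht
    rw [uu_one L (y := fun _ => t) ht]
    simpa using ht

theorem literal_fail {β : ℂ} (h0 : β ≠ 0) (h1 : β ≠ 2 / 3)
    {P : ((Fin 1 → ℂ) → ℂ) → (Fin 1 → ℂ) → ℂ} (hP : ContinuousAt (P fun _ => 1) 0) :
    ¬ Conj L β (Jac L) P := by
  intro hc
  obtain ⟨c, hR⟩ := Rh_poly L (N := 1)
  set lam : ℂ := -((1 : ℕ) + 1) * (β / 2 * (1 : ℕ)) with hlam
  set G : (Fin 1 → ℂ) → ℂ := fun u => P (fun _ => 1) u + lam * (lam - 1) *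
    ∑ a, ∑ b, c a b 0 0 * (![1, u 0] a * ![1, u 0] b) with hG
  have hGc : ContinuousAt G 0 := by
    simp only [hG, Fin.sum_univ_two, Matrix.cons_val_zero, Matrix.cons_val_one]
    fun_prop
  have hu : Tendsto (fun t => uu L (fun _ : Fin 1 => t)) (𝓝[≠] 0) (𝓝 0) :=
    tendsto_pi_nhds.mpr fun i => by
      rw [Subsingleton.elim i 0]; exact (u_near L).mono_right nhdsWithin_le_nhds
  have h2 : Tendsto (fun t : ℂ => (2 * t) ^ 2) (𝓝[≠] 0) (𝓝 0) := by
    have : Tendsto (fun t : ℂ => (2 * t) ^ 2) (𝓝 0) (𝓝 ((2 * 0) ^ 2)) :=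
      (by fun_prop : Continuous fun t : ℂ => (2 * t) ^ 2).continuousAt
    simpa using this.mono_left nhdsWithin_le_nhds
  have h3 := h2.mul (hGc.tendsto.comp hu)
  have h4 := (two_tendsto.comp tendsto_id |> (wp_near L).comp).const_mul
    (2 * (β * (β - 1) - β / 2 * (β / 2 - 1)))
  have h5 := tendsto_nhds_unique_of_eventuallyEq h3 h4 (by
    filter_upwards [adm_near L] with t ht
    obtain ⟨ℓ, hℓ, he⟩ := exists_log (analyticAt_Jac L ht) (Jac_ne L ht)
    have e1 := hc _ ht ℓ hℓ he (fun _ => 1) analyticAt_const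
    rw [core L ht 1 hℓ (by simpa using he) (β / 2) β analyticAt_const] at e1
    have e2 := mul_left_cancel₀ (Complex.exp_ne_zero _) e1
    have e3 : ∀ a : Fin 2, (Fin.cons 1 (uu L fun _ : Fin 1 => t) : Fin 2 → ℂ) a =
        ![1, uu L (fun _ : Fin 1 => t) 0] a := by
      intro a; fin_cases a <;> rfl
    have e4 : pd 0 (fun _ : Fin 1 → ℂ => (1 : ℂ)) = fun _ => 0 := by
      ext u; simp [pd]
    have e5 : pd 0 (fun _ : Fin 1 → ℂ => (0 : ℂ)) = fun _ => 0 := by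
      ext u; simp [pd]
    have e6 : ∑ i, ∑ j, ww L (fun _ : Fin 1 => t) i j = 2 * ℘[L] (2 * t) := by
      simp only [ww, Yx_one]
      rw [Fin.sum_univ_two, Fin.sum_univ_two, Fin.sum_univ_two]
      simp only [Matrix.cons_val_zero, Matrix.cons_val_one, sub_self, weierstrassP_zero]
      rw [show -t - t = -(2 * t) by ring, show t - -t = 2 * t by ring, weierstrassP_neg]
      ring
    simp only [Fin.sum_univ_one, e4, e5, e6, hR _ ht 0 0, e3] at e2
    simp only [Function.comp_apply, hG, id, ← e2, hlam]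
    push_cast
    ring)
  apply mul_ne_zero h0 (sub_ne_zero.mpr h1)
  linear_combination (-2 / 3) * h5

lemma jet (x p1 p2 : ℂ) : ∃ φ : (Fin 1 → ℂ) → ℂ, (∀ u, AnalyticAt ℂ φ u) ∧ ∀ u, u 0 = x →
    φ u = 0 ∧ pd 0 φ u = p1 ∧ pd 0 (pd 0 φ) u = p2 := by
  have h1 : pd 0 (fun v : Fin 1 → ℂ => p1 * (v 0 - x) + p2 / 2 * ((v 0 - x) * (v 0 - x))) =
      fun v => p1 + p2 * (v 0 - x) := by
    ext v
    have e := (HD.coord (y := v) (v := Pi.single 0 1) 0).sub (HD.const x)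
    rw [pd_eq, ((e.const_mul p1).add ((e.mul e).const_mul (p2 / 2))).2]
    simp; ring
  refine ⟨fun v => p1 * (v 0 - x) + p2 / 2 * ((v 0 - x) * (v 0 - x)), fun u => ?_, fun u hu => ?_⟩
  · have := (analyticAt_coord 0 u).sub (analyticAt_const (v := x))
    exact (analyticAt_const.mul this).add (analyticAt_const.mul (this.mul this))
  · rw [h1]
    have e := (HD.coord (y := u) (v := Pi.single 0 1) 0).sub (HD.const x)
    refine ⟨by simp [hu], by simp [hu], ?_⟩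
    rw [pd_eq, ((HD.const p1).add (e.const_mul p2)).2]
    simp

theorem sign_fail {β : ℂ} (h0 : β ≠ 0) (h3 : L.g₃ ≠ 0) :
    ¬ ∃ c, Conj L β (fun y : Fin 1 → ℂ => Jac L y ^ 2) (antiOp (β * 2) c) := by
  rintro ⟨c, hc⟩
  set f : ℂ → ℂ := fun x => anti1 (β * 2) c x 0 x (-(2 - 2 * (β * 2)))
    + ((4 * x - L.g₂ * x ^ 3 - L.g₃ * x ^ 4) / 2 * (-(2 - 2 * (β * 2)))
      + (2 * β + 1) * (2 - 3 / 2 * L.g₂ * x ^ 2 - 2 * L.g₃ * x ^ 3) / 2 * x) with hf
  have hfa : AnalyticOnNhd ℂ f univ := by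
    intro x _
    simp only [hf, anti1, Fin.sum_univ_two, Dv, DDv]
    simp only [Matrix.cons_val_zero, Matrix.cons_val_one, if_true, zero_ne_one, one_ne_zero,
      if_false]
    fun_prop
  have hz : ∀ᶠ t in 𝓝[≠] (0 : ℂ), f (uu L (fun _ : Fin 1 => t) 0) = 0 := by
    filter_upwards [adm_near L] with t ht
    obtain ⟨ℓ, hℓ, he⟩ := exists_log ((analyticAt_Jac L ht).pow 2) (pow_ne_zero 2 (Jac_ne L ht))
    obtain ⟨C, hC⟩ := H_one L ht 2 hℓ he (β / 2) β
    obtain ⟨φ, hφ, hj⟩ := jet (uu L (fun _ : Fin 1 => t) 0) (uu L (fun _ : Fin 1 => t) 0)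
      (-(2 - 2 * (β * 2)))
    obtain ⟨j0, j1, j2⟩ := hj _ rfl
    have e1 := hc _ ht ℓ hℓ he φ (hφ _)
    rw [hC φ (hφ _), antiOp_one _ _ (hφ _), j0, j1, j2] at e1
    have e2 := mul_left_cancel₀ (Complex.exp_ne_zero _) e1
    simp only [hf, ← e2]
    push_cast
    ring
  have hf0 : f = 0 := hfa.eq_of_frequently_eq (z₀ := 0) analyticOnNhd_const
    ((u_near L).frequently hz.frequently)
  have e0 := congrFun hf0 0
  have e1 := congrFun hf0 1
  have e2 := congrFun hf0 2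
  have e3 := congrFun hf0 3
  have e4 := congrFun hf0 4
  simp only [hf, anti1, Fin.sum_univ_two, Dv, DDv] at e0 e1 e2 e3 e4
  simp only [Matrix.cons_val_zero, Matrix.cons_val_one, if_true, zero_ne_one, one_ne_zero,
    if_false, Pi.zero_apply] at e0 e1 e2 e3 e4
  apply mul_ne_zero h0 h3
  linear_combination (-1 / 96) * (e0 - 4 * e1 + 6 * e2 - 4 * e3 + e4)

lemma exists_det_ne (N : ℕ) : ∃ y : Fin N → ℂ, (∀ i, y i ∉ L.lattice) ∧ (Mat L y).det ≠ 0 := by
  induction N with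
  | zero => exact ⟨fun _ => 0, fun i => i.elim0, by simp⟩
  | succ N ih =>
    obtain ⟨y, hy, hd⟩ := ih
    by_contra hc
    push Not at hc
    set M : ℂ → Matrix (Fin (N + 1)) (Fin (N + 1)) ℂ := fun z => Mat L (Fin.cons z y) with hM
    set co : Fin (N + 1) → ℂ := fun k => (-1) ^ (k : ℕ) *
      (Matrix.of fun (i j : Fin N) => wp L (k.succAbove j) (y i)).det with hco
    have h1 : ∀ z, (M z).det = ∑ k, co k * wp L k z := by
      intro z
      rw [Matrix.det_succ_row_zero]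
      refine Finset.sum_congr rfl fun k _ => ?_
      rw [hco, mul_right_comm]
      rfl
    have h2 := indep L (N + 2) (S := ∅) countable_empty (Fin.cons 0 co) (fun z hz _ => by
      have := hc (Fin.cons z y) (fun i => Fin.cases hz hy i)
      rw [Fin.sum_univ_succ]
      change (M z).det = 0 at this
      rw [h1] at this
      simp [this]) (Fin.last (N + 1))
    rw [← Fin.succ_last, Fin.cons_succ, hco] at h2
    simp only [Fin.succAbove_last, Fin.val_castSucc, mul_eq_zero, pow_eq_zero_iff', neg_eq_zero,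
      one_ne_zero, false_and, false_or] at h2
    exact hd h2

theorem exists_adm (N : ℕ) : ∃ y : Fin N → ℂ, Adm L y := by
  obtain ⟨y, hy, hd⟩ := exists_det_ne L N
  set w : Fin N → ℂ := fun i => ((i : ℕ) + 1 : ℕ) with hw
  have hwi : ∀ i j, i ≠ j → Yx w i - Yx w j ≠ 0 := by
    have key : ∀ i : Fin N, w i ≠ -∑ j, w j := by
      intro i e
      have : w i + ∑ j, w j = 0 := by rw [e]; ring
      simp only [hw] at this
      norm_cast at this
      omega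
    intro i j hij
    rw [sub_ne_zero]
    revert hij
    refine Fin.lastCases ?_ (fun i => ?_) i <;> refine Fin.lastCases ?_ (fun j => ?_) j
    · simp
    · intro _; simpa [Yx] using (key j).symm
    · intro _; simpa [Yx] using key i
    · intro h
      simp only [Yx, Fin.snoc_castSucc, hw, ne_eq, Nat.cast_inj, Nat.add_right_cancel_iff]
      exact fun e => h (by rw [Fin.ext e])
  have hlin : ∀ (t : ℂ) m, Yx (y + t • w) m = Yx y m + t * Yx w m := by
    intro t m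
    refine Fin.lastCases ?_ (fun i => ?_) m
    · simp [Yx, Finset.sum_add_distrib, Finset.mul_sum]; ring
    · simp [Yx]
  have hS : {t : ℂ | ∃ i j, i ≠ j ∧ Yx (y + t • w) i - Yx (y + t • w) j ∈ L.lattice}.Countable := by
    refine Set.Countable.mono (s₂ := ⋃ i, ⋃ j,
      (fun l => (l - (Yx y i - Yx y j)) / (Yx w i - Yx w j)) '' (L.lattice : Set ℂ)) ?_
      (countable_iUnion fun i => countable_iUnion fun j => (countable_lattice L).image _)
    rintro t ⟨i, j, hij, ht⟩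
    refine mem_iUnion₂.mpr ⟨i, j, _, ht, ?_⟩
    have := hwi i j hij
    simp only [hlin]
    field_simp
    ring
  have hcont : Tendsto (fun t : ℂ => y + t • w) (𝓝 0) (𝓝 y) := by
    have : Tendsto (fun t : ℂ => y + t • w) (𝓝 0) (𝓝 (y + (0 : ℂ) • w)) :=
      (by fun_prop : Continuous fun t : ℂ => y + t • w).continuousAt
    simpa using this
  have hev := hcont.eventually ((eventually_all.mpr fun i =>
    ev_gen L (analyticAt_coord i y).continuousAt (hy i)).and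
      ((analyticAt_detM L hy).continuousAt.eventually_ne hd))
  obtain ⟨t, ht1, ht2⟩ := (hS.dense_compl ℂ).inter_nhds_nonempty hev
  exact ⟨y + t • w, ht2.1, fun i j hij h => ht1 ⟨i, j, hij, h⟩, ht2.2⟩

end Pool.Agent.H.MP_88847a_mp
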